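import Mathlib

set_option autoImplicit false

/-! # A variational inequality on a box -/

namespace LibTri47

open Finset

variable {X : Type} [Fintype X]

/-- The quadratic form minimised on the box. -/
private def viQ (U : X → X → ℝ) (δ : X → ℝ) (f : X → ℝ) : ℝ :=
  ∑ a, ∑ b, U a b * f a * f b - 4 * ∑ a, δ a * f a

open Classical in
private theorem viQ_add (U : X → X → ℝ) (hs : ∀ i j, U i j = U j i) (δ f : X → ℝ) (i : X)
    (h : ℝ) : viQ U δ (f + Pi.single i h) =
      viQ U δ f + h * (2 * (∑ j, U i j * f j - 2 * δ i)) + h ^ 2 * U i i := by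
  have h1 : ∀ a b, U a b * (f + Pi.single i h : X → ℝ) a * (f + Pi.single i h : X → ℝ) b =
      U a b * f a * f b + (if a = i then h * (U i b * f b) else 0)
        + (if b = i then h * (U i a * f a) else 0)
        + (if a = i then (if b = i then h ^ 2 * U i i else 0) else 0) := by
    intro a b
    simp only [Pi.add_apply, Pi.single_apply]
    by_cases ha : a = i
    · by_cases hb : b = i
      · subst ha; subst hb
        simp only [if_true]
        ring
      · subst ha
        simp only [if_true, hb, if_false]
        ring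
    · by_cases hb : b = i
      · subst hb
        simp only [if_true, ha, if_false]
        rw [hs b a]
        ring
      · simp only [ha, hb, if_false]
        ring
  have h2 : ∀ a, δ a * (f + Pi.single i h : X → ℝ) a = δ a * f a + (if a = i then h * δ i else 0) := by
    intro a
    simp only [Pi.add_apply, Pi.single_apply]
    by_cases ha : a = i
    · subst ha
      simp only [if_true]
      ring
    · simp only [ha, if_false]
      ring
  have h3 : ∀ a, ∑ b, (if a = i then h * (U i b * f b) else 0) =
      if a = i then h * ∑ b, U i b * f b else 0 := by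
    intro a
    by_cases ha : a = i
    · simp [ha, Finset.mul_sum]
    · simp [ha]
  have h4 : ∀ a, ∑ b, (if a = i then (if b = i then h ^ 2 * U i i else 0) else 0) =
      if a = i then h ^ 2 * U i i else 0 := by
    intro a
    by_cases ha : a = i
    · simp [ha]
    · simp [ha]
  unfold viQ
  simp only [h1, h2, Finset.sum_add_distrib, h3, h4]
  simp only [Finset.sum_ite_eq', Finset.mem_univ, if_true]
  rw [← Finset.mul_sum]
  ring

theorem exists_vi (U : X → X → ℝ) (hs : ∀ i j, U i j = U j i) (δ g : X → ℝ)
    (hg : ∀ i, 0 ≤ g i) :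
    ∃ f : X → ℝ, (∀ i, 0 ≤ f i) ∧ (∀ i, f i ≤ g i) ∧
      (∀ i, f i < g i → 2 * δ i ≤ ∑ j, U i j * f j) ∧
      (∀ i, 0 < f i → ∑ j, U i j * f j ≤ 2 * δ i) := by
  classical
  have hcont : Continuous (viQ U δ) := by
    unfold viQ
    fun_prop
  obtain ⟨f, hf, hmin⟩ := (isCompact_Icc (a := (0 : X → ℝ)) (b := g)).exists_isMinOn
    ⟨0, Set.mem_Icc.2 ⟨le_rfl, hg⟩⟩ hcont.continuousOn
  have hf0 : ∀ i, 0 ≤ f i := hf.1
  have hfg : ∀ i, f i ≤ g i := hf.2
  have key : ∀ i h, 0 ≤ f i + h → f i + h ≤ g i →
      0 ≤ h * (2 * (∑ j, U i j * f j - 2 * δ i)) + h ^ 2 * U i i := by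
    intro i h h0 h1
    have hm : f + Pi.single i h ∈ Set.Icc (0 : X → ℝ) g := by
      constructor
      · intro j
        by_cases hj : j = i
        · subst hj; simpa using h0
        · simpa [Pi.single_eq_of_ne hj] using hf0 j
      · intro j
        by_cases hj : j = i
        · subst hj; simpa using h1
        · simpa [Pi.single_eq_of_ne hj] using hfg j
    have := hmin hm
    simp only [Set.mem_ofPred_eq] at this
    rw [viQ_add U hs δ f i h] at this
    linarith
  refine ⟨f, hf0, hfg, fun i hi => ?_, fun i hi => ?_⟩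
  · by_contra hcon
    push Not at hcon
    set D := 2 * δ i - ∑ j, U i j * f j with hD
    have hDpos : 0 < D := by rw [hD]; linarith
    have hE : 0 < g i - f i := by linarith
    obtain ⟨h, hh0, hh1, hh2⟩ : ∃ h : ℝ, 0 < h ∧ h ≤ g i - f i ∧ h * |U i i| < 2 * D := by
      refine ⟨min (g i - f i) (D / (|U i i| + 1)), ?_, min_le_left _ _, ?_⟩
      · exact lt_min hE (by positivity)
      · have h1 : min (g i - f i) (D / (|U i i| + 1)) * |U i i| ≤
            D / (|U i i| + 1) * |U i i| :=
          mul_le_mul_of_nonneg_right (min_le_right _ _) (abs_nonneg _)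
        have h2 : D / (|U i i| + 1) * |U i i| ≤ D := by
          rw [div_mul_eq_mul_div, div_le_iff₀ (by positivity)]
          nlinarith [abs_nonneg (U i i)]
        linarith
    have h3 := key i h (by linarith [hf0 i]) (by linarith)
    have h4 : h * (2 * (∑ j, U i j * f j - 2 * δ i)) + h ^ 2 * U i i =
        h * (h * U i i - 2 * D) := by rw [hD]; ring
    rw [h4] at h3
    have h5 : h * U i i - 2 * D < 0 := by
      have := mul_le_mul_of_nonneg_left (le_abs_self (U i i)) hh0.le
      linarith
    have h6 := mul_neg_of_pos_of_neg hh0 h5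
    linarith
  · by_contra hcon
    push Not at hcon
    set D := ∑ j, U i j * f j - 2 * δ i with hD
    have hDpos : 0 < D := by rw [hD]; linarith
    obtain ⟨h, hh0, hh1, hh2⟩ : ∃ h : ℝ, 0 < h ∧ h ≤ f i ∧ h * |U i i| < 2 * D := by
      refine ⟨min (f i) (D / (|U i i| + 1)), ?_, min_le_left _ _, ?_⟩
      · exact lt_min hi (by positivity)
      · have h1 : min (f i) (D / (|U i i| + 1)) * |U i i| ≤
            D / (|U i i| + 1) * |U i i| :=
          mul_le_mul_of_nonneg_right (min_le_right _ _) (abs_nonneg _)
        have h2 : D / (|U i i| + 1) * |U i i| ≤ D := by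
          rw [div_mul_eq_mul_div, div_le_iff₀ (by positivity)]
          nlinarith [abs_nonneg (U i i)]
        linarith
    have h3 := key i (-h) (by linarith) (by linarith [hfg i])
    have h4 : (-h) * (2 * D) + (-h) ^ 2 * U i i = h * (h * U i i - 2 * D) := by ring
    rw [← hD, h4] at h3
    have h5 : h * U i i - 2 * D < 0 := by
      have := mul_le_mul_of_nonneg_left (le_abs_self (U i i)) hh0.le
      linarith
    have h6 := mul_neg_of_pos_of_neg hh0 h5
    linarith

end LibTri47
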