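import Pool.Agent.LibTri47.Ident
import Pool.Agent.LibTri47.VI

set_option autoImplicit false

/-! # The bonus from fractional deletion of heavy neighbours -/

namespace LibTri47

open Finset

variable {X : Type} [Fintype X]

/-- `R` of the paper proof: here `n = nn w U x`, `v = ms w - a`, `δ = co w U x y - a` -/
noncomputable def Rv (K v n δ : ℝ) : ℝ := 1 + n - v + 2 * δ - K / (K + 2)

/-- the value guaranteed for a heavy pair -/
noncomputable def cval (K v n δ ν Γ : ℝ) : ℝ :=
  min (min 1 (ν / Rv K v n δ) * (δ * (1 + δ - 2 * (K / (K + 2))) + Γ)) (2 * δ * ν)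

/-- `Γ_{xy} = ∫ U(x,.) U(y,.) (1 - n)` -/
noncomputable def Gam (w : X → ℝ) (U : X → X → ℝ) (x y : X) : ℝ :=
  ∑ j, U x j * U y j * w j * (1 - nn w U j)

private theorem dg_nb {w : X → ℝ} {U : X → X → ℝ} (x y : X) :
    dg (nb w U x) U y = co w U x y := by
  unfold dg nb co
  apply sum_congr rfl
  intro j _
  ring

/-- common neighbours of `x` outside the neighbourhoods of `y`, `z` -/
private noncomputable def n00 (w : X → ℝ) (U : X → X → ℝ) (x y z : X) : ℝ :=
  ∑ k, U x k * (1 - U y k) * (1 - U z k) * w k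

private theorem n00_nonneg {w : X → ℝ} {U : X → X → ℝ} (hA : Adm w U) (x y z : X) :
    0 ≤ n00 w U x y z := by
  unfold n00
  apply sum_nonneg
  intro k _
  have h1 := hA.u0 x k
  have h2 := hA.u1 y k
  have h3 := hA.u1 z k
  have h4 := hA.w0 k
  have h5 : 0 ≤ 1 - U y k := by linarith
  have h6 : 0 ≤ 1 - U z k := by linarith
  positivity

private theorem co_nb (w : X → ℝ) (U : X → X → ℝ) (x y z : X) :
    co (nb w U x) U y z = n00 w U x y z + co w U x y + co w U x z - dg w U x := by
  unfold co nb n00 dg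
  rw [← sum_add_distrib, ← sum_add_distrib, ← sum_sub_distrib]
  apply sum_congr rfl
  intro k _
  ring

private theorem tx_nb (w : X → ℝ) (U : X → X → ℝ) (x y : X) :
    tx (nb w U x) U y = ∑ j, U y j * nb w U x j * co (nb w U x) U y j := by
  unfold tx co
  apply sum_congr rfl
  intro j _
  rw [mul_sum]
  apply sum_congr rfl
  intro k _
  ring

/-- the first order effect of deleting `y` from the neighbourhood of `x` -/
private theorem Ey_eq (a : ℝ) (w : X → ℝ) (U : X → X → ℝ) (x y : X) :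
    tx (nb w U x) U y - 2 * (a - 1) * dg (nb w U x) U y + (a - 1) * ((a - 1) + 1) =
      (co w U x y - a) * (1 + (co w U x y - a)) + Gam w U x y +
        ∑ j, U y j * nb w U x j * (nu w U x j + n00 w U x y j) := by
  have hsum : ∑ j, U y j * nb w U x j = co w U x y := by
    unfold nb co
    apply sum_congr rfl
    intro j _
    ring
  have h1 : ∀ j, co (nb w U x) U y j = (co w U x y - a) + (a - 1) + (1 - nn w U j) +
      (nu w U x j + n00 w U x y j) := by
    intro j
    have h2 := nu_eq (w := w) (U := U) x j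
    have h3 := nn_eq (w := w) (U := U) x
    rw [co_nb]
    linarith
  rw [tx_nb, dg_nb]
  have h4 : ∑ j, U y j * nb w U x j * co (nb w U x) U y j =
      ((co w U x y - a) + (a - 1)) * co w U x y + Gam w U x y +
      ∑ j, U y j * nb w U x j * (nu w U x j + n00 w U x y j) := by
    have h5 : Gam w U x y = ∑ j, U y j * nb w U x j * (1 - nn w U j) := by
      unfold Gam nb
      apply sum_congr rfl
      intro j _
      ring
    rw [h5, ← hsum, mul_sum, ← sum_add_distrib, ← sum_add_distrib]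
    apply sum_congr rfl
    intro j _
    rw [h1 j, hsum]
    ring
  rw [h4]
  ring

/-- the local inequality -/
private theorem local_ineq {h f σ ν R δ u P : ℝ} (hh : 0 ≤ h) (hf0 : 0 ≤ f) (hσ : σ = min 1 (ν / R))
    (hR : 0 < R) (hν : 0 ≤ ν) (hδ : 0 < δ) (hfs : f ≤ σ * h) (hu : 0 ≤ u)
    (hl : f < σ * h → 2 * δ ≤ u) :
    h * min (σ * P) (2 * δ * ν) ≤ f * P + u * (h * ν - f * R) := by
  have hσ0 : 0 ≤ σ := by rw [hσ]; exact le_min zero_le_one (div_nonneg hν hR.le)
  have hσR : σ * R ≤ ν := by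
    have h1 : σ ≤ ν / R := by rw [hσ]; exact min_le_right _ _
    calc σ * R ≤ ν / R * R := mul_le_mul_of_nonneg_right h1 hR.le
      _ = ν := by field_simp
  have h2 : f * R ≤ h * ν := by
    calc f * R ≤ σ * h * R := mul_le_mul_of_nonneg_right hfs hR.le
      _ = h * (σ * R) := by ring
      _ ≤ h * ν := mul_le_mul_of_nonneg_left hσR hh
  rcases lt_or_eq_of_le hfs with h3 | h3
  · have hu2 := hl h3
    have hσh : 0 < σ * h := lt_of_le_of_lt hf0 h3
    have h4 : 2 * δ * (h * ν - f * R) ≤ u * (h * ν - f * R) :=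
      mul_le_mul_of_nonneg_right hu2 (by linarith)
    obtain ⟨θ, hθ⟩ : ∃ θ, θ = f / (σ * h) := ⟨_, rfl⟩
    have hθ0 : 0 ≤ θ := by rw [hθ]; exact div_nonneg hf0 hσh.le
    have hθ1 : θ ≤ 1 := by rw [hθ, div_le_one hσh]; exact hfs
    have hfθ : f = θ * (σ * h) := by rw [hθ, div_mul_cancel₀ _ hσh.ne']
    have h5 : f * R ≤ θ * (h * ν) := by
      rw [hfθ]
      calc θ * (σ * h) * R = θ * (h * (σ * R)) := by ring
        _ ≤ θ * (h * ν) := mul_le_mul_of_nonneg_left (mul_le_mul_of_nonneg_left hσR hh) hθ0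
    have h6 : 2 * δ * (h * ν - θ * (h * ν)) ≤ 2 * δ * (h * ν - f * R) :=
      mul_le_mul_of_nonneg_left (by linarith) (by positivity)
    have h7 : h * min (σ * P) (2 * δ * ν) ≤ h * (θ * (σ * P) + (1 - θ) * (2 * δ * ν)) := by
      apply mul_le_mul_of_nonneg_left _ hh
      have h8 : θ * min (σ * P) (2 * δ * ν) ≤ θ * (σ * P) :=
        mul_le_mul_of_nonneg_left (min_le_left _ _) hθ0
      have h9 : (1 - θ) * min (σ * P) (2 * δ * ν) ≤ (1 - θ) * (2 * δ * ν) :=
        mul_le_mul_of_nonneg_left (min_le_right _ _) (by linarith)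
      linarith
    have h10 : h * (θ * (σ * P) + (1 - θ) * (2 * δ * ν)) =
        f * P + 2 * δ * (h * ν - θ * (h * ν)) := by
      rw [hfθ]; ring
    linarith
  · have h4 : 0 ≤ u * (h * ν - f * R) := mul_nonneg hu (by linarith)
    have h5 : h * min (σ * P) (2 * δ * ν) ≤ h * (σ * P) :=
      mul_le_mul_of_nonneg_left (min_le_left _ _) hh
    have h6 : h * (σ * P) = f * P := by rw [h3]; ring
    linarith

theorem bonus {a K : ℝ} (hK : 0 < K) (hK1 : K < 1) (hS : SS X (a - 1))
    {w : X → ℝ} {U : X → X → ℝ} (hA : Adm w U) (hY : Y2 K w U ≤ a) (x : X)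
    (hZ : 0 ≤ Zx a w U x) (hlo : ms w - a - 1 + K / 2 ≤ nn w U x) :
    3 * ∑ y, U x y * w y * (if 0 < co w U x y - a then
        cval K (ms w - a) (nn w U x) (co w U x y - a) (nu w U x y) (Gam w U x y) else 0) ≤
      Ph (a - 1) (nb w U x) U + 3 * (K / (K + 2) * (1 - ∑ z, (1 - U x z) * w z * yy K w U z ^ 2)) *
        Zx a w U x := by
  classical
  obtain ⟨kb, hkb⟩ : ∃ kb, kb = K / (K + 2) := ⟨_, rfl⟩
  have hkb0 : 0 < kb := by rw [hkb]; positivity
  have hkb1 : 2 * kb < K := by
    have h1 : kb * (K + 2) = K := by rw [hkb]; field_simp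
    by_contra h
    push Not at h
    nlinarith
  have hs := hA.sym
  -- the data
  obtain ⟨h, hh⟩ : ∃ h : X → ℝ, h = nb w U x := ⟨_, rfl⟩
  obtain ⟨δ, hδ⟩ : ∃ δ : X → ℝ, δ = fun y => co w U x y - a := ⟨_, rfl⟩
  obtain ⟨ν, hν⟩ : ∃ ν : X → ℝ, ν = fun y => nu w U x y := ⟨_, rfl⟩
  obtain ⟨R, hR⟩ : ∃ R : X → ℝ, R = fun y => Rv K (ms w - a) (nn w U x) (δ y) := ⟨_, rfl⟩
  obtain ⟨σ, hσ⟩ : ∃ σ : X → ℝ, σ = fun y => min 1 (ν y / R y) := ⟨_, rfl⟩
  obtain ⟨g, hg⟩ : ∃ g : X → ℝ, g = fun y => if 0 < δ y then σ y * h y else 0 := ⟨_, rfl⟩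
  have hh0 : ∀ y, 0 ≤ h y := by
    intro y; rw [hh]; exact mul_nonneg (hA.u0 x y) (hA.w0 y)
  have hhw : ∀ y, h y ≤ w y := by
    intro y; rw [hh]
    have h1 := hA.u1 x y
    have h2 := hA.w0 y
    change U x y * w y ≤ w y
    nlinarith
  have hν0 : ∀ y, 0 ≤ ν y := by
    intro y; rw [hν]
    change 0 ≤ ∑ j, (1 - U x j) * (1 - U y j) * w j
    apply sum_nonneg
    intro j _
    have h1 := hA.u1 x j
    have h2 := hA.u1 y j
    have h3 := hA.w0 j
    have h5 : 0 ≤ 1 - U x j := by linarith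
    have h6 : 0 ≤ 1 - U y j := by linarith
    positivity
  have hRe : ∀ y, R y = 1 + nn w U x - (ms w - a) + 2 * δ y - kb := by
    intro y; rw [hR, hkb]; rfl
  have hR0 : ∀ y, 0 < δ y → 0 < R y := by
    intro y hy
    rw [hRe y]
    linarith
  have hσ0 : ∀ y, 0 < δ y → 0 ≤ σ y := by
    intro y hy; rw [hσ]; exact le_min zero_le_one (div_nonneg (hν0 y) (hR0 y hy).le)
  have hg0 : ∀ y, 0 ≤ g y := by
    intro y; rw [hg]
    change 0 ≤ (if 0 < δ y then σ y * h y else 0)
    split_ifs with h1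
    · exact mul_nonneg (hσ0 y h1) (hh0 y)
    · exact le_rfl
  have hgh : ∀ y, g y ≤ h y := by
    intro y; rw [hg]
    change (if 0 < δ y then σ y * h y else 0) ≤ h y
    split_ifs with h1
    · have h2 : σ y ≤ 1 := by rw [hσ]; exact min_le_left _ _
      calc σ y * h y ≤ 1 * h y := mul_le_mul_of_nonneg_right h2 (hh0 y)
        _ = h y := one_mul _
    · exact hh0 y
  obtain ⟨f, hf0, hfg, hfl, hfu⟩ := exists_vi U hs δ g hg0
  obtain ⟨u, hu⟩ : ∃ u : X → ℝ, u = fun y => ∑ j, U y j * f j := ⟨_, rfl⟩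
  have hfh : ∀ y, f y ≤ h y := fun y => (hfg y).trans (hgh y)
  have hu0 : ∀ y, 0 ≤ u y := by
    intro y; rw [hu]; exact sum_nonneg fun j _ => mul_nonneg (hA.u0 y j) (hf0 j)
  -- `Z` does not decrease
  have hdgh : ∀ y, dg h U y = a + δ y := by
    intro y; rw [hh, dg_nb, hδ]; ring
  have hed : ed f U = ∑ y, f y * u y := by
    unfold ed
    rw [hu]
    apply sum_congr rfl
    intro i _
    rw [mul_sum]
    apply sum_congr rfl
    intro j _
    ring
  have hfd : 0 ≤ ∑ y, f y * (2 * δ y - u y) := by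
    apply sum_nonneg
    intro y _
    rcases lt_or_eq_of_le (hf0 y) with h1 | h1
    · have h2 := hfu y h1
      rw [hu]
      apply mul_nonneg (hf0 y)
      change 0 ≤ 2 * δ y - ∑ j, U y j * f j
      linarith
    · rw [← h1]; simp
  have hZr := Zf_removal (a - 1) (w := h) (f := f) hs
  have hZh : Zf (a - 1) h U = Zx a w U x := by rw [hh]; exact Zf_nb a x
  have hZ1 : Zf (a - 1) (h - f) U = Zx a w U x + ∑ y, f y * (2 * δ y - u y) := by
    have h1 : 2 * ∑ y, f y * (a - 1 + 1 - dg h U y) = - ∑ y, f y * (2 * δ y) := by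
      rw [mul_sum, ← sum_neg_distrib]
      apply sum_congr rfl
      intro y _
      rw [hdgh]; ring
    have h2 : ∑ y, f y * (2 * δ y - u y) = ∑ y, f y * (2 * δ y) - ∑ y, f y * u y := by
      rw [← sum_sub_distrib]
      apply sum_congr rfl
      intro y _
      ring
    rw [hZh, h1, hed] at hZr
    rw [h2]
    linarith
  have hZ2 : 0 ≤ Zf (a - 1) (h - f) U := by rw [hZ1]; linarith
  -- the induction hypothesis
  have hAf : Adm (h - f) U := ⟨fun y => by
    change 0 ≤ h y - f y
    linarith [hfh y], hA.sym, hA.u0, hA.u1⟩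
  have hmsf : ms (h - f) - (a - 1) ≤ 2 := by
    have h1 : ms (h - f) ≤ ms h := by
      unfold ms
      apply sum_le_sum
      intro y _
      change h y - f y ≤ h y
      linarith [hf0 y]
    have h2 : ms h = dg w U x := by rw [hh]; exact ms_nb x
    have h3 := nn_eq (w := w) (U := U) x
    linarith
  have hSS := hS (h - f) U K hAf hK hK1 hZ2 hmsf
  obtain ⟨κ, hκ⟩ : ∃ κ, κ = 1 - ∑ z, (1 - U x z) * w z * yy K w U z ^ 2 := ⟨_, rfl⟩
  have hκ1 : κ ≤ 1 := by
    have : 0 ≤ ∑ z, (1 - U x z) * w z * yy K w U z ^ 2 := by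
      apply sum_nonneg
      intro z _
      have h1 : 0 ≤ 1 - U x z := by linarith [hA.u1 x z]
      have h2 := hA.w0 z
      positivity
    linarith
  have hY2 : Y2 K (h - f) U - (a - 1) ≤ κ := by
    have h1 : Y2 K (h - f) U ≤ ∑ z, U x z * w z * yy K w U z ^ 2 := by
      unfold Y2
      apply sum_le_sum
      intro z _
      have h2 : yy K (h - f) U z ≤ yy K w U z := by
        unfold yy
        apply max_le_max le_rfl
        apply div_le_div_of_nonneg_right _ hK.le
        have h3 : nn (h - f) U z ≤ nn w U z := by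
          unfold nn
          apply sum_le_sum
          intro j _
          apply mul_le_mul_of_nonneg_left _ (by linarith [hA.u1 z j])
          change h j - f j ≤ w j
          linarith [hf0 j, hhw j]
        linarith
      have h3 : 0 ≤ yy K (h - f) U z := yy_nonneg _ _ _ _
      have h4 : yy K (h - f) U z ^ 2 ≤ yy K w U z ^ 2 := by
        apply pow_le_pow_left₀ h3 h2
      have h5 : (h - f) z ≤ U x z * w z := by
        have : h z = U x z * w z := by rw [hh]; rfl
        change h z - f z ≤ _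
        rw [← this]; linarith [hf0 z]
      have h6 : 0 ≤ (h - f) z := hAf.w0 z
      exact mul_le_mul h5 h4 (sq_nonneg _) (le_trans h6 h5)
    have h2 : Y2 K w U = ∑ z, U x z * w z * yy K w U z ^ 2 +
        ∑ z, (1 - U x z) * w z * yy K w U z ^ 2 := by
      unfold Y2
      rw [← sum_add_distrib]
      apply sum_congr rfl
      intro z _
      ring
    rw [hκ]
    linarith
  have hSS2 : 0 ≤ Ph (a - 1) (h - f) U + 3 * (kb * κ) * Zf (a - 1) (h - f) U := by
    have h1 : 3 * kb * Zf (a - 1) (h - f) U * (Y2 K (h - f) U - (a - 1)) ≤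
        3 * kb * Zf (a - 1) (h - f) U * κ := by
      apply mul_le_mul_of_nonneg_left hY2
      positivity
    rw [← hkb] at hSS
    linarith
  -- the removal identity
  have hPr := Ph_removal (a - 1) (w := h) (f := f) hs
  have htr : 0 ≤ tr f U := tr_nonneg ⟨hf0, hA.sym, hA.u0, hA.u1⟩
  obtain ⟨n0, hn0⟩ : ∃ n0 : X → X → ℝ, n0 = fun y z => n00 w U x y z := ⟨_, rfl⟩
  have hn00 : ∀ y z, 0 ≤ n0 y z := by
    intro y z; rw [hn0]; exact n00_nonneg hA x y z
  obtain ⟨P, hP⟩ : ∃ P : X → ℝ, P = fun y => δ y * (1 + δ y - 2 * kb) + Gam w U x y := ⟨_, rfl⟩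
  have hE : ∑ y, f y * (tx h U y - 2 * (a - 1) * dg h U y + (a - 1) * (a - 1 + 1)) =
      ∑ y, f y * (P y + 2 * kb * δ y) + ∑ y, u y * (h y * ν y) +
        ∑ y, ∑ j, f y * U y j * h j * n0 y j := by
    have h1 : ∑ y, u y * (h y * ν y) = ∑ y, ∑ j, f y * U y j * h j * ν j := by
      rw [sum_comm, hu]
      apply sum_congr rfl
      intro y _
      rw [sum_mul]
      apply sum_congr rfl
      intro j _
      rw [hs y j]; ring
    rw [h1, ← sum_add_distrib, ← sum_add_distrib]
    apply sum_congr rfl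
    intro y _
    rw [hh, Ey_eq, hP, hδ, hν, hn0, mul_add, mul_sum]
    rw [show ∑ i, f y * (U y i * nb w U x i * (nu w U x i + n00 w U x y i)) =
      ∑ j, f y * U y j * nb w U x j * nu w U x j + ∑ j, f y * U y j * nb w U x j * n00 w U x y j
      from by
        rw [← sum_add_distrib]
        apply sum_congr rfl
        intro j _
        ring]
    ring
  have hC : ∑ y, ∑ z, f y * f z * U y z * (a - 1 - co h U y z) =
      - ∑ y, u y * (f y * (1 + nn w U x - (ms w - a) + 2 * δ y)) -
        ∑ y, ∑ j, f y * U y j * f j * n0 y j := by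
    have h1 : ∀ y z, a - 1 - co h U y z =
        -((1 + nn w U x - (ms w - a)) + δ y + δ z + n0 y z) := by
      intro y z
      have h3 := nn_eq (w := w) (U := U) x
      rw [hh, co_nb, hδ, hn0]
      change a - 1 - (n00 w U x y z + co w U x y + co w U x z - dg w U x) =
        -(1 + nn w U x - (ms w - a) + (co w U x y - a) + (co w U x z - a) + n00 w U x y z)
      linarith
    have h2 : ∑ y, u y * (f y * (1 + nn w U x - (ms w - a) + 2 * δ y)) =
        ∑ y, ∑ z, f y * f z * U y z * ((1 + nn w U x - (ms w - a)) + δ y + δ z) := by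
      have h3 : ∑ y, ∑ z, f y * f z * U y z * δ z = ∑ y, ∑ z, f y * f z * U y z * δ y := by
        rw [sum_comm]
        apply sum_congr rfl
        intro y _
        apply sum_congr rfl
        intro z _
        rw [hs z y]; ring
      have h4 : ∑ y, ∑ z, f y * f z * U y z * ((1 + nn w U x - (ms w - a)) + δ y + δ z) =
          ∑ y, ∑ z, f y * f z * U y z * ((1 + nn w U x - (ms w - a)) + δ y) +
          ∑ y, ∑ z, f y * f z * U y z * δ z := by
        rw [← sum_add_distrib]
        apply sum_congr rfl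
        intro y _
        rw [← sum_add_distrib]
        apply sum_congr rfl
        intro z _
        ring
      rw [h4, h3, ← sum_add_distrib]
      apply sum_congr rfl
      intro y _
      rw [← sum_add_distrib, hu, sum_mul]
      apply sum_congr rfl
      intro z _
      ring
    rw [h2, ← sum_neg_distrib, ← sum_sub_distrib]
    apply sum_congr rfl
    intro y _
    rw [← sum_neg_distrib, ← sum_sub_distrib]
    apply sum_congr rfl
    intro z _
    rw [h1 y z]
    ring
  have hn : ∑ y, ∑ j, f y * U y j * f j * n0 y j ≤ ∑ y, ∑ j, f y * U y j * h j * n0 y j := by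
    apply sum_le_sum
    intro y _
    apply sum_le_sum
    intro j _
    have h1 : 0 ≤ f y * U y j := mul_nonneg (hf0 y) (hA.u0 y j)
    exact mul_le_mul_of_nonneg_right (mul_le_mul_of_nonneg_left (hfh j) h1) (hn00 y j)
  -- the local inequalities
  have hloc : ∑ y, h y * (if 0 < δ y then min (σ y * P y) (2 * δ y * ν y) else 0) ≤
      ∑ y, (f y * P y + u y * (h y * ν y - f y * R y)) := by
    apply sum_le_sum
    intro y _
    split_ifs with h1
    · have hgy : g y = σ y * h y := by rw [hg]; simp [h1]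
      apply local_ineq (hh0 y) (hf0 y) (by rw [hσ]) (hR0 y h1) (hν0 y) h1
        (by rw [← hgy]; exact hfg y) (hu0 y)
      intro h2
      rw [← hgy] at h2
      have := hfl y h2
      rw [hu]; exact this
    · have hgy : g y = 0 := by rw [hg]; simp [h1]
      have hfy : f y = 0 := le_antisymm (by rw [← hgy]; exact hfg y) (hf0 y)
      rw [hfy, mul_zero]
      have : 0 ≤ u y * (h y * ν y) := mul_nonneg (hu0 y) (mul_nonneg (hh0 y) (hν0 y))
      linarith
  have hsumR : ∑ y, (f y * P y + u y * (h y * ν y - f y * R y)) =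
      ∑ y, f y * (P y + 2 * kb * δ y) + ∑ y, u y * (h y * ν y) -
      ∑ y, u y * (f y * (1 + nn w U x - (ms w - a) + 2 * δ y)) -
      kb * ∑ y, f y * (2 * δ y - u y) := by
    rw [mul_sum, ← sum_add_distrib, ← sum_sub_distrib, ← sum_sub_distrib]
    apply sum_congr rfl
    intro y _
    rw [hRe y]
    ring
  have hgoal : ∑ y, U x y * w y * (if 0 < co w U x y - a then
        cval K (ms w - a) (nn w U x) (co w U x y - a) (nu w U x y) (Gam w U x y) else 0) =
      ∑ y, h y * (if 0 < δ y then min (σ y * P y) (2 * δ y * ν y) else 0) := by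
    apply sum_congr rfl
    intro y _
    rw [hh, hδ, hσ, hR, hP, hν, hδ, hkb]
    rfl
  rw [hgoal, ← hkb, ← hκ, ← hh]
  have hkk : kb * κ * ∑ y, f y * (2 * δ y - u y) ≤ kb * ∑ y, f y * (2 * δ y - u y) := by
    apply mul_le_mul_of_nonneg_right _ hfd
    calc kb * κ ≤ kb * 1 := mul_le_mul_of_nonneg_left hκ1 hkb0.le
      _ = kb := mul_one _
  rw [hPr, hE, hC]
  rw [hZ1] at hSS2
  rw [hsumR] at hloc
  linarith

end LibTri47
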