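import Mathlib

set_option autoImplicit false

/-!
# Weighted kernels: the minimal triangle density of nearly regular graphs

Definitions.  `w` are vertex weights, `U` a symmetric kernel with values in `[0, 1]`; the
complementary kernel is `1 - U`.
-/

namespace LibTri47

open Finset

variable {X : Type} [Fintype X]

/-- total mass -/
noncomputable def ms (w : X → ℝ) : ℝ := ∑ i, w i

/-- degree -/
noncomputable def dg (w : X → ℝ) (U : X → X → ℝ) (x : X) : ℝ := ∑ j, U x j * w j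

/-- degree in the complement -/
noncomputable def nn (w : X → ℝ) (U : X → X → ℝ) (x : X) : ℝ := ∑ j, (1 - U x j) * w j

/-- codegree -/
noncomputable def co (w : X → ℝ) (U : X → X → ℝ) (x y : X) : ℝ := ∑ j, U x j * U y j * w j

/-- codegree in the complement -/
noncomputable def nu (w : X → ℝ) (U : X → X → ℝ) (x y : X) : ℝ :=
  ∑ j, (1 - U x j) * (1 - U y j) * w j

/-- twice the number of edges -/
noncomputable def ed (w : X → ℝ) (U : X → X → ℝ) : ℝ := ∑ i, ∑ j, U i j * w i * w j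

/-- six times the number of triangles -/
noncomputable def tr (w : X → ℝ) (U : X → X → ℝ) : ℝ :=
  ∑ i, ∑ j, ∑ k, U i j * U j k * U i k * w i * w j * w k

/-- (ordered) edges in the neighbourhood of `x` -/
noncomputable def tx (w : X → ℝ) (U : X → X → ℝ) (x : X) : ℝ :=
  ∑ j, ∑ k, U x j * U x k * U j k * w j * w k

/-- (ordered) edges between non-neighbours of `x` -/
noncomputable def ex (w : X → ℝ) (U : X → X → ℝ) (x : X) : ℝ :=
  ∑ j, ∑ k, (1 - U x j) * (1 - U x k) * U j k * w j * w k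

noncomputable def Ph (a : ℝ) (w : X → ℝ) (U : X → X → ℝ) : ℝ :=
  tr w U - 3 * a * ed w U + 3 * a * (a + 1) * ms w - a * (a + 1) * (a + 2)

noncomputable def Zf (a : ℝ) (w : X → ℝ) (U : X → X → ℝ) : ℝ :=
  2 * (a + 1) * ms w - (a + 1) * (a + 2) - ed w U

noncomputable def Zx (a : ℝ) (w : X → ℝ) (U : X → X → ℝ) (x : X) : ℝ :=
  2 * a * dg w U x - a * (a + 1) - tx w U x

/-- the normalised excess of the complementary degree -/
noncomputable def yy (K : ℝ) (w : X → ℝ) (U : X → X → ℝ) (x : X) : ℝ :=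
  max 0 ((nn w U x - 1 + K) / K)

noncomputable def Y1 (K : ℝ) (w : X → ℝ) (U : X → X → ℝ) : ℝ := ∑ x, w x * yy K w U x

noncomputable def Y2 (K : ℝ) (w : X → ℝ) (U : X → X → ℝ) : ℝ := ∑ x, w x * yy K w U x ^ 2

/-- weights of the neighbourhood of `x` -/
def nb (w : X → ℝ) (U : X → X → ℝ) (x : X) : X → ℝ := fun j => U x j * w j

/-- weights of the non-neighbourhood of `x` -/
def an (w : X → ℝ) (U : X → X → ℝ) (x : X) : X → ℝ := fun j => (1 - U x j) * w j

/-- admissible weights and kernel -/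
structure Adm (w : X → ℝ) (U : X → X → ℝ) : Prop where
  w0 : ∀ i, 0 ≤ w i
  sym : ∀ i j, U i j = U j i
  u0 : ∀ i j, 0 ≤ U i j
  u1 : ∀ i j, U i j ≤ 1

variable (X) in
/-- Razborov's theorem (for the vertex set `X`, level `a`) -/
def RR (a : ℝ) : Prop :=
  ∀ (w : X → ℝ) (U : X → X → ℝ), Adm w U → Zf a w U = 0 → ms w - a ≤ 2 → 0 ≤ Ph a w U

variable (X) in
/-- the main inequality (for the vertex set `X`, level `a`) -/
def SS (a : ℝ) : Prop :=
  ∀ (w : X → ℝ) (U : X → X → ℝ) (K : ℝ), Adm w U → 0 < K → K < 1 → 0 ≤ Zf a w U →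
    ms w - a ≤ 2 → 0 ≤ Ph a w U + 3 * (K / (K + 2)) * Zf a w U * (Y2 K w U - a)

variable (X) in
/-- the constrained form of the main inequality -/
def SC (a : ℝ) : Prop :=
  ∀ (w : X → ℝ) (U : X → X → ℝ) (K : ℝ), Adm w U → 0 < K → K < 1 → Y2 K w U ≤ a →
    0 ≤ Zf a w U → 0 ≤ Ph a w U

/-- feasible for the Razborov minimisation -/
def FeR (a : ℝ) (w : X → ℝ) (U : X → X → ℝ) : Prop :=
  Adm w U ∧ Zf a w U = 0 ∧ 1 ≤ ms w - a ∧ ms w - a ≤ 2

def MinR (a : ℝ) (w : X → ℝ) (U : X → X → ℝ) : Prop :=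
  FeR a w U ∧ ∀ (w' : X → ℝ) (U' : X → X → ℝ), FeR a w' U' → Ph a w U ≤ Ph a w' U'

/-- feasible for the main minimisation -/
def FeS (a K0 : ℝ) (w : X → ℝ) (U : X → X → ℝ) (K : ℝ) : Prop :=
  Adm w U ∧ K0 ≤ K ∧ K ≤ 1 ∧ Y2 K w U ≤ a ∧ 0 ≤ Zf a w U

def MinS (a K0 : ℝ) (w : X → ℝ) (U : X → X → ℝ) (K : ℝ) : Prop :=
  FeS a K0 w U K ∧ ∀ (w' : X → ℝ) (U' : X → X → ℝ) (K' : ℝ), FeS a K0 w' U' K' →
    Ph a w U ≤ Ph a w' U'

end LibTri47
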