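import Pool.Agent.LibTri47.SMin

set_option autoImplicit false

/-! # First order condition at a minimiser, in direction form -/

namespace LibTri47

open Finset

variable {X : Type} [Fintype X]

/-- `(max 0 t)^2` is differentiable -/
theorem Descent_maxsq (t : ℝ) : HasDerivAt (fun s : ℝ => (max 0 s) ^ 2) (2 * max 0 t) t := by
  rw [hasDerivAt_iff_isLittleO]
  have hb : ∀ s : ℝ, |(max 0 s) ^ 2 - (max 0 t) ^ 2 - (s - t) * (2 * max 0 t)| ≤ |(s - t) ^ 2| := by
    intro s
    rw [abs_of_nonneg (sq_nonneg (s - t)), abs_le]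
    rcases le_total 0 s with hs | hs <;> rcases le_total 0 t with ht | ht
    · rw [max_eq_right hs, max_eq_right ht]
      constructor <;> nlinarith [sq_nonneg (s - t)]
    · rw [max_eq_right hs, max_eq_left ht]
      constructor <;> nlinarith [sq_nonneg (s - t), mul_nonneg hs (neg_nonneg.mpr ht), sq_nonneg s,
        sq_nonneg t]
    · rw [max_eq_left hs, max_eq_right ht]
      constructor <;> nlinarith [sq_nonneg (s - t), mul_nonneg ht (neg_nonneg.mpr hs), sq_nonneg s,
        sq_nonneg t]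
    · rw [max_eq_left hs, max_eq_left ht]
      constructor <;> nlinarith [sq_nonneg (s - t)]
  have h1 : (fun s : ℝ => (max 0 s) ^ 2 - (max 0 t) ^ 2 - (s - t) • (2 * max 0 t)) =O[nhds t]
      (fun s : ℝ => (s - t) ^ 2) := by
    apply Asymptotics.IsBigO.of_bound 1
    refine Filter.Eventually.of_forall fun s => ?_
    rw [one_mul]
    simpa using hb s
  refine h1.trans_isLittleO ?_
  have h2 : (fun h : ℝ => h ^ 2) =o[nhds 0] (fun h : ℝ => h) :=
    Asymptotics.isLittleO_pow_id (𝕜 := ℝ) (n := 2) (by norm_num : 1 < 2)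
  have h3 : Filter.Tendsto (fun s : ℝ => s - t) (nhds t) (nhds 0) := by
    have : Filter.Tendsto (fun s : ℝ => s - t) (nhds t) (nhds (t - t)) :=
      (continuous_id.sub continuous_const).tendsto t
    simpa using this
  exact h2.comp_tendsto h3

/-- derivative of an affine function at zero -/
theorem Descent_aff (p q : ℝ) : HasDerivAt (fun e : ℝ => p + e * q) q 0 := by
  have := ((hasDerivAt_id (0 : ℝ)).mul_const q).const_add p
  simpa using this

/-- derivative of a triple product -/
theorem Descent_d3 {p q r : ℝ → ℝ} {p' q' r' : ℝ} (hp : HasDerivAt p p' 0) (hq : HasDerivAt q q' 0)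
    (hr : HasDerivAt r r' 0) :
    HasDerivAt (fun e => p e * q e * r e) (p' * q 0 * r 0 + p 0 * q' * r 0 + p 0 * q 0 * r') 0 := by
  have := (hp.mul hq).mul hr
  refine this.congr_deriv ?_
  simp only [Pi.mul_apply]
  ring

theorem Descent_ed (w d : X → ℝ) (U E : X → X → ℝ) (hU : ∀ i j, U i j = U j i) :
    HasDerivAt (fun e : ℝ => ed (w + e • d) (U + e • E))
      (2 * ∑ x, d x * dg w U x + ∑ x, ∑ y, E x y * w x * w y) 0 := by
  have h : HasDerivAt (fun e : ℝ => ∑ i, ∑ j, (U i j + e * E i j) * (w i + e * d i) * (w j + e * d j))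
      (∑ i, ∑ j, (E i j * w i * w j + U i j * d i * w j + U i j * w i * d j)) 0 := by
    apply HasDerivAt.fun_sum
    intro i _
    apply HasDerivAt.fun_sum
    intro j _
    have := Descent_d3 (Descent_aff (U i j) (E i j)) (Descent_aff (w i) (d i))
      (Descent_aff (w j) (d j))
    simpa using this
  have hf : (fun e : ℝ => ed (w + e • d) (U + e • E)) =
      fun e : ℝ => ∑ i, ∑ j, (U i j + e * E i j) * (w i + e * d i) * (w j + e * d j) := by
    funext e
    simp only [ed, Pi.add_apply, Pi.smul_apply, smul_eq_mul]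
  rw [hf]
  refine h.congr_deriv ?_
  simp only [Finset.sum_add_distrib]
  have e1 : ∑ i, ∑ j, U i j * d i * w j = ∑ x, d x * dg w U x := by
    apply Finset.sum_congr rfl; intro i _
    rw [dg, Finset.mul_sum]
    apply Finset.sum_congr rfl; intro j _
    ring
  have e2 : ∑ i, ∑ j, U i j * w i * d j = ∑ x, d x * dg w U x := by
    rw [Finset.sum_comm]
    apply Finset.sum_congr rfl; intro i _
    rw [dg, Finset.mul_sum]
    apply Finset.sum_congr rfl; intro j _
    rw [hU j i]
    ring
  rw [e1, e2]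
  ring

theorem Descent_tr (w d : X → ℝ) (U E : X → X → ℝ) (hU : ∀ i j, U i j = U j i)
    (hE : ∀ i j, E i j = E j i) :
    HasDerivAt (fun e : ℝ => tr (w + e • d) (U + e • E))
      (3 * ∑ x, d x * tx w U x + 3 * ∑ x, ∑ y, E x y * co w U x y * w x * w y) 0 := by
  have h : HasDerivAt (fun e : ℝ => ∑ i, ∑ j, ∑ k,
      ((U i j + e * E i j) * (U j k + e * E j k) * (U i k + e * E i k)) *
      ((w i + e * d i) * (w j + e * d j) * (w k + e * d k)))
      (∑ i, ∑ j, ∑ k, ((E i j * U j k * U i k + U i j * E j k * U i k + U i j * U j k * E i k) *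
        (w i * w j * w k) + (U i j * U j k * U i k) * (d i * w j * w k + w i * d j * w k +
          w i * w j * d k))) 0 := by
    apply HasDerivAt.fun_sum
    intro i _
    apply HasDerivAt.fun_sum
    intro j _
    apply HasDerivAt.fun_sum
    intro k _
    have h1 := Descent_d3 (Descent_aff (U i j) (E i j)) (Descent_aff (U j k) (E j k))
      (Descent_aff (U i k) (E i k))
    have h2 := Descent_d3 (Descent_aff (w i) (d i)) (Descent_aff (w j) (d j))
      (Descent_aff (w k) (d k))
    have := h1.mul h2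
    refine (this.congr_deriv ?_)
    simp
  have hf : (fun e : ℝ => tr (w + e • d) (U + e • E)) =
      fun e : ℝ => ∑ i, ∑ j, ∑ k,
      ((U i j + e * E i j) * (U j k + e * E j k) * (U i k + e * E i k)) *
      ((w i + e * d i) * (w j + e * d j) * (w k + e * d k)) := by
    funext e
    simp only [tr, Pi.add_apply, Pi.smul_apply, smul_eq_mul]
    apply Finset.sum_congr rfl; intro i _
    apply Finset.sum_congr rfl; intro j _
    apply Finset.sum_congr rfl; intro k _
    ring
  rw [hf]
  refine h.congr_deriv ?_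
  have hsplit : ∑ i, ∑ j, ∑ k, ((E i j * U j k * U i k + U i j * E j k * U i k + U i j * U j k * E i k) *
        (w i * w j * w k) + (U i j * U j k * U i k) * (d i * w j * w k + w i * d j * w k +
          w i * w j * d k)) =
      ∑ i, ∑ j, ∑ k, E i j * (U i k * U j k * w k) * w i * w j +
      ∑ i, ∑ j, ∑ k, E j k * (U j i * U k i * w i) * w j * w k +
      ∑ i, ∑ j, ∑ k, E i k * (U i j * U k j * w j) * w i * w k +
      ∑ i, ∑ j, ∑ k, d i * (U i j * U i k * U j k * w j * w k) +
      ∑ i, ∑ j, ∑ k, d j * (U j i * U j k * U i k * w i * w k) +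
      ∑ i, ∑ j, ∑ k, d k * (U k i * U k j * U i j * w i * w j) := by
    simp only [← Finset.sum_add_distrib]
    apply Finset.sum_congr rfl; intro i _
    apply Finset.sum_congr rfl; intro j _
    apply Finset.sum_congr rfl; intro k _
    rw [hU j i, hU k i, hU k j]
    ring
  rw [hsplit]
  have t1 : ∑ i, ∑ j, ∑ k, E i j * (U i k * U j k * w k) * w i * w j =
      ∑ x, ∑ y, E x y * co w U x y * w x * w y := by
    apply Finset.sum_congr rfl; intro i _
    apply Finset.sum_congr rfl; intro j _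
    rw [co, Finset.mul_sum, Finset.sum_mul, Finset.sum_mul]
  have t2 : ∑ i, ∑ j, ∑ k, E j k * (U j i * U k i * w i) * w j * w k =
      ∑ x, ∑ y, E x y * co w U x y * w x * w y := by
    rw [Finset.sum_comm]
    rw [← t1]
    apply Finset.sum_congr rfl; intro j _
    rw [Finset.sum_comm]
  have t3 : ∑ i, ∑ j, ∑ k, E i k * (U i j * U k j * w j) * w i * w k =
      ∑ x, ∑ y, E x y * co w U x y * w x * w y := by
    rw [← t1]
    apply Finset.sum_congr rfl; intro i _
    rw [Finset.sum_comm]
  have s1 : ∑ i, ∑ j, ∑ k, d i * (U i j * U i k * U j k * w j * w k) = ∑ x, d x * tx w U x := by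
    apply Finset.sum_congr rfl; intro i _
    rw [tx, Finset.mul_sum]
    apply Finset.sum_congr rfl; intro j _
    rw [Finset.mul_sum]
  have s2 : ∑ i, ∑ j, ∑ k, d j * (U j i * U j k * U i k * w i * w k) = ∑ x, d x * tx w U x := by
    rw [Finset.sum_comm]
    exact s1
  have s3 : ∑ i, ∑ j, ∑ k, d k * (U k i * U k j * U i j * w i * w j) = ∑ x, d x * tx w U x := by
    rw [← s1]
    calc ∑ i, ∑ j, ∑ k, d k * (U k i * U k j * U i j * w i * w j)
        = ∑ i, ∑ k, ∑ j, d k * (U k i * U k j * U i j * w i * w j) := by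
          apply Finset.sum_congr rfl; intro i _
          rw [Finset.sum_comm]
      _ = ∑ k, ∑ i, ∑ j, d k * (U k i * U k j * U i j * w i * w j) := by
          rw [Finset.sum_comm]
  rw [t1, t2, t3, s1, s2, s3]
  ring

theorem Descent_ms (w d : X → ℝ) : HasDerivAt (fun e : ℝ => ms (w + e • d)) (∑ x, d x) 0 := by
  have h : HasDerivAt (fun e : ℝ => ∑ i, (w i + e * d i)) (∑ i, d i) 0 := by
    apply HasDerivAt.fun_sum
    intro i _
    exact Descent_aff _ _
  have hf : (fun e : ℝ => ms (w + e • d)) = fun e : ℝ => ∑ i, (w i + e * d i) := by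
    funext e
    simp only [ms, Pi.add_apply, Pi.smul_apply, smul_eq_mul]
  rw [hf]
  exact h

theorem Descent_Ph (a : ℝ) (w d : X → ℝ) (U E : X → X → ℝ) (hU : ∀ i j, U i j = U j i)
    (hE : ∀ i j, E i j = E j i) :
    HasDerivAt (fun e : ℝ => Ph a (w + e • d) (U + e • E))
      (-3 * ∑ x, d x * Zx a w U x + 3 * ∑ x, ∑ y, E x y * (co w U x y - a) * w x * w y) 0 := by
  have h1 := Descent_tr w d U E hU hE
  have h2 := Descent_ed w d U E hU
  have h3 := Descent_ms w d
  have h := ((h1.sub (h2.const_mul (3 * a))).add (h3.const_mul (3 * a * (a + 1)))).sub_const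
    (a * (a + 1) * (a + 2))
  have hf : (fun e : ℝ => Ph a (w + e • d) (U + e • E)) =
      fun e : ℝ => tr (w + e • d) (U + e • E) - 3 * a * ed (w + e • d) (U + e • E) +
        3 * a * (a + 1) * ms (w + e • d) - a * (a + 1) * (a + 2) := by
    funext e
    rfl
  rw [hf]
  refine h.congr_deriv ?_
  have e1 : ∑ x, ∑ y, E x y * (co w U x y - a) * w x * w y =
      ∑ x, ∑ y, E x y * co w U x y * w x * w y - a * ∑ x, ∑ y, E x y * w x * w y := by
    rw [Finset.mul_sum, ← Finset.sum_sub_distrib]
    apply Finset.sum_congr rfl; intro x _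
    rw [Finset.mul_sum, ← Finset.sum_sub_distrib]
    apply Finset.sum_congr rfl; intro y _
    ring
  have e2 : ∑ x, d x * Zx a w U x = 2 * a * ∑ x, d x * dg w U x - a * (a + 1) * ∑ x, d x -
      ∑ x, d x * tx w U x := by
    rw [Finset.mul_sum, Finset.mul_sum, ← Finset.sum_sub_distrib, ← Finset.sum_sub_distrib]
    apply Finset.sum_congr rfl; intro x _
    rw [Zx]
    ring
  rw [e1, e2]
  ring

theorem Descent_Zf_cont (a : ℝ) (w d : X → ℝ) (U E : X → X → ℝ) (hU : ∀ i j, U i j = U j i) :
    ContinuousAt (fun e : ℝ => Zf a (w + e • d) (U + e • E)) 0 := by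
  have h2 := (Descent_ed w d U E hU).continuousAt
  have h3 := (Descent_ms w d).continuousAt
  have := ((h3.const_mul (2 * (a + 1))).sub (continuousAt_const (y := (a + 1) * (a + 2)))).sub h2
  exact this

theorem Descent_nn (w d : X → ℝ) (U E : X → X → ℝ) (x : X) :
    HasDerivAt (fun e : ℝ => nn (w + e • d) (U + e • E) x)
      (∑ j, ((1 - U x j) * d j - E x j * w j)) 0 := by
  have h : HasDerivAt (fun e : ℝ => ∑ j, (1 - (U x j + e * E x j)) * (w j + e * d j))
      (∑ j, ((1 - U x j) * d j - E x j * w j)) 0 := by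
    apply HasDerivAt.fun_sum
    intro j _
    have := ((Descent_aff (U x j) (E x j)).const_sub 1).mul (Descent_aff (w j) (d j))
    refine this.congr_deriv ?_
    simp
    ring
  have hf : (fun e : ℝ => nn (w + e • d) (U + e • E) x) =
      fun e : ℝ => ∑ j, (1 - (U x j + e * E x j)) * (w j + e * d j) := by
    funext e
    simp only [nn, Pi.add_apply, Pi.smul_apply, smul_eq_mul]
  rw [hf]
  exact h

theorem Descent_Y2 {K k : ℝ} (hK : 0 < K) (w d : X → ℝ) (U E : X → X → ℝ) :
    HasDerivAt (fun e : ℝ => Y2 (K + e * k) (w + e • d) (U + e • E))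
      (∑ x, d x * yy K w U x ^ 2 + 2 / K * ∑ x, w x * yy K w U x *
      ∑ j, ((1 - U x j) * d j - E x j * w j) + k * (2 / K * (Y1 K w U - Y2 K w U))) 0 := by
  -- derivative of the square of yy
  have hy : ∀ x, HasDerivAt (fun e : ℝ => yy (K + e * k) (w + e • d) (U + e • E) x ^ 2)
      (2 / K * yy K w U x * (∑ j, ((1 - U x j) * d j - E x j * w j)) +
        k * (2 / K * (yy K w U x - yy K w U x ^ 2))) 0 := by
    intro x
    set D : ℝ := ∑ j, ((1 - U x j) * d j - E x j * w j) with hD
    have h1 : HasDerivAt (fun e : ℝ => (nn (w + e • d) (U + e • E) x - 1 + (K + e * k)) / (K + e * k))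
        (((D + k) * K - (nn w U x - 1 + K) * k) / K ^ 2) 0 := by
      have hn := ((Descent_nn w d U E x).sub_const 1).add (Descent_aff K k)
      have hd := hn.div (Descent_aff K k) (by simpa using hK.ne')
      refine hd.congr_deriv ?_
      simp [hD]
    have h2 := (Descent_maxsq ((nn w U x - 1 + K) / K))
    have h3 : HasDerivAt (fun s : ℝ => (max 0 s) ^ 2) (2 * max 0 ((nn w U x - 1 + K) / K))
        ((fun e : ℝ => (nn (w + e • d) (U + e • E) x - 1 + (K + e * k)) / (K + e * k)) 0) := by
      simpa using h2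
    have h4 := h3.comp (0 : ℝ) h1
    refine (h4.congr_deriv ?_)
    have hyd : yy K w U x = max 0 ((nn w U x - 1 + K) / K) := rfl
    rw [← hyd]
    have hsq : yy K w U x * ((nn w U x - 1 + K) / K) = yy K w U x ^ 2 := by
      rw [hyd]
      rcases le_total 0 ((nn w U x - 1 + K) / K) with h | h
      · rw [max_eq_right h]; ring
      · rw [max_eq_left h]; ring
    calc 2 * yy K w U x * (((D + k) * K - (nn w U x - 1 + K) * k) / K ^ 2)
        = 2 / K * yy K w U x * D + k * (2 / K * (yy K w U x - yy K w U x * ((nn w U x - 1 + K) / K))) := by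
          field_simp
          ring
      _ = _ := by rw [hsq]
  have h : HasDerivAt (fun e : ℝ => ∑ x, (w x + e * d x) *
      yy (K + e * k) (w + e • d) (U + e • E) x ^ 2)
      (∑ x, (d x * yy K w U x ^ 2 + w x * (2 / K * yy K w U x *
        (∑ j, ((1 - U x j) * d j - E x j * w j)) +
        k * (2 / K * (yy K w U x - yy K w U x ^ 2))))) 0 := by
    apply HasDerivAt.fun_sum
    intro x _
    have := (Descent_aff (w x) (d x)).mul (hy x)
    refine this.congr_deriv ?_
    simp
  have hf : (fun e : ℝ => Y2 (K + e * k) (w + e • d) (U + e • E)) =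
      fun e : ℝ => ∑ x, (w x + e * d x) * yy (K + e * k) (w + e • d) (U + e • E) x ^ 2 := by
    funext e
    simp only [Y2, Pi.add_apply, Pi.smul_apply, smul_eq_mul]
  rw [hf]
  refine h.congr_deriv ?_
  rw [Finset.sum_add_distrib, add_assoc]
  congr 1
  rw [Y1, Y2, Finset.mul_sum, ← Finset.sum_sub_distrib, Finset.mul_sum, Finset.mul_sum,
    ← Finset.sum_add_distrib]
  apply Finset.sum_congr rfl; intro x _
  ring

/-- No descent direction: a direction `(d, E, k)` that keeps weights, kernel and `K` admissible for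
a short time and decreases `Y2` at first order cannot decrease `Ph` at first order. -/
theorem descent {a K0 : ℝ} (ha : 1 ≤ a) (hK0 : 0 < K0) {w : X → ℝ} {U : X → X → ℝ} {K : ℝ}
    (h : MinS a K0 w U K) (hZ : 0 < Zf a w U) {d : X → ℝ} {E : X → X → ℝ} {k : ℝ}
    (hE : ∀ i j, E i j = E j i)
    (hadm : ∃ e0 : ℝ, 0 < e0 ∧ ∀ e : ℝ, 0 ≤ e → e ≤ e0 →
      Adm (w + e • d) (U + e • E) ∧ K0 ≤ K + e * k ∧ K + e * k ≤ 1)
    (hdS : Y2 K w U < a ∨ ∑ x, d x * yy K w U x ^ 2 + 2 / K * ∑ x, w x * yy K w U x *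
      ∑ j, ((1 - U x j) * d j - E x j * w j) + k * (2 / K * (Y1 K w U - Y2 K w U)) < 0) :
    0 ≤ -3 * ∑ x, d x * Zx a w U x + 3 * ∑ x, ∑ y, E x y * (co w U x y - a) * w x * w y := by
  by_contra hcon
  push Not at hcon
  obtain ⟨e0, he0, hadm⟩ := hadm
  obtain ⟨⟨hA, hKK, hK1, hY, hZ0⟩, hmin⟩ := h
  have hK : 0 < K := lt_of_lt_of_le hK0 hKK
  have w0 : w + (0 : ℝ) • d = w := by simp
  have U0 : U + (0 : ℝ) • E = U := by simp
  -- derivative negative implies values smaller on the right
  have key : ∀ (f : ℝ → ℝ) (f' : ℝ), HasDerivAt f f' 0 → f' < 0 →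
      ∀ᶠ e in nhdsWithin (0 : ℝ) (Set.Ioi 0), f e < f 0 := by
    intro f f' hf hf'
    have hs := (hasDerivAt_iff_tendsto_slope.mp hf)
    have hs2 : Filter.Tendsto (slope f 0) (nhdsWithin (0 : ℝ) (Set.Ioi 0)) (nhds f') := by
      refine hs.mono_left (nhdsWithin_mono _ ?_)
      intro x hx
      exact ne_of_gt hx
    have h1 := hs2.eventually (gt_mem_nhds hf')
    filter_upwards [h1, self_mem_nhdsWithin] with e he hpos
    rw [slope_def_field] at he
    have hpos' : (0 : ℝ) < e := hpos
    have : (f e - f 0) / (e - 0) < 0 := he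
    rw [sub_zero, div_lt_iff₀ hpos'] at this
    linarith
  have hPh := key _ _ (Descent_Ph a w d U E hA.sym hE) hcon
  have hZev : ∀ᶠ e in nhdsWithin (0 : ℝ) (Set.Ioi 0), 0 < Zf a (w + e • d) (U + e • E) := by
    have hc := (Descent_Zf_cont a w d U E hA.sym).tendsto
    have h1 := hc.eventually (lt_mem_nhds (show 0 < Zf a (w + (0 : ℝ) • d) (U + (0 : ℝ) • E) by
      rw [w0, U0]; exact hZ))
    exact h1.filter_mono nhdsWithin_le_nhds
  have hYev : ∀ᶠ e in nhdsWithin (0 : ℝ) (Set.Ioi 0),
      Y2 (K + e * k) (w + e • d) (U + e • E) ≤ a := by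
    have hd := Descent_Y2 (k := k) hK w d U E
    rcases hdS with hlt | hneg
    · have h1 := hd.continuousAt.tendsto.eventually (gt_mem_nhds
        (show Y2 (K + 0 * k) (w + (0 : ℝ) • d) (U + (0 : ℝ) • E) < a by
          rw [w0, U0, zero_mul, add_zero]; exact hlt))
      exact (h1.filter_mono nhdsWithin_le_nhds).mono fun e he => he.le
    · refine (key _ _ hd hneg).mono fun e he => ?_
      simp only [w0, U0, zero_mul, add_zero] at he
      linarith
  have hsmall : ∀ᶠ e in nhdsWithin (0 : ℝ) (Set.Ioi 0), e ≤ e0 := by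
    have : ∀ᶠ e in nhds (0 : ℝ), e < e0 := gt_mem_nhds he0
    exact (this.filter_mono nhdsWithin_le_nhds).mono fun e he => he.le
  obtain ⟨e, ⟨⟨⟨⟨h1, h2⟩, h3⟩, h4⟩, h5⟩⟩ :=
    ((((hPh.and hZev).and hYev).and hsmall).and self_mem_nhdsWithin).exists
  have h5' : (0 : ℝ) < e := h5
  obtain ⟨g1, g2, g3⟩ := hadm e h5'.le h4
  have := hmin _ _ _ ⟨g1, g2, g3, h3, h2.le⟩
  simp only [w0, U0] at h1
  linarith

end LibTri47
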