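import Pool.Agent.LibTri47.StepT

set_option autoImplicit false

/-! # The near regular sheet: extremal step graphons -/

namespace LibTri47

open Finset LibProf47

/-- general family: `kk p - 1` cliques of size `c` and, on the remaining mass `m`, two cliques of
sizes `x`, `m - x` joined with density `1 - θ`. -/
theorem near_family {p c m x θ : ℝ} {a : ℕ} (hc : 0 ≤ c) (hm : a * c + m = 1) (hx0 : 0 ≤ x)
    (hxm : x ≤ m) (hθ0 : 0 ≤ θ) (hθ1 : θ ≤ 1)
    (hp : p = a * c ^ 2 + m ^ 2 - 2 * θ * x * (m - x)) :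
    StepPt p (a * c ^ 3 + m ^ 3 - 4 * m * θ * x * (m - x) + θ ^ 2 * x * (m - x) * m)
      (a * c ^ 3 + x ^ 3 + (m - x) ^ 3 + 3 * x * (m - x) * m * (1 - θ) ^ 2) := by
  refine ⟨a + 2, Fin.cons (Fin.cons 1 (Fin.cons (1 - θ) (fun _ => 0)))
    (Fin.cons (Fin.cons (1 - θ) (Fin.cons 1 (fun _ => 0)))
      (fun i => Fin.cons 0 (Fin.cons 0 (fun j => if i = j then 1 else 0)))),
    Fin.cons x (Fin.cons (m - x) (fun _ => c)), ?_, ?_, ?_, ?_, ?_, ?_, ?_⟩
  · intro i j
    refine Fin.cases ?_ (fun i => ?_) i <;> refine Fin.cases ?_ (fun j => ?_) j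
    · simp
    · refine Fin.cases ?_ (fun j => ?_) j <;> simp [hθ0, hθ1]
    · refine Fin.cases ?_ (fun i => ?_) i <;> simp [hθ0, hθ1]
    · refine Fin.cases ?_ (fun i => ?_) i <;> refine Fin.cases ?_ (fun j => ?_) j
      · simp
      · simp
      · simp
      · simp only [Fin.cons_succ]
        split_ifs <;> norm_num
  · intro i j
    refine Fin.cases ?_ (fun i => ?_) i <;> refine Fin.cases ?_ (fun j => ?_) j
    · simp
    · refine Fin.cases ?_ (fun j => ?_) j <;> simp
    · refine Fin.cases ?_ (fun i => ?_) i <;> simp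
    · refine Fin.cases ?_ (fun i => ?_) i <;> refine Fin.cases ?_ (fun j => ?_) j
      · simp
      · simp
      · simp
      · simp only [Fin.cons_succ]
        congr 1
        exact propext eq_comm
  · intro i
    refine Fin.cases ?_ (fun i => ?_) i
    · simpa using hx0
    · refine Fin.cases ?_ (fun i => ?_) i
      · simpa using hxm
      · simpa using hc
  · rw [Fin.sum_univ_succ, Fin.sum_univ_succ]
    simp
    linarith
  · simp only [Fin.sum_univ_succ, Fin.cons_zero, Fin.cons_succ, mul_zero, mul_one, Finset.sum_const_zero,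
      mul_ite, Finset.sum_ite_eq, Finset.mem_univ, if_true, add_zero, zero_add, Finset.sum_const,
      Finset.card_univ, Fintype.card_fin, nsmul_eq_mul]
    rw [hp]
    ring
  · simp only [Fin.sum_univ_succ, Fin.cons_zero, Fin.cons_succ, mul_zero, mul_one, Finset.sum_const_zero,
      mul_ite, Finset.sum_ite_eq, Finset.mem_univ, if_true, add_zero, zero_add, Finset.sum_const,
      Finset.card_univ, Fintype.card_fin, nsmul_eq_mul]
    ring
  · simp only [Fin.sum_univ_succ, Fin.cons_zero, Fin.cons_succ, mul_zero, zero_mul, mul_one, one_mul, Finset.sum_const_zero,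
      mul_ite, ite_mul, Finset.sum_ite_eq, Finset.mem_univ, if_true, add_zero, zero_add, Finset.sum_const,
      Finset.card_univ, Fintype.card_fin, nsmul_eq_mul]
    ring

/-- a member of the family with given `x (m - x) = y` -/
private theorem near_ext_pt {p q c y θ : ℝ} {a : ℕ} (hc : 0 ≤ c) (hm0 : 0 ≤ 1 - a * c)
    (hy0 : 0 ≤ y) (hy : 4 * y ≤ (1 - a * c) ^ 2) (hθ0 : 0 ≤ θ) (hθ1 : θ ≤ 1)
    (ha : (a : ℝ) = (kk p : ℝ) - 1)
    (hp : p = a * c ^ 2 + (1 - a * c) ^ 2 - 2 * θ * y)
    (hq : q = a * c ^ 3 + (1 - a * c) ^ 3 - 4 * (1 - a * c) * θ * y +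
      θ ^ 2 * y * (1 - a * c)) : StepPt p q (Tc p q c) := by
  set m : ℝ := 1 - a * c with hm
  set s := √(m ^ 2 - 4 * y) with hs
  have hs0 : 0 ≤ s := Real.sqrt_nonneg _
  have hs2 : s ^ 2 = m ^ 2 - 4 * y := Real.sq_sqrt (by linarith)
  have hsm : s ≤ m := by
    have : s ^ 2 ≤ m ^ 2 := by rw [hs2]; linarith
    exact le_of_sq_le_sq this hm0
  have hxy : (m - s) / 2 * (m - (m - s) / 2) = y := by
    have : (m - s) / 2 * (m - (m - s) / 2) = (m ^ 2 - s ^ 2) / 4 := by ring
    rw [this, hs2]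
    ring
  have h := near_family (p := p) (c := c) (m := m) (x := (m - s) / 2) (θ := θ) (a := a) hc
    (by rw [hm]; ring) (by linarith) (by linarith) hθ0 hθ1
    (by rw [mul_assoc (2 * θ), hxy]; exact hp)
  have e1 : a * c ^ 3 + m ^ 3 - 4 * m * θ * ((m - s) / 2) * (m - (m - s) / 2) +
      θ ^ 2 * ((m - s) / 2) * (m - (m - s) / 2) * m = q := by
    rw [hq, mul_assoc (4 * m * θ), mul_assoc (θ ^ 2), hxy]
  have e2 : a * c ^ 3 + ((m - s) / 2) ^ 3 + (m - (m - s) / 2) ^ 3 +
      3 * ((m - s) / 2) * (m - (m - s) / 2) * m * (1 - θ) ^ 2 = Tc p q c := by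
    have e3 : a * c ^ 3 + ((m - s) / 2) ^ 3 + (m - (m - s) / 2) ^ 3 +
        3 * ((m - s) / 2) * (m - (m - s) / 2) * m * (1 - θ) ^ 2 =
        a * c ^ 3 + m ^ 3 - 3 * m * ((m - s) / 2 * (m - (m - s) / 2)) * (1 - (1 - θ) ^ 2) := by
      ring
    rw [e3, hxy, Tc, ← ha, hq]
    have e4 : (kk p : ℝ) = a + 1 := by linarith
    rw [e4]
    have e5 : θ * y = (a * c ^ 2 + m ^ 2 - p) / 2 := by linarith
    have e6 : a * c ^ 3 + m ^ 3 - 3 * m * y * (1 - (1 - θ) ^ 2) =
        a * c ^ 3 + m ^ 3 - 6 * m * (θ * y) + 3 * m * θ * (θ * y) := by ring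
    have e7 : a * c ^ 3 + m ^ 3 - 4 * m * θ * y + θ ^ 2 * y * m =
        a * c ^ 3 + m ^ 3 - 4 * m * (θ * y) + m * θ * (θ * y) := by ring
    rw [e6, e7, e5, hm]
    ring
  rw [e1, e2] at h
  exact h

/-- the extremal step graphons -/
theorem near_ext {p q : ℝ} (hp0 : 0 < p) (hp : p ≤ 1 / 2) (hq1 : p ^ 2 ≤ q) (hq2 : q ≤ hh p)
    {c : ℝ} (hc : IsLeast (Cset p q) c) : StepPt p q (Tc p q c) := by
  obtain ⟨h1, h2, h3, -, h5⟩ := cc_facts (p := p) hp0 (by linarith)
  obtain ⟨a, ha⟩ : ∃ a : ℕ, kk p = a + 1 := ⟨kk p - 1, by omega⟩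
  have hle : (kk p : ℝ) ≤ 1 / p := Nat.floor_le (by positivity)
  have hlt : 1 / p < kk p + 1 := Nat.lt_floor_add_one _
  have hkp : kk p * p ≤ 1 := by
    rw [le_div_iff₀ hp0] at hle
    exact hle
  have hkp' : 1 < (kk p + 1) * p := by
    rw [div_lt_iff₀ hp0] at hlt
    exact hlt
  have hh' : hh p = kk p * cc p ^ 3 + (1 - kk p * cc p) ^ 3 := rfl
  have haR : (kk p : ℝ) = a + 1 := by rw [ha]; push_cast; ring
  have ha' : (a : ℝ) = (kk p : ℝ) - 1 := by linarith
  have ha0 : (0 : ℝ) ≤ a := Nat.cast_nonneg a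
  rw [haR] at hkp hkp' h2 h3 h5 hh'
  set C := cc p with hC
  set r := 1 - ((a : ℝ) + 1) * C with hr
  obtain ⟨⟨hpc, hcC, hcase⟩, hleast⟩ := hc
  have hc0 : 0 < c := by linarith
  have hC0 : 0 < C := by linarith
  have hmC : 1 - a * C = C + r := by rw [hr]; ring
  have hacC : a * c ≤ a * C := mul_le_mul_of_nonneg_left hcC ha0
  have hm : 0 < 1 - a * c := by linarith
  set f : ℝ → ℝ := fun c => a * c * (c - p) ^ 2 - (q - p ^ 2) * (1 - a * c) with hf
  have hfc : Continuous f := by
    rw [hf]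
    fun_prop
  have hmem : ∀ z, p ≤ z → z ≤ C → 0 ≤ f z → c ≤ z := by
    intro z hz1 hz2 hz3
    apply hleast
    refine ⟨hz1, hz2, Or.inr ?_⟩
    rw [← ha']
    simp only [hf] at hz3
    linarith
  -- `f c ≤ 0`
  have hfle : f c ≤ 0 := by
    by_contra hcon
    push Not at hcon
    have hfp : f p ≤ 0 := by
      simp only [hf]
      have : 0 ≤ (q - p ^ 2) * (1 - a * p) := mul_nonneg (by linarith) (by nlinarith)
      nlinarith
    obtain ⟨z, hz, hz0⟩ := intermediate_value_Icc hpc hfc.continuousOn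
      (show (0 : ℝ) ∈ Set.Icc (f p) (f c) from ⟨hfp, hcon.le⟩)
    have h6 := hmem z hz.1 (hz.2.trans hcC) hz0.ge
    have h7 : z = c := le_antisymm hz.2 h6
    rw [h7] at hz0
    linarith
  have key1 : a * c ^ 2 + (1 - a * c) ^ 2 / 2 ≤ p := by
    -- convexity
    have e1 : 2 * a * p ^ 2 + (1 - a * p) ^ 2 ≤ 2 * p := by
      nlinarith [mul_nonneg (by nlinarith : (0:ℝ) ≤ 1 - a * p) (by linarith : (0:ℝ) ≤ (a + 1 + 1) * p - 1)]
    have e2 : 2 * a * C ^ 2 + (1 - a * C) ^ 2 ≤ 2 * p := by
      rw [hmC, ← h5]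
      nlinarith [sq_nonneg (C - r)]
    rcases eq_or_lt_of_le (hpc.trans hcC) with h | h
    · have : c = p := le_antisymm (by linarith) hpc
      rw [this]
      linarith
    · have h6 : 0 < C - p := by linarith
      have h7 : (2 * a * c ^ 2 + (1 - a * c) ^ 2) * (C - p) ≤ 2 * p * (C - p) := by
        have h8 := mul_le_mul_of_nonneg_right e1 (by linarith : (0:ℝ) ≤ C - c)
        have h9 := mul_le_mul_of_nonneg_right e2 (by linarith : (0:ℝ) ≤ c - p)
        have h10 : 0 ≤ (2 * a + a ^ 2) * ((C - c) * (c - p) * (C - p)) := by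
          apply mul_nonneg (by positivity)
          exact mul_nonneg (mul_nonneg (by linarith) (by linarith)) h6.le
        nlinarith
      have h8 := le_of_mul_le_mul_right h7 h6
      linarith
  have key2 : p ≤ a * c ^ 2 + (1 - a * c) ^ 2 := by
    have e1 : 0 ≤ ((a + 1) * c - 1) ^ 2 := sq_nonneg _
    nlinarith
  rcases eq_or_lt_of_le hfle with h0 | hneg
  · -- the regular case
    have h6 : (q - p ^ 2) * (1 - a * c) = a * c * (c - p) ^ 2 := by
      simp only [hf] at h0
      linarith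
    have hm2 : 0 < (1 - a * c) ^ 2 := by positivity
    refine near_ext_pt (a := a) (y := (1 - a * c) ^ 2 / 4)
      (θ := 2 * (a * c ^ 2 + (1 - a * c) ^ 2 - p) / (1 - a * c) ^ 2) hc0.le hm.le
      (by positivity) (by linarith) (div_nonneg (by linarith) hm2.le) ?_ ha' ?_ ?_
    · rw [div_le_one hm2]
      linarith
    · field_simp
      ring
    · have hne : 1 - a * c ≠ 0 := hm.ne'
      have h7 : q = p ^ 2 + a * c * (c - p) ^ 2 / (1 - a * c) := by
        field_simp
        linarith
      rw [h7]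
      field_simp
      ring
  · -- the flat part
    have hcC' : c = C := by
      rcases hcase with h | h
      · exact h
      · exfalso
        rw [← ha'] at h
        simp only [hf] at hneg
        linarith
    subst hcC'
    have h6 : a * C * (C - p) ^ 2 < (q - p ^ 2) * (C + r) := by
      simp only [hf] at hneg
      rw [hmC] at hneg
      linarith
    have hmpos : 0 < C + r := by linarith
    rcases eq_or_lt_of_le h2 with hr0 | hrpos
    · exfalso
      have h7 : (a + 1) * C = 1 := by linarith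
      have h8 : C = p := by
        rw [← hr0] at h5
        nlinarith
      rw [hh', ← hr0] at hq2
      have h9 : q ≤ p ^ 2 := by
        rw [← h8]
        have : (a + 1) * C ^ 3 + 0 ^ 3 = ((a + 1) * C) * C ^ 2 := by ring
        rw [this, h7] at hq2
        linarith
      rw [h8] at h6
      nlinarith
    · have hcr : 0 < C * r := mul_pos hc0 hrpos
      -- `θ`
      set θ := (q - a * C ^ 3 - (C + r) ^ 3 + 4 * (C + r) * (C * r)) / (C * r * (C + r)) with hθ
      have hden : 0 < C * r * (C + r) := mul_pos hcr hmpos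
      have hθe : θ * (C * r * (C + r)) = q - a * C ^ 3 - (C + r) ^ 3 + 4 * (C + r) * (C * r) := by
        rw [hθ, div_mul_cancel₀ _ hden.ne']
      have hθ1 : θ ≤ 1 := by
        rw [hθ, div_le_one hden]
        rw [hh'] at hq2
        nlinarith
      have hθ4 : 4 * (C * r) < θ * (C + r) ^ 2 := by
        -- multiply by `C r (C + r)`
        have h7 : 4 * (C * r) * (C * r) < θ * (C + r) ^ 2 * (C * r) := by
          have e1 : θ * (C + r) ^ 2 * (C * r) = θ * (C * r * (C + r)) * (C + r) := by ring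
          rw [e1, hθe]
          have e2 : a * C = 1 - C - r := by rw [hr]; ring
          have e3 : p = C - C * r + r ^ 2 := by
            rw [← h5]
            have : ((a : ℝ) + 1) * C ^ 2 = (a * C + C) * C := by ring
            rw [this, e2]
            ring
          have e4 : a * C ^ 3 = (1 - C - r) * C ^ 2 := by rw [← e2]; ring
          rw [e2] at h6
          rw [e4]
          rw [e3] at h6
          nlinarith
        exact lt_of_mul_lt_mul_right h7 hcr.le
      have hθ0 : 0 < θ := by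
        by_contra hcon
        push Not at hcon
        have : θ * (C + r) ^ 2 ≤ 0 := mul_nonpos_of_nonpos_of_nonneg hcon (sq_nonneg _)
        linarith
      refine near_ext_pt (a := a) (y := C * r / θ) (θ := θ) hc0.le hm.le
        (div_nonneg hcr.le hθ0.le) ?_ hθ0.le hθ1 ha' ?_ ?_
      · rw [hmC, ← mul_div_assoc, div_le_iff₀ hθ0]
        linarith
      · have e1 : 2 * θ * (C * r / θ) = 2 * (C * r) := by
          field_simp
        rw [e1, hmC, ← h5]
        ring
      · have e1 : 4 * (1 - a * C) * θ * (C * r / θ) = 4 * (C + r) * (C * r) := by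
          rw [hmC]
          field_simp
        have e2 : θ ^ 2 * (C * r / θ) * (1 - a * C) = θ * (C * r * (C + r)) := by
          rw [hmC]
          field_simp
        rw [e1, e2, hθe, hmC]
        ring

end LibTri47
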