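import Pool.Agent.LibTri47.Ident

set_option autoImplicit false

/-! # Pointwise positivity of the vertex term -/

namespace LibTri47

open Finset

variable {X : Type} [Fintype X]

theorem F_nonneg_aux {K y n A B : ℝ} (hK : 0 < K) (hK1 : K < 1) (hy : 0 ≤ y)
    (hn : n ≤ 1 - K + K * y)
    (h1 : 0 ≤ 4 * K ^ 2 * (1 + 2 * K / (2 - K) * y) ^ 2 * A -
      4 * K * (1 + 2 * K / (2 - K) * y) * (K + 2) * (2 * K / (2 - K)) * B +
      (K + 2) ^ 2 * (2 * K / (2 - K)) ^ 2 * n) :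
    n + 2 * K / (2 - K) * B ≤
      (1 + 2 * K / (2 - K) * y) * (1 - K / (K + 2) * (1 - A)) := by
  have h2K : 0 < 2 - K := by linarith
  have hb : 0 ≤ 2 * K / (2 - K) := by positivity
  set b := 2 * K / (2 - K) with hbdef
  set φ := 1 + b * y with hφdef
  have hφ : 0 < φ := by positivity
  have hC : 0 ≤ 4 * K * (K + 2) * φ + (K + 2) ^ 2 * b ^ 2 := by positivity
  have hid : 8 * K * φ ^ 2 - (1 - K + K * y) * (4 * K * (K + 2) * φ + (K + 2) ^ 2 * b ^ 2) =
      8 * K ^ 5 * (y - 1) ^ 2 / (2 - K) ^ 2 := by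
    rw [hφdef, hbdef]
    field_simp
    ring
  have hpos : 0 ≤ 8 * K ^ 5 * (y - 1) ^ 2 / (2 - K) ^ 2 := by positivity
  have h2 : 0 ≤ 8 * K * φ ^ 2 - n * (4 * K * (K + 2) * φ + (K + 2) ^ 2 * b ^ 2) := by
    have := mul_le_mul_of_nonneg_right hn hC
    linarith
  have h3 : 0 ≤ (4 * K * φ) * (K * φ * A - (K + 2) * b * B + 2 * φ - (K + 2) * n) := by
    have e : (4 * K * φ) * (K * φ * A - (K + 2) * b * B + 2 * φ - (K + 2) * n) =
        (4 * K ^ 2 * φ ^ 2 * A - 4 * K * φ * (K + 2) * b * B + (K + 2) ^ 2 * b ^ 2 * n) +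
        (8 * K * φ ^ 2 - n * (4 * K * (K + 2) * φ + (K + 2) ^ 2 * b ^ 2)) := by ring
    rw [e]
    exact add_nonneg h1 h2
  have h4 : 0 ≤ K * φ * A - (K + 2) * b * B + 2 * φ - (K + 2) * n :=
    nonneg_of_mul_nonneg_right h3 (by positivity)
  have hK2 : 0 < K + 2 := by linarith
  have e : φ * (1 - K / (K + 2) * (1 - A)) = φ * (2 + K * A) / (K + 2) := by
    field_simp
    ring
  rw [e, le_div_iff₀ hK2]
  linarith

theorem F_nonneg {K : ℝ} (hK : 0 < K) (hK1 : K < 1) {w : X → ℝ} {U : X → X → ℝ} (hA : Adm w U)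
    (x : X) :
    ∑ z, (1 - U x z) * w z * (1 + 2 * K / (2 - K) * yy K w U z) ≤
      (1 + 2 * K / (2 - K) * yy K w U x) *
        (1 - K / (K + 2) * (1 - ∑ z, (1 - U x z) * w z * yy K w U z ^ 2)) := by
  set b := 2 * K / (2 - K) with hbdef
  set φ := 1 + b * yy K w U x with hφdef
  have hN : ∀ z, 0 ≤ (1 - U x z) * w z := fun z =>
    mul_nonneg (sub_nonneg.mpr (hA.u1 x z)) (hA.w0 z)
  have e1 : ∑ z, (1 - U x z) * w z * (1 + b * yy K w U z) =
      nn w U x + b * ∑ z, (1 - U x z) * w z * yy K w U z := by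
    rw [nn, mul_sum, ← sum_add_distrib]
    apply sum_congr rfl
    intro z _
    ring
  rw [e1]
  apply F_nonneg_aux hK hK1 (yy_nonneg K w U x) (nn_le hK w U x)
  have e2 : 4 * K ^ 2 * (1 + 2 * K / (2 - K) * yy K w U x) ^ 2 *
        (∑ z, (1 - U x z) * w z * yy K w U z ^ 2) -
      4 * K * (1 + 2 * K / (2 - K) * yy K w U x) * (K + 2) * (2 * K / (2 - K)) *
        (∑ z, (1 - U x z) * w z * yy K w U z) +
      (K + 2) ^ 2 * (2 * K / (2 - K)) ^ 2 * nn w U x =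
      ∑ z, (1 - U x z) * w z * (2 * K * φ * yy K w U z - (K + 2) * b) ^ 2 := by
    rw [← hbdef, ← hφdef, nn, mul_sum, mul_sum, mul_sum, ← sum_sub_distrib, ← sum_add_distrib]
    apply sum_congr rfl
    intro z _
    ring
  rw [e2]
  exact sum_nonneg fun z _ => mul_nonneg (hN z) (sq_nonneg _)

end LibTri47
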