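import Pool.Agent.LibTri47.NearStep

set_option autoImplicit false

/-! # The complete description of the 3-profile -/

namespace LibTri47

open Finset LibProf47

theorem description_full {p q t : ℝ} (hp0 : 0 < p) (hp : p ≤ 1 / 2) :
    pt p q t ∈ Profile ↔ p ^ 2 ≤ q ∧ 0 ≤ t ∧ t ≤ q ∧ Upp p q t ∧
      ∃ c, IsLeast (Cset p q) c ∧ t ≤ Tc p q c := by
  constructor
  · intro h
    obtain ⟨h1, h2, h3, h4⟩ := outer hp0 (by linarith) h
    refine ⟨h1, h2, h3, h4, ?_⟩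
    obtain ⟨c, hc⟩ := exists_c (q := q) hp0 hp
    exact ⟨c, hc, near_bound hp0 hp h h1 hc.1⟩
  · rintro ⟨h1, h2, h3, h4, c, hc1, hc2⟩
    by_cases hd : hh p ≤ q ∨ t ≤ p ^ 3 ∨ (t - 3 * p * q + 2 * p ^ 3) * √(hh p - p ^ 2) ^ 3 ≤
      √(q - p ^ 2) ^ 3 * (hh p - 3 * p * hh p + 2 * p ^ 3)
    · exact (description hp0 hp hd).2 ⟨h1, h2, h3, h4⟩
    · push Not at hd
      obtain ⟨d1, d2, d3⟩ := hd
      exact step_mem (near_step hp0 hp h1 d1 hc1 hc2 d3 d2)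

end LibTri47
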