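import Pool.Agent.LibTri47.SKkt

set_option autoImplicit false

/-! # The `Good` kernel obtained from a violation -/

namespace LibTri47

open Finset

variable {X : Type} [Fintype X]

/-- everything that is used about the minimiser -/
structure Good (a K m : ℝ) (w : X → ℝ) (U : X → X → ℝ) : Prop where
  adm : Adm w U
  K0 : 0 < K
  Kv : K * (ms w - a) ≤ (ms w - a - 1) * (2 - (ms w - a))
  v1 : 1 < ms w - a
  v2 : ms w - a < 2
  neg : Ph a w U < 0
  y2 : Y2 K w U ≤ a
  m0 : 0 ≤ m
  m1 : m ≤ 1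
  vert : ∀ x, 0 < w x → 3 * Zx a w U x =
        m * (2 * ∑ z, (1 - U x z) * w z * yy K w U z + K * yy K w U x ^ 2)
  edge : ∀ x y, 0 < w x → 0 < w y → 0 < U x y →
        3 * (co w U x y - a) ≤ m * (yy K w U x + yy K w U y)
  nlo : ∀ x, 0 < w x → ms w - a - 1 + K / 2 ≤ nn w U x
  nhi : ∀ x, 0 < w x → nn w U x ≤ ms w - a

private theorem good_cubic {v : ℝ} (h1 : 1 < v) (h2 : v < 2) :
    (v - 1) * (2 - v) * (v + 1) ≤ 2 / 3 := by
  nlinarith [mul_nonneg (sq_nonneg (v - 31 / 20)) (by linarith : (0 : ℝ) ≤ v + 11 / 10)]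

/-- bounds for a feasible kernel with `Y2 ≤ a` -/
private theorem good_bounds {a K : ℝ} {w : X → ℝ} {U : X → X → ℝ} (hA : Adm w U)
    (hK : 0 < K) (hY : Y2 K w U ≤ a) (hZ : 0 ≤ Zf a w U) (h1 : 1 < ms w - a)
    (h2 : ms w - a < 2) :
    Zf a w U ≤ (ms w - a - 1) * (2 - (ms w - a)) ∧
      - Ph a w U ≤ 2 * ((ms w - a - 1) * (2 - (ms w - a))) ∧
      Zf a w U - Ph a w U ≤ 2 / 3 := by
  set v := ms w - a with hv
  have hgc := GC (U := U) hK (w := w) (om := w) hA.w0
  have hzf := Zf_eq a (w := w) (U := U)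
  rw [← hv] at hzf
  have hs : ∑ i, w i * (1 - nn w U i) = - ∑ i, w i * (nn w U i - 1) := by
    rw [← Finset.sum_neg_distrib]
    exact Finset.sum_congr rfl fun i _ => by ring
  have hms : ∑ i, w i = v + a := by
    rw [hv]
    unfold ms
    ring
  have hY' : ∑ i, w i * yy K w U i ^ 2 = Y2 K w U := rfl
  rw [hs, hms, hY'] at hgc
  have h3 : 0 ≤ K / 2 * (v + a - Y2 K w U) := by
    apply mul_nonneg (by linarith)
    linarith
  have hZle : Zf a w U ≤ (v - 1) * (2 - v) := by linarith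
  have hph := PH a (w := w) (U := U) hA.sym
  rw [← hv] at hph
  have hsq : 0 ≤ ∑ x, w x * (nn w U x - 1) ^ 2 :=
    Finset.sum_nonneg fun x _ => mul_nonneg (hA.w0 x) (sq_nonneg _)
  have hex : 0 ≤ ∑ x, w x * ex w U x :=
    Finset.sum_nonneg fun x _ => mul_nonneg (hA.w0 x) (ex_nonneg hA x)
  have hP : - Ph a w U ≤ (3 * v - 4) * Zf a w U + 2 * (v - 1) * (2 - v) ^ 2 := by
    linarith
  have hv1 : 0 < v - 1 := by linarith
  have hv2 : 0 < 2 - v := by linarith
  have hprod : 0 < (v - 1) * (2 - v) := mul_pos hv1 hv2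
  refine ⟨hZle, ?_, ?_⟩
  · rcases le_or_gt (3 * v - 4) 0 with hc | hc
    · have h4 : (3 * v - 4) * Zf a w U ≤ 0 := mul_nonpos_of_nonpos_of_nonneg hc hZ
      nlinarith [mul_pos hprod hv1]
    · have h4 : (3 * v - 4) * Zf a w U ≤ (3 * v - 4) * ((v - 1) * (2 - v)) :=
        mul_le_mul_of_nonneg_left hZle hc.le
      nlinarith [mul_pos hprod hv2]
  · have h4 : (3 * v - 3) * Zf a w U ≤ (3 * v - 3) * ((v - 1) * (2 - v)) :=
      mul_le_mul_of_nonneg_left hZle (by linarith)
    have h5 := good_cubic (v := v) (by linarith) (by linarith)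
    nlinarith

/-- a violation of `SC` yields a `Good` kernel -/
theorem exists_good {a : ℝ} (ha : 1 ≤ a) (hR : RR X a) (h : ¬ SC X a) :
    ∃ (K m : ℝ) (w : X → ℝ) (U : X → X → ℝ), Good a K m w U := by
  unfold SC at h
  push Not at h
  obtain ⟨w1, U1, K1, hA1, hK1, hK1', hY1, hZ1, hP1⟩ := h
  set η := - Ph a w1 U1 with hη
  have hη0 : 0 < η := by
    rw [hη]
    linarith
  have hK0 : 0 < min K1 (η / 4) := lt_min hK1 (by linarith)
  obtain ⟨w, U, K, hmin⟩ := exists_minS ha hK0 (w1 := w1) (U1 := U1) (K1 := K1)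
    ⟨hA1, min_le_left _ _, hK1'.le, hY1, hZ1⟩
  obtain ⟨⟨hA, hK0K, hKle, hY, hZ⟩, hle⟩ := id hmin
  have hPle : Ph a w U ≤ - η := by
    have := hle w1 U1 K1 ⟨hA1, min_le_left _ _, hK1'.le, hY1, hZ1⟩
    rw [hη]
    linarith
  have hKpos : 0 < K := lt_of_lt_of_le hK0 hK0K
  have hPneg : Ph a w U < 0 := by linarith
  obtain ⟨hv1, hv2, _, hKlt⟩ := feas_v (by linarith : (0 : ℝ) ≤ a) hA hKpos hKle hY hZ
  obtain ⟨hZle, hPb, hZP⟩ := good_bounds hA hKpos hY hZ hv1 hv2
  have hZpos : 0 < Zf a w U := by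
    rcases hZ.lt_or_eq with h | h
    · exact h
    · exact absurd (hR w U hA h.symm hv2.le) (not_le.2 hPneg)
  obtain ⟨hYeq, hYge, hYK, m, hm0, hm, hvert, hedge⟩ := kktS ha hK0 hmin hPneg hZpos
  have hy0 : ∀ x, 0 ≤ yy K w U x := yy_nonneg K w U
  -- bounds of the degrees
  have hdeg : ∀ x, 0 < w x → 0 ≤ (ms w - a - nn w U x) * (nn w U x + 1 - (ms w - a) - K / 2) := by
    intro x hx
    have hZx : 0 ≤ Zx a w U x := by
      have h1 := hvert x hx
      have h2 : 0 ≤ ∑ z, (1 - U x z) * w z * yy K w U z :=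
        Finset.sum_nonneg fun z _ => mul_nonneg (mul_nonneg (by linarith [hA.u1 x z]) (hA.w0 z))
          (hy0 z)
      have h3 : 0 ≤ m * (2 * ∑ z, (1 - U x z) * w z * yy K w U z + K * yy K w U x ^ 2) := by
        positivity
      linarith
    have hz1 := Z1 a hA x
    have hgc := GC (U := U) hKpos (w := w) (om := nb w U x)
      (fun z => mul_nonneg (hA.u0 x z) (hA.w0 z))
    have e1 : ∑ z, U x z * w z * (nn w U z - 1) = - ∑ z, nb w U x z * (1 - nn w U z) := by
      rw [← Finset.sum_neg_distrib]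
      exact Finset.sum_congr rfl fun z _ => by
        unfold nb
        ring
    have e2 : ∑ z, nb w U x z = ms w - nn w U x := by
      rw [nn_eq]
      unfold nb dg
      ring
    have e3 : ∑ z, nb w U x z * yy K w U z ^ 2 ≤ a := by
      rw [← hYeq]
      unfold Y2 nb
      refine Finset.sum_le_sum fun z _ => ?_
      have : U x z * w z ≤ w z := by
        nlinarith [hA.u1 x z, hA.w0 z]
      exact mul_le_mul_of_nonneg_right this (sq_nonneg _)
    rw [e2] at hgc
    rw [e1] at hz1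
    have e4 : K / 2 * (ms w - a - nn w U x) ≤
        K / 2 * (ms w - nn w U x - ∑ z, nb w U x z * yy K w U z ^ 2) :=
      mul_le_mul_of_nonneg_left (by linarith) (by linarith)
    nlinarith
  refine ⟨K, m, w, U, hA, hKpos, ?_, hv1, hv2, hPneg, hY, hm0, ?_, hvert, hedge, ?_, ?_⟩
  · rcases hK0K.lt_or_eq with hlt | heq
    · have hY1' := hYK hlt
      have hzf := Zf_eq a (w := w) (U := U)
      have h1 : ∑ x, w x * (nn w U x - 1) ≤ ∑ x, w x * (- K + K * yy K w U x) :=
        Finset.sum_le_sum fun x _ => mul_le_mul_of_nonneg_left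
          (by linarith [nn_le hKpos w U x]) (hA.w0 x)
      have h2 : ∑ x, w x * (- K + K * yy K w U x) = - K * ms w + K * Y1 K w U := by
        unfold ms Y1
        rw [Finset.mul_sum, Finset.mul_sum, ← Finset.sum_add_distrib]
        exact Finset.sum_congr rfl fun x _ => by ring
      rw [h2, hY1'] at h1
      nlinarith
    · have h1 : K ≤ η / 4 := by
        rw [← heq]
        exact min_le_right _ _
      have h2 : K * (ms w - a) ≤ K * 2 := mul_le_mul_of_nonneg_left hv2.le hKpos.le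
      linarith
  · have hD : (K + 2) * a ≤ 3 * K * a + 2 * (1 - K) * Y1 K w U := by
      have := mul_le_mul_of_nonneg_left hYge (by linarith : (0 : ℝ) ≤ 2 * (1 - K))
      linarith
    have hD2 : 2 * a ≤ (K + 2) * a := by nlinarith
    have hn : 3 * (a * Zf a w U - Ph a w U) ≤ 2 * a := by
      have h1 : - Ph a w U ≤ a * (- Ph a w U) := by nlinarith
      have h2 : a * (Zf a w U - Ph a w U) ≤ a * (2 / 3) :=
        mul_le_mul_of_nonneg_left hZP (by linarith)
      linarith
    by_contra hcon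
    push Not at hcon
    have hDpos : 0 < 3 * K * a + 2 * (1 - K) * Y1 K w U := by linarith
    nlinarith
  · intro x hx
    by_contra hcon
    push Not at hcon
    have h1 := hdeg x hx
    have h2 : 0 < ms w - a - nn w U x := by linarith
    have h3 : nn w U x + 1 - (ms w - a) - K / 2 < 0 := by linarith
    have h4 := mul_neg_of_pos_of_neg h2 h3
    linarith
  · intro x hx
    by_contra hcon
    push Not at hcon
    have h1 := hdeg x hx
    have h2 : ms w - a - nn w U x < 0 := by linarith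
    have h3 : 0 < nn w U x + 1 - (ms w - a) - K / 2 := by linarith
    have h4 := mul_neg_of_neg_of_pos h2 h3
    linarith

end LibTri47
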