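import Pool.Agent.LibTri47.Main
import Pool.Agent.LibProf47.Final

set_option autoImplicit false

/-! # The main inequality for graphs and for the profile -/

namespace LibTri47

open Finset LibProf47

/-- `Zf` at scale `c` in terms of the edge density `P` -/
noncomputable def Zc (a c P : ℝ) : ℝ :=
  2 * (a + 1) / c - (a + 1) * (a + 2) - (1 - P) / c ^ 2

/-- `Ph` at scale `c` in terms of edge, cherry and triangle density -/
noncomputable def Phc (a c P Q T : ℝ) : ℝ :=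
  (1 - 3 * P + 3 * Q - T) / c ^ 3 - 3 * a * (1 - P) / c ^ 2 + 3 * a * (a + 1) / c -
    a * (a + 1) * (a + 2)

/-- the penalty at scale `c` -/
noncomputable def Pen (a c K P Q : ℝ) : ℝ :=
  Q / c ^ 3 - 2 * (1 - K) * P / c ^ 2 + (1 - K) ^ 2 / c - a * K ^ 2

private theorem Graph_ad_symm {n : ℕ} (G : SimpleGraph (Fin n)) (x y : Fin n) :
    ad G x y = ad G y x := by
  classical
  have h : G.Adj x y ↔ G.Adj y x := G.adj_comm x y
  unfold ad
  by_cases h1 : G.Adj x y
  · rw [if_pos h1, if_pos (h.1 h1)]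
  · rw [if_neg h1, if_neg fun h2 => h1 (h.2 h2)]

private theorem Graph_ad_nonneg {n : ℕ} (G : SimpleGraph (Fin n)) (x y : Fin n) :
    0 ≤ ad G x y := by
  unfold ad
  split_ifs <;> norm_num

private theorem Graph_ad_le_one {n : ℕ} (G : SimpleGraph (Fin n)) (x y : Fin n) :
    ad G x y ≤ 1 := by
  unfold ad
  split_ifs <;> norm_num

private theorem Graph_ms {n : ℕ} (hn : 0 < n) {c : ℝ} (hc : 0 < c) :
    ms (fun _ : Fin n => 1 / (n * c)) = 1 / c := by
  unfold ms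
  have hn' : (n : ℝ) ≠ 0 := by exact_mod_cast hn.ne'
  rw [Finset.sum_const, Finset.card_univ, Fintype.card_fin, nsmul_eq_mul]
  field_simp

private theorem Graph_ed {n : ℕ} (hn : 0 < n) (G : SimpleGraph (Fin n)) {c : ℝ} (hc : 0 < c) :
    ed (fun _ : Fin n => 1 / (n * c)) (fun i j => 1 - ad G i j) =
      (1 - S1 G / n ^ 2) / c ^ 2 := by
  have hn' : (n : ℝ) ≠ 0 := by exact_mod_cast hn.ne'
  have h1 : ed (fun _ : Fin n => 1 / (n * c)) (fun i j => 1 - ad G i j) =
      ((n : ℝ) ^ 2 - S1 G) * (1 / (n * c)) ^ 2 := by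
    have h2 : (n : ℝ) ^ 2 - S1 G = ∑ i : Fin n, ∑ j : Fin n, (1 - ad G i j) := by
      simp only [Finset.sum_sub_distrib, Finset.sum_const, Finset.card_univ, Fintype.card_fin,
        nsmul_eq_mul, mul_one, S1]
      ring
    rw [h2, Finset.sum_mul]
    unfold ed
    refine Finset.sum_congr rfl fun i _ => ?_
    rw [Finset.sum_mul]
    refine Finset.sum_congr rfl fun j _ => ?_
    ring
  rw [h1]
  field_simp

private theorem Graph_S2a {n : ℕ} (G : SimpleGraph (Fin n)) :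
    ∑ i : Fin n, ∑ j : Fin n, ∑ k : Fin n, ad G i j * ad G i k = S2 G := by
  unfold S2
  refine Finset.sum_congr rfl fun i _ => ?_
  rw [sq, Finset.sum_mul_sum]

private theorem Graph_S2b {n : ℕ} (G : SimpleGraph (Fin n)) :
    ∑ i : Fin n, ∑ j : Fin n, ∑ k : Fin n, ad G i j * ad G j k = S2 G := by
  rw [← Graph_S2a G, Finset.sum_comm]
  refine Finset.sum_congr rfl fun i _ => Finset.sum_congr rfl fun j _ =>
    Finset.sum_congr rfl fun k _ => ?_
  rw [Graph_ad_symm G j i]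

private theorem Graph_S2c {n : ℕ} (G : SimpleGraph (Fin n)) :
    ∑ i : Fin n, ∑ j : Fin n, ∑ k : Fin n, ad G j k * ad G i k = S2 G := by
  rw [← Graph_S2b G]
  refine Finset.sum_congr rfl fun i _ => ?_
  rw [Finset.sum_comm]
  refine Finset.sum_congr rfl fun j _ => Finset.sum_congr rfl fun k _ => ?_
  rw [Graph_ad_symm G k j]
  ring

private theorem Graph_tr {n : ℕ} (hn : 0 < n) (G : SimpleGraph (Fin n)) {c : ℝ} (hc : 0 < c) :
    tr (fun _ : Fin n => 1 / (n * c)) (fun i j => 1 - ad G i j) =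
      (1 - 3 * (S1 G / n ^ 2) + 3 * (S2 G / n ^ 3) - S3 G / n ^ 3) / c ^ 3 := by
  have hn' : (n : ℝ) ≠ 0 := by exact_mod_cast hn.ne'
  have e1 : ∑ i : Fin n, ∑ j : Fin n, ∑ _k : Fin n, ad G i j = n * S1 G := by
    unfold S1
    simp only [Finset.sum_const, Finset.card_univ, Fintype.card_fin, nsmul_eq_mul,
      ← Finset.mul_sum]
  have e2 : ∑ i : Fin n, ∑ j : Fin n, ∑ k : Fin n, ad G j k = n * S1 G := by
    unfold S1
    simp only [Finset.sum_const, Finset.card_univ, Fintype.card_fin, nsmul_eq_mul]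
  have e3 : ∑ i : Fin n, ∑ j : Fin n, ∑ k : Fin n, ad G i k = n * S1 G := by
    unfold S1
    simp only [Finset.sum_const, Finset.card_univ, Fintype.card_fin, nsmul_eq_mul,
      ← Finset.mul_sum]
  have e4 : ∑ i : Fin n, ∑ j : Fin n, ∑ k : Fin n, (1 : ℝ) = (n : ℝ) ^ 3 := by
    simp only [Finset.sum_const, Finset.card_univ, Fintype.card_fin, nsmul_eq_mul, mul_one]
    ring
  have h1 : tr (fun _ : Fin n => 1 / (n * c)) (fun i j => 1 - ad G i j) =
      ((n : ℝ) ^ 3 - 3 * (n * S1 G) + 3 * S2 G - S3 G) * (1 / (n * c)) ^ 3 := by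
    have h2 : (n : ℝ) ^ 3 - 3 * (n * S1 G) + 3 * S2 G - S3 G =
        ∑ i : Fin n, ∑ j : Fin n, ∑ k : Fin n,
          ((1 - ad G i j) * (1 - ad G j k) * (1 - ad G i k)) := by
      have h3 : ∀ i j k : Fin n, (1 - ad G i j) * (1 - ad G j k) * (1 - ad G i k) =
          1 - ad G i j - ad G j k - ad G i k + ad G i j * ad G j k + ad G j k * ad G i k +
            ad G i j * ad G i k - ad G i j * ad G j k * ad G i k := by
        intro i j k; ring
      simp only [h3, Finset.sum_sub_distrib, Finset.sum_add_distrib]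
      rw [e1, e2, e3, e4, Graph_S2a, Graph_S2b, Graph_S2c]
      unfold S3
      ring
    rw [h2, Finset.sum_mul]
    unfold tr
    refine Finset.sum_congr rfl fun i _ => ?_
    rw [Finset.sum_mul]
    refine Finset.sum_congr rfl fun j _ => ?_
    rw [Finset.sum_mul]
    refine Finset.sum_congr rfl fun k _ => ?_
    ring
  rw [h1]
  field_simp

private theorem Graph_Y2 {n : ℕ} (hn : 0 < n) (G : SimpleGraph (Fin n)) {c K : ℝ} (hc : 0 < c)
    (hK : 0 < K) :
    K ^ 2 * Y2 K (fun _ : Fin n => 1 / (n * c)) (fun i j => 1 - ad G i j) ≤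
      S2 G / n ^ 3 / c ^ 3 - 2 * (1 - K) * (S1 G / n ^ 2) / c ^ 2 + (1 - K) ^ 2 / c := by
  have hn' : (n : ℝ) ≠ 0 := by exact_mod_cast hn.ne'
  have hn0 : (0 : ℝ) < n := by exact_mod_cast hn
  have hnn : ∀ x : Fin n, nn (fun _ : Fin n => 1 / (n * c)) (fun i j => 1 - ad G i j) x =
      (∑ y, ad G x y) * (1 / (n * c)) := by
    intro x
    unfold nn
    rw [Finset.sum_mul]
    refine Finset.sum_congr rfl fun y _ => ?_
    ring
  have h1 : K ^ 2 * Y2 K (fun _ : Fin n => 1 / (n * c)) (fun i j => 1 - ad G i j) ≤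
      ∑ x : Fin n, (1 / (n * c)) * ((∑ y, ad G x y) * (1 / (n * c)) - 1 + K) ^ 2 := by
    unfold Y2
    rw [Finset.mul_sum]
    refine Finset.sum_le_sum fun x _ => ?_
    have hw : 0 < 1 / ((n : ℝ) * c) := by positivity
    have h2 : K ^ 2 * yy K (fun _ : Fin n => 1 / (n * c)) (fun i j => 1 - ad G i j) x ^ 2 ≤
        ((∑ y, ad G x y) * (1 / (n * c)) - 1 + K) ^ 2 := by
      unfold yy
      rw [hnn]
      rcases le_total 0 (((∑ y, ad G x y) * (1 / (n * c)) - 1 + K) / K) with h3 | h3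
      · rw [max_eq_right h3, div_pow]
        apply le_of_eq
        field_simp
      · rw [max_eq_left h3]
        nlinarith [sq_nonneg ((∑ y, ad G x y) * (1 / (n * c)) - 1 + K)]
    calc _ = (1 / (n * c)) *
          (K ^ 2 * yy K (fun _ : Fin n => 1 / (n * c)) (fun i j => 1 - ad G i j) x ^ 2) := by ring
      _ ≤ _ := mul_le_mul_of_nonneg_left h2 hw.le
  refine h1.trans (le_of_eq ?_)
  have h4 : ∀ x : Fin n, (1 / (n * c)) * ((∑ y, ad G x y) * (1 / (n * c)) - 1 + K) ^ 2 =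
      (1 / (n * c)) ^ 3 * (∑ y, ad G x y) ^ 2 - 2 * (1 - K) * (1 / (n * c)) ^ 2 *
        (∑ y, ad G x y) + (1 / (n * c)) * (1 - K) ^ 2 := by
    intro x; ring
  simp only [h4, Finset.sum_add_distrib, Finset.sum_sub_distrib, ← Finset.mul_sum,
    Finset.sum_const, Finset.card_univ, Fintype.card_fin, nsmul_eq_mul]
  have h5 : ∑ x : Fin n, (∑ y, ad G x y) ^ 2 = S2 G := rfl
  have h6 : ∑ x : Fin n, ∑ y, ad G x y = S1 G := rfl
  rw [h5, h6]
  field_simp

theorem graph_ineq {n : ℕ} (hn : 0 < n) (G : SimpleGraph (Fin n)) (a : ℕ) {c K : ℝ} (hc : 0 < c)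
    (hK : 0 < K) (hK1 : K < 1) (hv : 1 / c - a ≤ 2) (hZ : 0 ≤ Zc a c (S1 G / n ^ 2)) :
    0 ≤ Phc a c (S1 G / n ^ 2) (S2 G / n ^ 3) (S3 G / n ^ 3) + 3 / (K * (K + 2)) *
      Zc a c (S1 G / n ^ 2) * Pen a c K (S1 G / n ^ 2) (S2 G / n ^ 3) := by
  have hn0 : (0 : ℝ) < n := by exact_mod_cast hn
  set w : Fin n → ℝ := fun _ => 1 / (n * c) with hw
  set U : Fin n → Fin n → ℝ := fun i j => 1 - ad G i j with hU
  have hms : ms w = 1 / c := Graph_ms hn hc
  have hed : ed w U = (1 - S1 G / n ^ 2) / c ^ 2 := Graph_ed hn G hc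
  have htr : tr w U = (1 - 3 * (S1 G / n ^ 2) + 3 * (S2 G / n ^ 3) - S3 G / n ^ 3) / c ^ 3 :=
    Graph_tr hn G hc
  have hZf : Zf a w U = Zc a c (S1 G / n ^ 2) := by
    unfold Zf Zc
    rw [hms, hed]
    ring
  have hPh : Ph a w U = Phc a c (S1 G / n ^ 2) (S2 G / n ^ 3) (S3 G / n ^ 3) := by
    unfold Ph Phc
    rw [hms, hed, htr]
    ring
  have hadm : Adm w U := by
    refine ⟨fun i => ?_, fun i j => ?_, fun i j => ?_, fun i j => ?_⟩
    · rw [hw]; positivity
    · simp only [hU]; rw [Graph_ad_symm]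
    · simp only [hU]; linarith [Graph_ad_le_one G i j]
    · simp only [hU]; linarith [Graph_ad_nonneg G i j]
  have hSS := SS_nat (X := Fin n) a w U K hadm hK hK1 (by rw [hZf]; exact hZ) (by rw [hms]; exact hv)
  rw [hZf, hPh] at hSS
  have hY : K ^ 2 * (Y2 K w U - a) ≤ Pen a c K (S1 G / n ^ 2) (S2 G / n ^ 3) := by
    have := Graph_Y2 hn G hc hK
    unfold Pen
    rw [mul_sub]
    have h1 : K ^ 2 * Y2 K w U ≤
        S2 G / n ^ 3 / c ^ 3 - 2 * (1 - K) * (S1 G / n ^ 2) / c ^ 2 + (1 - K) ^ 2 / c := this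
    linarith
  have hfin : 3 * (K / (K + 2)) * Zc a c (S1 G / n ^ 2) * (Y2 K w U - a) ≤
      3 / (K * (K + 2)) * Zc a c (S1 G / n ^ 2) * Pen a c K (S1 G / n ^ 2) (S2 G / n ^ 3) := by
    have h2 : 0 ≤ 3 / (K * (K + 2)) * Zc a c (S1 G / n ^ 2) := by positivity
    have h3 := mul_le_mul_of_nonneg_left hY h2
    refine le_trans (le_of_eq ?_) h3
    field_simp
  linarith

theorem prof_ineq {p q t : ℝ} (h : pt p q t ∈ Profile) (a : ℕ) {c K : ℝ} (hc : 0 < c)
    (hK : 0 < K) (hK1 : K < 1) (hv : 1 / c - a ≤ 2) (hZ : 0 < Zc a c p) :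
    0 ≤ Phc a c p q t + 3 / (K * (K + 2)) * Zc a c p * Pen a c K p q := by
  obtain ⟨n, G, hn, hG⟩ := h
  obtain ⟨hP, hQ, hT⟩ := LibProf47.Lim.hom_lim hn hG
  have eP : (pt p q t 1 + 2 * pt p q t 2 + 3 * pt p q t 3) / 3 = p := by
    simp [pt]; ring
  have eQ : (pt p q t 2 + 3 * pt p q t 3) / 3 = q := by
    simp [pt]; ring
  have eT : pt p q t 3 = t := by simp [pt]
  rw [eP] at hP
  rw [eQ] at hQ
  rw [eT] at hT
  have cZ : Filter.Tendsto (fun k => Zc a c (S1 (G k) / (n k : ℝ) ^ 2)) Filter.atTop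
      (nhds (Zc a c p)) := by
    unfold Zc
    exact tendsto_const_nhds.sub ((tendsto_const_nhds.sub hP).div_const _)
  have cPh : Filter.Tendsto (fun k => Phc a c (S1 (G k) / (n k : ℝ) ^ 2)
      (S2 (G k) / (n k : ℝ) ^ 3) (S3 (G k) / (n k : ℝ) ^ 3)) Filter.atTop
      (nhds (Phc a c p q t)) := by
    unfold Phc
    exact (((((tendsto_const_nhds.sub (hP.const_mul 3)).add (hQ.const_mul 3)).sub hT).div_const _
      |>.sub (((tendsto_const_nhds.sub hP).const_mul _).div_const _)).add_const _).sub_const _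
  have cPen : Filter.Tendsto (fun k => Pen a c K (S1 (G k) / (n k : ℝ) ^ 2)
      (S2 (G k) / (n k : ℝ) ^ 3)) Filter.atTop (nhds (Pen a c K p q)) := by
    unfold Pen
    exact (((hQ.div_const _).sub ((hP.const_mul _).div_const _)).add_const _).sub_const _
  have hlim := cPh.add ((cZ.const_mul (3 / (K * (K + 2)))).mul cPen)
  refine ge_of_tendsto hlim ?_
  have e1 : ∀ᶠ k in Filter.atTop, 0 < Zc a c (S1 (G k) / (n k : ℝ) ^ 2) :=
    cZ.eventually (lt_mem_nhds hZ)
  have e2 : ∀ᶠ k in Filter.atTop, 0 < n k := hn.eventually (Filter.eventually_gt_atTop 0)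
  filter_upwards [e1, e2] with k h1 h2
  exact graph_ineq h2 (G k) a hc hK hK1 hv h1.le

end LibTri47
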