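import Pool.Agent.LibTri47.Defs

set_option autoImplicit false

namespace LibTri47

open Finset

variable {X : Type} [Fintype X]

/-! ## Removal identities -/

private noncomputable def IdA_T (U : X → X → ℝ) (u v t : X → ℝ) : ℝ :=
  ∑ i, ∑ j, ∑ k, U i j * U j k * U i k * u i * v j * t k

private theorem IdA_T12 {U : X → X → ℝ} (hs : ∀ i j, U i j = U j i) (u v t : X → ℝ) :
    IdA_T U u v t = IdA_T U v u t := by
  unfold IdA_T
  rw [Finset.sum_comm]
  refine Finset.sum_congr rfl fun i _ => Finset.sum_congr rfl fun j _ =>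
    Finset.sum_congr rfl fun k _ => ?_
  rw [hs j i]
  ring

private theorem IdA_T23 {U : X → X → ℝ} (hs : ∀ i j, U i j = U j i) (u v t : X → ℝ) :
    IdA_T U u v t = IdA_T U u t v := by
  unfold IdA_T
  refine Finset.sum_congr rfl fun i _ => ?_
  rw [Finset.sum_comm]
  refine Finset.sum_congr rfl fun j _ => Finset.sum_congr rfl fun k _ => ?_
  rw [hs k j]
  ring

private theorem IdA_Tsub (U : X → X → ℝ) (u u' v t : X → ℝ) :
    IdA_T U (u - u') v t = IdA_T U u v t - IdA_T U u' v t := by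
  unfold IdA_T
  simp only [← Finset.sum_sub_distrib, Pi.sub_apply]
  refine Finset.sum_congr rfl fun i _ => Finset.sum_congr rfl fun j _ =>
    Finset.sum_congr rfl fun k _ => ?_
  ring

private theorem IdA_Tsub2 {U : X → X → ℝ} (hs : ∀ i j, U i j = U j i) (u v v' t : X → ℝ) :
    IdA_T U u (v - v') t = IdA_T U u v t - IdA_T U u v' t := by
  rw [IdA_T12 hs, IdA_Tsub, IdA_T12 hs v, IdA_T12 hs v']

private theorem IdA_Tsub3 {U : X → X → ℝ} (hs : ∀ i j, U i j = U j i) (u v t t' : X → ℝ) :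
    IdA_T U u v (t - t') = IdA_T U u v t - IdA_T U u v t' := by
  rw [IdA_T23 hs, IdA_Tsub2 hs, IdA_T23 hs u t, IdA_T23 hs u t']

theorem tr_removal {w f : X → ℝ} {U : X → X → ℝ} (hs : ∀ i j, U i j = U j i) :
    tr w U = tr (w - f) U + 3 * ∑ y, f y * tx w U y -
      3 * ∑ y, ∑ z, f y * f z * U y z * co w U y z + tr f U := by
  have e1 : ∀ u : X → ℝ, tr u U = IdA_T U u u u := fun u => rfl
  have e2 : ∑ y, f y * tx w U y = IdA_T U f w w := by
    unfold tx IdA_T
    simp only [Finset.mul_sum]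
    refine Finset.sum_congr rfl fun i _ => Finset.sum_congr rfl fun j _ =>
      Finset.sum_congr rfl fun k _ => ?_
    ring
  have e3 : ∑ y, ∑ z, f y * f z * U y z * co w U y z = IdA_T U f f w := by
    unfold co IdA_T
    simp only [Finset.mul_sum]
    refine Finset.sum_congr rfl fun i _ => Finset.sum_congr rfl fun j _ =>
      Finset.sum_congr rfl fun k _ => ?_
    ring
  rw [e1, e1, e1, e2, e3]
  simp only [IdA_Tsub, IdA_Tsub2 hs, IdA_Tsub3 hs]
  have s1 : IdA_T U w f w = IdA_T U f w w := IdA_T12 hs _ _ _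
  have s2 : IdA_T U w w f = IdA_T U f w w := by rw [IdA_T23 hs, IdA_T12 hs]
  have s3 : IdA_T U w f f = IdA_T U f f w := by rw [IdA_T12 hs, IdA_T23 hs]
  have s4 : IdA_T U f w f = IdA_T U f f w := IdA_T23 hs _ _ _
  rw [s1, s2, s3, s4]
  ring

private noncomputable def IdA_E (U : X → X → ℝ) (u v : X → ℝ) : ℝ :=
  ∑ i, ∑ j, U i j * u i * v j

private theorem IdA_E12 {U : X → X → ℝ} (hs : ∀ i j, U i j = U j i) (u v : X → ℝ) :
    IdA_E U u v = IdA_E U v u := by
  unfold IdA_E
  rw [Finset.sum_comm]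
  refine Finset.sum_congr rfl fun i _ => Finset.sum_congr rfl fun j _ => ?_
  rw [hs j i]
  ring

private theorem IdA_Esub (U : X → X → ℝ) (u u' v : X → ℝ) :
    IdA_E U (u - u') v = IdA_E U u v - IdA_E U u' v := by
  unfold IdA_E
  simp only [← Finset.sum_sub_distrib, Pi.sub_apply]
  refine Finset.sum_congr rfl fun i _ => Finset.sum_congr rfl fun j _ => ?_
  ring

private theorem IdA_Esub2 {U : X → X → ℝ} (hs : ∀ i j, U i j = U j i) (u v v' : X → ℝ) :
    IdA_E U u (v - v') = IdA_E U u v - IdA_E U u v' := by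
  rw [IdA_E12 hs, IdA_Esub, IdA_E12 hs v, IdA_E12 hs v']

theorem ed_removal {w f : X → ℝ} {U : X → X → ℝ} (hs : ∀ i j, U i j = U j i) :
    ed w U = ed (w - f) U + 2 * ∑ y, f y * dg w U y - ed f U := by
  have e1 : ∀ u : X → ℝ, ed u U = IdA_E U u u := fun u => rfl
  have e2 : ∑ y, f y * dg w U y = IdA_E U f w := by
    unfold dg IdA_E
    simp only [Finset.mul_sum]
    refine Finset.sum_congr rfl fun i _ => Finset.sum_congr rfl fun j _ => ?_
    ring
  rw [e1, e1, e1, e2]
  simp only [IdA_Esub, IdA_Esub2 hs]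
  rw [IdA_E12 hs w f]
  ring

theorem ms_removal {w f : X → ℝ} : ms w = ms (w - f) + ms f := by
  unfold ms
  simp only [Pi.sub_apply, Finset.sum_sub_distrib]
  ring

theorem Ph_removal (a : ℝ) {w f : X → ℝ} {U : X → X → ℝ} (hs : ∀ i j, U i j = U j i) :
    Ph a w U = Ph a (w - f) U + 3 * ∑ y, f y * (tx w U y - 2 * a * dg w U y + a * (a + 1)) +
      3 * ∑ y, ∑ z, f y * f z * U y z * (a - co w U y z) + tr f U := by
  have h1 : ∑ y, f y * (tx w U y - 2 * a * dg w U y + a * (a + 1)) =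
      ∑ y, f y * tx w U y - 2 * a * ∑ y, f y * dg w U y + a * (a + 1) * ms f := by
    unfold ms
    rw [Finset.mul_sum, Finset.mul_sum, ← Finset.sum_sub_distrib, ← Finset.sum_add_distrib]
    refine Finset.sum_congr rfl fun y _ => ?_
    ring
  have h2 : ∑ y, ∑ z, f y * f z * U y z * (a - co w U y z) =
      a * ed f U - ∑ y, ∑ z, f y * f z * U y z * co w U y z := by
    unfold ed
    simp only [Finset.mul_sum, ← Finset.sum_sub_distrib]
    refine Finset.sum_congr rfl fun y _ => Finset.sum_congr rfl fun z _ => ?_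
    ring
  rw [h1, h2]
  unfold Ph
  rw [tr_removal (w := w) (f := f) hs, ed_removal (w := w) (f := f) hs,
    ms_removal (w := w) (f := f)]
  ring

theorem Zf_removal (a : ℝ) {w f : X → ℝ} {U : X → X → ℝ} (hs : ∀ i j, U i j = U j i) :
    Zf a w U = Zf a (w - f) U + 2 * ∑ y, f y * (a + 1 - dg w U y) + ed f U := by
  have h1 : ∑ y, f y * (a + 1 - dg w U y) = (a + 1) * ms f - ∑ y, f y * dg w U y := by
    unfold ms
    rw [Finset.mul_sum, ← Finset.sum_sub_distrib]
    refine Finset.sum_congr rfl fun y _ => ?_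
    ring
  rw [h1]
  unfold Zf
  rw [ed_removal (w := w) (f := f) hs, ms_removal (w := w) (f := f)]
  ring

theorem ms_nb {w : X → ℝ} {U : X → X → ℝ} (x : X) : ms (nb w U x) = dg w U x := rfl

theorem ed_nb {w : X → ℝ} {U : X → X → ℝ} (x : X) : ed (nb w U x) U = tx w U x := by
  unfold ed tx nb
  refine Finset.sum_congr rfl fun y _ => Finset.sum_congr rfl fun z _ => ?_
  ring

theorem Ph_step (a : ℝ) (w : X → ℝ) (U : X → X → ℝ) :
    Ph a w U = Ph (a - 1) w U + 3 * Zf (a - 1) w U := by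
  unfold Ph Zf
  ring

theorem Zf_nb (a : ℝ) {w : X → ℝ} {U : X → X → ℝ} (x : X) :
    Zf (a - 1) (nb w U x) U = Zx a w U x := by
  unfold Zf Zx
  rw [ms_nb, ed_nb]
  ring

/-- the neighbourhood identity -/
theorem PID (a : ℝ) {w : X → ℝ} {U : X → X → ℝ} (hs : ∀ i j, U i j = U j i) (x : X) :
    Ph a w U = Ph (a - 1) (nb w U x) U + 3 * Zx a w U x -
      3 * ∑ z, (1 - U x z) * w z * Zx a w U z +
      3 * ∑ y, ∑ z, (1 - U x y) * (1 - U x z) * U y z * (a - co w U y z) * w y * w z +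
      tr (an w U x) U := by
  have h0 : w - an w U x = nb w U x := by
    funext j
    simp only [Pi.sub_apply, an, nb]
    ring
  rw [Ph_removal a (f := an w U x) hs, h0, Ph_step a (nb w U x), Zf_nb]
  have h1 : ∑ y, an w U x y * (tx w U y - 2 * a * dg w U y + a * (a + 1)) =
      - ∑ z, (1 - U x z) * w z * Zx a w U z := by
    rw [← Finset.sum_neg_distrib]
    refine Finset.sum_congr rfl fun y _ => ?_
    unfold an Zx
    ring
  have h2 : ∑ y, ∑ z, an w U x y * an w U x z * U y z * (a - co w U y z) =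
      ∑ y, ∑ z, (1 - U x y) * (1 - U x z) * U y z * (a - co w U y z) * w y * w z := by
    refine Finset.sum_congr rfl fun y _ => Finset.sum_congr rfl fun z _ => ?_
    unfold an
    ring
  rw [h1, h2]
  ring

end LibTri47
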