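import Pool.Agent.LibTri47.Defs

set_option autoImplicit false

namespace LibTri47

open Finset

variable {X : Type} [Fintype X]

/-! ## Other identities.  `v` is `ms w - a`. -/

theorem nn_eq {w : X → ℝ} {U : X → X → ℝ} (x : X) : nn w U x = ms w - dg w U x := by
  simp only [nn, ms, dg]
  rw [← Finset.sum_sub_distrib]
  exact Finset.sum_congr rfl fun j _ => by ring

theorem nu_eq {w : X → ℝ} {U : X → X → ℝ} (x y : X) :
    nu w U x y = nn w U x + nn w U y - ms w + co w U x y := by
  simp only [nn, ms, nu, co]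
  rw [← Finset.sum_add_distrib, ← Finset.sum_sub_distrib, ← Finset.sum_add_distrib]
  exact Finset.sum_congr rfl fun j _ => by ring

private theorem sum_w_dg {w : X → ℝ} {U : X → X → ℝ} : ∑ x, w x * dg w U x = ed w U := by
  simp only [dg, ed, Finset.mul_sum]
  exact Finset.sum_congr rfl fun i _ => Finset.sum_congr rfl fun j _ => by ring

private theorem sum_w_nn {w : X → ℝ} {U : X → X → ℝ} :
    ∑ x, w x * nn w U x = ms w ^ 2 - ed w U := by
  have h : ∀ x, w x * nn w U x = ms w * w x - w x * dg w U x := fun x => by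
    rw [nn_eq]; ring
  simp only [h]
  rw [Finset.sum_sub_distrib, sum_w_dg, ← Finset.mul_sum]
  simp only [ms]
  ring

private theorem sum_w_nn_sub {w : X → ℝ} {U : X → X → ℝ} :
    ∑ x, w x * (nn w U x - 1) = ms w ^ 2 - ed w U - ms w := by
  have h : ∀ x, w x * (nn w U x - 1) = w x * nn w U x - w x := fun x => by ring
  simp only [h]
  rw [Finset.sum_sub_distrib, sum_w_nn]
  simp only [ms]

theorem Zf_eq (a : ℝ) {w : X → ℝ} {U : X → X → ℝ} :
    Zf a w U = (ms w - a - 1) * (2 - (ms w - a)) + ∑ x, w x * (nn w U x - 1) := by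
  rw [sum_w_nn_sub, Zf]
  ring

private theorem ex_eq {w : X → ℝ} {U : X → X → ℝ} (hs : ∀ i j, U i j = U j i) (x : X) :
    ex w U x = tx w U x - ed w U + 2 * ∑ z, (1 - U x z) * w z * dg w U z := by
  have h1 : ex w U x = ed w U - (∑ j, ∑ k, U x j * U j k * w j * w k) -
      (∑ j, ∑ k, U x k * U j k * w j * w k) + tx w U x := by
    simp only [ex, ed, tx]
    rw [← Finset.sum_sub_distrib, ← Finset.sum_sub_distrib, ← Finset.sum_add_distrib]
    refine Finset.sum_congr rfl fun j _ => ?_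
    rw [← Finset.sum_sub_distrib, ← Finset.sum_sub_distrib, ← Finset.sum_add_distrib]
    exact Finset.sum_congr rfl fun k _ => by ring
  have h2 : (∑ j, ∑ k, U x k * U j k * w j * w k) = ∑ j, ∑ k, U x j * U j k * w j * w k := by
    rw [Finset.sum_comm]
    refine Finset.sum_congr rfl fun j _ => Finset.sum_congr rfl fun k _ => ?_
    rw [hs k j]; ring
  have h3 : ∑ z, (1 - U x z) * w z * dg w U z =
      ed w U - ∑ j, ∑ k, U x j * U j k * w j * w k := by
    simp only [dg, ed, Finset.mul_sum]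
    rw [← Finset.sum_sub_distrib]
    refine Finset.sum_congr rfl fun j _ => ?_
    rw [← Finset.sum_sub_distrib]
    exact Finset.sum_congr rfl fun k _ => by ring
  rw [h1, h2, h3]
  ring

private theorem sum_B_dg {w : X → ℝ} {U : X → X → ℝ} (x : X) (c : ℝ) :
    ∑ z, (1 - U x z) * w z * (nn w U z + c) =
      (ms w + c) * nn w U x - ∑ z, (1 - U x z) * w z * dg w U z := by
  have h : ∀ z, (1 - U x z) * w z * (nn w U z + c) =
      (ms w + c) * ((1 - U x z) * w z) - (1 - U x z) * w z * dg w U z := fun z => by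
    rw [nn_eq]; ring
  simp only [h]
  rw [Finset.sum_sub_distrib, ← Finset.mul_sum]
  simp only [nn]

theorem E1 (a : ℝ) {w : X → ℝ} {U : X → X → ℝ} (hs : ∀ i j, U i j = U j i) (x : X) :
    ex w U x = Zf a w U - Zx a w U x + 2 * ((nn w U x + 1 - (ms w - a)) -
      ∑ z, (1 - U x z) * w z * (nn w U z + 1 - (ms w - a))) := by
  have h := sum_B_dg (w := w) (U := U) x (1 - (ms w - a))
  have h' : ∑ z, (1 - U x z) * w z * (nn w U z + 1 - (ms w - a)) =
      ∑ z, (1 - U x z) * w z * (nn w U z + (1 - (ms w - a))) :=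
    Finset.sum_congr rfl fun z _ => by ring
  rw [h', h, ex_eq hs, Zf, Zx, nn_eq]
  ring

private theorem sum_w_tx {w : X → ℝ} {U : X → X → ℝ} : ∑ x, w x * tx w U x = tr w U := by
  simp only [tx, tr, Finset.mul_sum]
  exact Finset.sum_congr rfl fun i _ => Finset.sum_congr rfl fun j _ =>
    Finset.sum_congr rfl fun k _ => by ring

theorem sum_Zx (a : ℝ) {w : X → ℝ} {U : X → X → ℝ} (hs : ∀ i j, U i j = U j i) :
    ∑ x, w x * Zx a w U x = a * Zf a w U - Ph a w U := by
  have _ := hs
  have h : ∀ x, w x * Zx a w U x =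
      2 * a * (w x * dg w U x) - a * (a + 1) * w x - w x * tx w U x := fun x => by
    rw [Zx]; ring
  simp only [h]
  rw [Finset.sum_sub_distrib, Finset.sum_sub_distrib, ← Finset.mul_sum, ← Finset.mul_sum,
    sum_w_dg, sum_w_tx, Zf, Ph]
  simp only [ms]
  ring

theorem PH (a : ℝ) {w : X → ℝ} {U : X → X → ℝ} (hs : ∀ i j, U i j = U j i) :
    Ph a w U = 2 * ∑ x, w x * (nn w U x - 1) ^ 2 + ∑ x, w x * ex w U x +
      (4 - 3 * (ms w - a)) * Zf a w U - 2 * (ms w - a - 1) * (2 - (ms w - a)) ^ 2 := by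
  have h1 : ∑ x, w x * ex w U x = ms w * Zf a w U - (a * Zf a w U - Ph a w U) +
      2 * (∑ x, w x * (nn w U x + 1 - (ms w - a)) -
        ∑ x, w x * ∑ z, (1 - U x z) * w z * (nn w U z + 1 - (ms w - a))) := by
    have h : ∀ x, w x * ex w U x = Zf a w U * w x - w x * Zx a w U x +
        2 * (w x * (nn w U x + 1 - (ms w - a)) -
        w x * ∑ z, (1 - U x z) * w z * (nn w U z + 1 - (ms w - a))) := fun x => by
      rw [E1 a hs]; ring
    simp only [h]
    rw [Finset.sum_add_distrib, Finset.sum_sub_distrib, ← Finset.mul_sum, ← Finset.mul_sum,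
      Finset.sum_sub_distrib, sum_Zx a hs]
    simp only [ms]
    ring
  have h2 : ∑ x, w x * ∑ z, (1 - U x z) * w z * (nn w U z + 1 - (ms w - a)) =
      ∑ z, w z * nn w U z * (nn w U z + 1 - (ms w - a)) := by
    simp only [Finset.mul_sum]
    rw [Finset.sum_comm]
    refine Finset.sum_congr rfl fun z _ => ?_
    have h3 : w z * nn w U z * (nn w U z + 1 - (ms w - a)) =
        ∑ x, (w z * (nn w U z + 1 - (ms w - a))) * ((1 - U z x) * w x) := by
      rw [← Finset.mul_sum]
      simp only [nn]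
      ring
    rw [h3]
    refine Finset.sum_congr rfl fun x _ => ?_
    rw [hs x z]; ring
  have h4 : ∑ x, w x * (nn w U x + 1 - (ms w - a)) -
      ∑ z, w z * nn w U z * (nn w U z + 1 - (ms w - a)) =
      -(∑ x, w x * (nn w U x - 1) ^ 2) - (2 - (ms w - a)) * ∑ x, w x * (nn w U x - 1) := by
    rw [Finset.mul_sum, ← Finset.sum_neg_distrib, ← Finset.sum_sub_distrib,
      ← Finset.sum_sub_distrib]
    exact Finset.sum_congr rfl fun x _ => by ring
  have h5 := Zf_eq a (w := w) (U := U)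
  rw [h2, h4] at h1
  have h6 : ∑ x, w x * (nn w U x - 1) =
      Zf a w U - (ms w - a - 1) * (2 - (ms w - a)) := by rw [h5]; ring
  rw [h6] at h1
  rw [h1]
  ring

theorem ex_ge {w : X → ℝ} {U : X → X → ℝ} (h : Adm w U) (x : X) :
    nn w U x ^ 2 - ∑ z, (1 - U x z) * w z * nn w U z ≤ ex w U x := by
  have h1 : nn w U x ^ 2 = ∑ j, ∑ k, (1 - U x j) * w j * ((1 - U x k) * w k) := by
    rw [sq]
    simp only [nn]
    rw [Finset.sum_mul_sum]
  rw [h1, ← sub_nonneg]
  have h2 : ex w U x - (∑ j, ∑ k, (1 - U x j) * w j * ((1 - U x k) * w k) -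
      ∑ z, (1 - U x z) * w z * nn w U z) =
      ∑ j, ∑ k, (1 - U x j) * w j * (U x k * w k * (1 - U j k)) := by
    simp only [ex, nn, Finset.mul_sum]
    rw [← Finset.sum_sub_distrib, ← Finset.sum_sub_distrib]
    refine Finset.sum_congr rfl fun j _ => ?_
    rw [← Finset.sum_sub_distrib, ← Finset.sum_sub_distrib]
    exact Finset.sum_congr rfl fun k _ => by ring
  rw [h2]
  refine Finset.sum_nonneg fun j _ => Finset.sum_nonneg fun k _ => ?_
  have a1 := h.u1 x j
  have a2 := h.u1 j k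
  have a3 := h.u0 x k
  have a4 := h.w0 j
  have a5 := h.w0 k
  have b1 : 0 ≤ 1 - U x j := by linarith
  have b2 : 0 ≤ 1 - U j k := by linarith
  positivity

theorem Z1 (a : ℝ) {w : X → ℝ} {U : X → X → ℝ} (h : Adm w U) (x : X) :
    Zx a w U x ≤ (ms w - a - nn w U x) * (nn w U x + 1 - (ms w - a)) +
      ∑ z, U x z * w z * (nn w U z - 1) := by
  have h1 := E1 a (w := w) h.sym x
  have h2 := ex_ge h x
  have h3 := Zf_eq a (w := w) (U := U)
  have h4 : ∑ z, w z * (nn w U z - 1) = ∑ z, U x z * w z * (nn w U z - 1) +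
      (∑ z, (1 - U x z) * w z * nn w U z - nn w U x) := by
    have h5 : nn w U x = ∑ z, (1 - U x z) * w z := rfl
    rw [h5, ← Finset.sum_sub_distrib, ← Finset.sum_add_distrib]
    exact Finset.sum_congr rfl fun z _ => by ring
  have h6 : ∑ z, (1 - U x z) * w z * (nn w U z + 1 - (ms w - a)) =
      ∑ z, (1 - U x z) * w z * nn w U z + (1 - (ms w - a)) * nn w U x := by
    have h5 : nn w U x = ∑ z, (1 - U x z) * w z := rfl
    rw [h5, Finset.mul_sum, ← Finset.sum_add_distrib]
    exact Finset.sum_congr rfl fun z _ => by ring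
  rw [h6] at h1
  rw [h4] at h3
  nlinarith [h1, h2, h3]

end LibTri47
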