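import Pool.Agent.LibTri47.Defs

set_option autoImplicit false

namespace LibTri47

open Finset

variable {X : Type} [Fintype X]

/-! ## Positivity -/

theorem tr_nonneg {w : X → ℝ} {U : X → X → ℝ} (h : Adm w U) : 0 ≤ tr w U := by
  unfold tr
  refine sum_nonneg fun i _ => sum_nonneg fun j _ => sum_nonneg fun k _ => ?_
  have h1 := h.u0 i j
  have h2 := h.u0 j k
  have h3 := h.u0 i k
  have h4 := h.w0 i
  have h5 := h.w0 j
  have h6 := h.w0 k
  positivity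

theorem ex_nonneg {w : X → ℝ} {U : X → X → ℝ} (h : Adm w U) (x : X) : 0 ≤ ex w U x := by
  unfold ex
  refine sum_nonneg fun j _ => sum_nonneg fun k _ => ?_
  have h1 := sub_nonneg.mpr (h.u1 x j)
  have h2 := sub_nonneg.mpr (h.u1 x k)
  exact mul_nonneg (mul_nonneg (mul_nonneg (mul_nonneg h1 h2) (h.u0 j k)) (h.w0 j)) (h.w0 k)

theorem Adm.nb {w : X → ℝ} {U : X → X → ℝ} (h : Adm w U) (x : X) : Adm (nb w U x) U :=
  ⟨fun i => mul_nonneg (h.u0 x i) (h.w0 i), h.sym, h.u0, h.u1⟩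

theorem Adm.an {w : X → ℝ} {U : X → X → ℝ} (h : Adm w U) (x : X) : Adm (an w U x) U :=
  ⟨fun i => mul_nonneg (sub_nonneg.mpr (h.u1 x i)) (h.w0 i), h.sym, h.u0, h.u1⟩

theorem yy_nonneg (K : ℝ) (w : X → ℝ) (U : X → X → ℝ) (x : X) : 0 ≤ yy K w U x :=
  le_max_left _ _

theorem nn_le {K : ℝ} (hK : 0 < K) (w : X → ℝ) (U : X → X → ℝ) (x : X) :
    nn w U x ≤ 1 - K + K * yy K w U x := by
  have h1 : (nn w U x - 1 + K) / K ≤ yy K w U x := le_max_right _ _
  rw [div_le_iff₀ hK] at h1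
  linarith

/-- the elementary form of the convexity bound -/
theorem GC {K : ℝ} (hK : 0 < K) {w om : X → ℝ} {U : X → X → ℝ} (h0 : ∀ i, 0 ≤ om i) :
    K / 2 * (∑ i, om i - ∑ i, om i * yy K w U i ^ 2) ≤ ∑ i, om i * (1 - nn w U i) := by
  rw [← sum_sub_distrib, mul_sum]
  apply sum_le_sum
  intro i _
  have h1 := nn_le hK w U i
  have h2 : K / 2 * (1 - yy K w U i ^ 2) ≤ 1 - nn w U i := by
    nlinarith [mul_nonneg hK.le (sq_nonneg (yy K w U i - 1))]
  calc K / 2 * (om i - om i * yy K w U i ^ 2) = om i * (K / 2 * (1 - yy K w U i ^ 2)) := by ring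
    _ ≤ om i * (1 - nn w U i) := mul_le_mul_of_nonneg_left h2 (h0 i)

end LibTri47
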