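import Pool.Agent.LibTri47.Ident

set_option autoImplicit false

/-! # Scaling of Razborov's theorem -/

namespace LibTri47

open Finset

variable {X : Type} [Fintype X]

theorem rp_ms (c : ℝ) (w : X → ℝ) : ms (fun i => w i / c) = ms w / c := by
  unfold ms
  rw [Finset.sum_div]

theorem rp_ed (c : ℝ) (w : X → ℝ) (U : X → X → ℝ) :
    ed (fun i => w i / c) U = ed w U / c ^ 2 := by
  unfold ed
  rw [Finset.sum_div]
  refine Finset.sum_congr rfl fun i _ => ?_
  rw [Finset.sum_div]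
  refine Finset.sum_congr rfl fun j _ => ?_
  ring

theorem rp_tr (c : ℝ) (w : X → ℝ) (U : X → X → ℝ) :
    tr (fun i => w i / c) U = tr w U / c ^ 3 := by
  unfold tr
  rw [Finset.sum_div]
  refine Finset.sum_congr rfl fun i _ => ?_
  rw [Finset.sum_div]
  refine Finset.sum_congr rfl fun j _ => ?_
  rw [Finset.sum_div]
  refine Finset.sum_congr rfl fun k _ => ?_
  ring

/-- scaling: from `Zf = 0` to `Zf ≥ 0` -/
theorem Rprime {a : ℝ} (ha : 0 ≤ a) (h : RR X a) {w : X → ℝ} {U : X → X → ℝ} (hA : Adm w U)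
    (hZ : 0 ≤ Zf a w U) (hv : ms w - a < 2) :
    -(3 * a / (4 * (a + 1))) * Zf a w U ^ 2 ≤ (2 - (ms w - a)) * Ph a w U := by
  set Z := Zf a w U with hZdef
  set d := 2 - (ms w - a) with hd
  have hd0 : 0 < d := by rw [hd]; linarith
  have ha1 : 0 < a + 1 := by linarith
  have ha2 : 0 < a + 2 := by linarith
  obtain ⟨s, hs0, hs⟩ : ∃ s : ℝ, 0 ≤ s ∧
      Z - 2 * (a + 1) * d * s - (a + 1) * (a + 2) * s ^ 2 = 0 := by
    set D := ((a + 1) * d) ^ 2 + (a + 1) * (a + 2) * Z with hD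
    have hD1 : ((a + 1) * d) ^ 2 ≤ D := by
      have : 0 ≤ (a + 1) * (a + 2) * Z := by positivity
      rw [hD]; linarith
    have hD0 : 0 ≤ D := le_trans (by positivity) hD1
    have hsq := Real.sq_sqrt hD0
    have hge : (a + 1) * d ≤ Real.sqrt D := by
      rw [← Real.sqrt_sq (show 0 ≤ (a + 1) * d by positivity)]
      exact Real.sqrt_le_sqrt hD1
    refine ⟨(Real.sqrt D - (a + 1) * d) / ((a + 1) * (a + 2)),
      div_nonneg (by linarith) (by positivity), ?_⟩
    field_simp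
    rw [hD] at hsq
    rw [hD]
    nlinarith [hsq]
  have hc0 : (0 : ℝ) < 1 + s := by linarith
  have hA' : Adm (fun i => w i / (1 + s)) U :=
    ⟨fun i => div_nonneg (hA.w0 i) hc0.le, hA.sym, hA.u0, hA.u1⟩
  have hZ' : Zf a (fun i => w i / (1 + s)) U = 0 := by
    unfold Zf
    rw [rp_ms, rp_ed]
    have hZe : Z = 2 * (a + 1) * ms w - (a + 1) * (a + 2) - ed w U := rfl
    field_simp
    rw [hd, hZe] at hs
    linear_combination hs
  have hv' : ms (fun i => w i / (1 + s)) - a ≤ 2 := by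
    rw [rp_ms, sub_le_iff_le_add, div_le_iff₀ hc0]
    nlinarith
  have hP := h _ _ hA' hZ' hv'
  have hPe : Ph a (fun i => w i / (1 + s)) U = (tr w U - 3 * a * (1 + s) * ed w U +
      3 * a * (a + 1) * (1 + s) ^ 2 * ms w - a * (a + 1) * (a + 2) * (1 + s) ^ 3) /
      (1 + s) ^ 3 := by
    unfold Ph
    rw [rp_ms, rp_ed, rp_tr]
    field_simp
  rw [hPe] at hP
  have hP2 : 0 ≤ tr w U - 3 * a * (1 + s) * ed w U +
      3 * a * (a + 1) * (1 + s) ^ 2 * ms w - a * (a + 1) * (a + 2) * (1 + s) ^ 3 := by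
    by_contra hneg
    push Not at hneg
    have : (tr w U - 3 * a * (1 + s) * ed w U +
      3 * a * (a + 1) * (1 + s) ^ 2 * ms w - a * (a + 1) * (a + 2) * (1 + s) ^ 3) /
      (1 + s) ^ 3 < 0 := div_neg_of_neg_of_pos hneg (by positivity)
    linarith
  have hkey : tr w U - 3 * a * (1 + s) * ed w U +
      3 * a * (a + 1) * (1 + s) ^ 2 * ms w - a * (a + 1) * (a + 2) * (1 + s) ^ 3 =
      Ph a w U + 3 * a * (Z * s - (a + 1) * d * s ^ 2 - (a + 1) * (a + 2) * s ^ 3 / 3) := by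
    rw [hZdef, hd]
    unfold Ph Zf
    ring
  rw [hkey] at hP2
  have h3 : 0 ≤ (a + 1) * (a + 2) * s ^ 3 / 3 := by positivity
  have h4 : -(3 * a * (Z * s - (a + 1) * d * s ^ 2)) ≤ Ph a w U := by
    have : 3 * a * (Z * s - (a + 1) * d * s ^ 2 - (a + 1) * (a + 2) * s ^ 3 / 3) ≤
        3 * a * (Z * s - (a + 1) * d * s ^ 2) :=
      mul_le_mul_of_nonneg_left (by linarith) (by positivity)
    linarith
  have h5 : d * (-(3 * a * (Z * s - (a + 1) * d * s ^ 2))) ≤ d * Ph a w U :=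
    mul_le_mul_of_nonneg_left h4 hd0.le
  refine le_trans ?_ h5
  have h6 : 0 ≤ 3 * a / (4 * (a + 1)) * (Z - 2 * (a + 1) * d * s) ^ 2 := by positivity
  have h7 : d * (-(3 * a * (Z * s - (a + 1) * d * s ^ 2))) - -(3 * a / (4 * (a + 1))) * Z ^ 2 =
      3 * a / (4 * (a + 1)) * (Z - 2 * (a + 1) * d * s) ^ 2 := by
    field_simp
    ring
  linarith

end LibTri47
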