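import Pool.Agent.LibTri47.RKkt
import Pool.Agent.LibTri47.Rprime

set_option autoImplicit false

/-! # Razborov's theorem on the minimal triangle density (all levels) -/

namespace LibTri47

open Finset

variable {X : Type} [Fintype X]

theorem RR_zero : RR X 0 := by
  intro w U hA _ _
  have := tr_nonneg hA
  unfold Ph
  simpa using this

/-- the contradiction at a minimiser -/
theorem rz_aux {a : ℝ} (ha : 1 ≤ a) (h : RR X (a - 1)) {w : X → ℝ} {U : X → X → ℝ}
    (hA : Adm w U) (hZ : Zf a w U = 0) (hv2 : ms w - a < 2) {l : ℝ} (hl : 0 < l)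
    (hvert : ∀ x, 0 < w x → 3 * Zx a w U x = 2 * l * (nn w U x + 1 - (ms w - a)))
    (hedge : ∀ x y, 0 < w x → 0 < w y → 0 < U x y → co w U x y - a ≤ l / 3) :
    0 ≤ Ph a w U := by
  set v := ms w - a with hv
  have hsum : ∑ x, w x * (nn w U x + 1 - v) = (2 - v) * (a + 1) := by
    have h1 := Zf_eq a (w := w) (U := U)
    rw [hZ] at h1
    have h2 : ∑ x, w x * (nn w U x + 1 - v) =
        ∑ x, w x * (nn w U x - 1) + (2 - v) * ms w := by
      unfold ms
      rw [Finset.mul_sum, ← Finset.sum_add_distrib]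
      refine Finset.sum_congr rfl fun i _ => ?_
      ring
    rw [h2]
    have h3 : ms w = v + a := by rw [hv]; ring
    rw [h3]
    linear_combination -h1
  have hpos : 0 < (2 - v) * (a + 1) := mul_pos (by linarith) (by linarith)
  obtain ⟨x, -, hx⟩ : ∃ x ∈ Finset.univ, 0 < w x * (nn w U x + 1 - v) := by
    by_contra hcon
    push Not at hcon
    have := Finset.sum_nonpos hcon
    linarith
  have hwx : 0 < w x := by
    rcases (hA.w0 x).lt_or_eq with h1 | h1
    · exact h1
    · rw [← h1, zero_mul] at hx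
      exact absurd hx (lt_irrefl _)
  have hp : 0 < nn w U x + 1 - v := pos_of_mul_pos_right hx hwx.le
  set p := nn w U x + 1 - v with hpdef
  have hZx := hvert x hwx
  have hZx0 : 0 < Zx a w U x := by nlinarith [mul_pos hl hp]
  have hR := Rprime (a := a - 1) (by linarith) h (hA.nb x) (by rw [Zf_nb]; exact hZx0.le) (by
    rw [ms_nb]
    have := nn_eq (w := w) (U := U) x
    linarith)
  rw [Zf_nb, ms_nb] at hR
  have hdg : 2 - (dg w U x - (a - 1)) = p := by
    have := nn_eq (w := w) (U := U) x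
    rw [hpdef, hv]
    linarith
  rw [hdg] at hR
  have hPhnb : -((a - 1) / (3 * a)) * l ^ 2 * p ≤ Ph (a - 1) (nb w U x) U := by
    have hZxe : Zx a w U x = 2 * l * p / 3 := by linarith
    rw [hZxe] at hR
    have e : -(3 * (a - 1) / (4 * (a - 1 + 1))) * (2 * l * p / 3) ^ 2 =
        p * (-((a - 1) / (3 * a)) * l ^ 2 * p) := by
      have : a ≠ 0 := by positivity
      have h2 : a - 1 + 1 = a := by ring
      rw [h2]
      field_simp
      ring
    rw [e] at hR
    exact le_of_mul_le_mul_left hR hp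
  have hPID := PID a (w := w) hA.sym x
  have hE1 := E1 a (w := w) hA.sym x
  rw [hZ] at hE1
  have hs1 : 3 * ∑ z, (1 - U x z) * w z * Zx a w U z =
      2 * l * ∑ z, (1 - U x z) * w z * (nn w U z + 1 - v) := by
    rw [Finset.mul_sum, Finset.mul_sum]
    refine Finset.sum_congr rfl fun z _ => ?_
    rcases (hA.w0 z).lt_or_eq with h1 | h1
    · have := hvert z h1
      linear_combination (1 - U x z) * w z * this
    · rw [← h1]; ring
  have hs2 : -(l / 3) * ex w U x ≤
      ∑ y, ∑ z, (1 - U x y) * (1 - U x z) * U y z * (a - co w U y z) * w y * w z := by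
    unfold ex
    rw [Finset.mul_sum]
    refine Finset.sum_le_sum fun y _ => ?_
    rw [Finset.mul_sum]
    refine Finset.sum_le_sum fun z _ => ?_
    have hy0 := hA.w0 y
    have hz0 := hA.w0 z
    have hu0 := hA.u0 y z
    have hxy : 0 ≤ 1 - U x y := by linarith [hA.u1 x y]
    have hxz : 0 ≤ 1 - U x z := by linarith [hA.u1 x z]
    have hcoef : 0 ≤ (1 - U x y) * (1 - U x z) * U y z * w y * w z := by positivity
    by_cases hyz : 0 < w y ∧ 0 < w z ∧ 0 < U y z
    · have h1 := hedge y z hyz.1 hyz.2.1 hyz.2.2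
      have h2 : 0 ≤ (a - co w U y z) + l / 3 := by linarith
      nlinarith [mul_nonneg hcoef h2]
    · have h0 : U y z * w y * w z = 0 := by
        by_contra hne
        apply hyz
        have h1 : w y ≠ 0 := fun h => hne (by rw [h]; ring)
        have h2 : w z ≠ 0 := fun h => hne (by rw [h]; ring)
        have h3 : U y z ≠ 0 := fun h => hne (by rw [h]; ring)
        exact ⟨lt_of_le_of_ne hy0 (Ne.symm h1), lt_of_le_of_ne hz0 (Ne.symm h2),
          lt_of_le_of_ne hu0 (Ne.symm h3)⟩
      have e1 : -(l / 3) * ((1 - U x y) * (1 - U x z) * U y z * w y * w z) =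
          -(l / 3) * ((1 - U x y) * (1 - U x z)) * (U y z * w y * w z) := by ring
      have e2 : (1 - U x y) * (1 - U x z) * U y z * (a - co w U y z) * w y * w z =
          (1 - U x y) * (1 - U x z) * (a - co w U y z) * (U y z * w y * w z) := by ring
      rw [e1, e2, h0]
      simp
  have htr := tr_nonneg (hA.an x)
  have hlow : l ^ 2 * p * ((a + 1) / (3 * a)) ≤ Ph a w U := by
    have e : l ^ 2 * p * ((a + 1) / (3 * a)) =
        -((a - 1) / (3 * a)) * l ^ 2 * p + l * (2 * l * p / 3) := by
      have : a ≠ 0 := by positivity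
      field_simp
      ring
    rw [e]
    have hZxe : Zx a w U x = 2 * l * p / 3 := by linarith
    have h1 : 3 * Zx a w U x - 3 * ∑ z, (1 - U x z) * w z * Zx a w U z =
        l * (ex w U x + Zx a w U x) := by
      rw [hs1, hZx]
      linear_combination (-l) * hE1
    rw [← hZxe]
    nlinarith [hPID, hs2, htr, h1, hPhnb]
  refine le_trans ?_ hlow
  have : 0 ≤ (a + 1) / (3 * a) := by positivity
  positivity

theorem RR_step {a : ℝ} (ha : 1 ≤ a) (h : RR X (a - 1)) : RR X a := by
  intro w U hA hZ hv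
  by_contra hneg
  push Not at hneg
  have hPH := PH a (w := w) hA.sym
  rw [hZ] at hPH
  have hn1 : 0 ≤ ∑ x, w x * (nn w U x - 1) ^ 2 :=
    Finset.sum_nonneg fun i _ => mul_nonneg (hA.w0 i) (sq_nonneg _)
  have hn2 : 0 ≤ ∑ x, w x * ex w U x :=
    Finset.sum_nonneg fun i _ => mul_nonneg (hA.w0 i) (ex_nonneg hA i)
  have hv1 : 1 ≤ ms w - a := by
    by_contra hlt
    push Not at hlt
    have : 0 ≤ (1 - (ms w - a)) * (2 - (ms w - a)) ^ 2 := mul_nonneg (by linarith) (sq_nonneg _)
    nlinarith
  obtain ⟨w', U', hmin⟩ := exists_minR ha (w1 := w) (U1 := U) ⟨hA, hZ, hv1, hv⟩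
  have hneg' : Ph a w' U' < 0 := lt_of_le_of_lt (hmin.2 w U ⟨hA, hZ, hv1, hv⟩) hneg
  obtain ⟨h1, h2, l, hl, hvert, hedge⟩ := kktR ha hmin hneg'
  have hlpos : 0 < l := by
    by_contra hl0
    push Not at hl0
    have : 0 ≤ (2 - (ms w' - a)) * (a + 1) := mul_nonneg (by linarith) (by linarith)
    nlinarith [mul_nonneg (neg_nonneg.2 hl0) this]
  have := rz_aux ha h hmin.1.1 hmin.1.2.1 h2 hlpos hvert hedge
  linarith

theorem RR_nat (a : ℕ) : RR X a := by
  induction a with
  | zero => simpa using RR_zero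
  | succ n ih =>
    apply RR_step
    · push_cast
      linarith [(Nat.cast_nonneg n : (0:ℝ) ≤ n)]
    · simpa using ih

end LibTri47
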