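import Pool.Agent.LibTri47.SMin
import Pool.Agent.LibTri47.Razb

set_option autoImplicit false

/-! # From the constrained form to the main inequality by scaling -/

namespace LibTri47

open Finset

variable {X : Type} [Fintype X]

/-- weights divided by `c` -/
noncomputable def scw (w : X → ℝ) (c : ℝ) : X → ℝ := fun i => w i / c

omit [Fintype X] in
theorem scale_adm {w : X → ℝ} {U : X → X → ℝ} (h : Adm w U) {c : ℝ} (hc : 0 < c) :
    Adm (scw w c) U := by
  refine ⟨fun i => ?_, h.sym, h.u0, h.u1⟩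
  exact div_nonneg (h.w0 i) hc.le

theorem scale_ms (w : X → ℝ) {c : ℝ} (hc : 0 < c) : c * ms (scw w c) = ms w := by
  unfold ms scw
  rw [Finset.mul_sum]
  exact Finset.sum_congr rfl fun i _ => by field_simp

theorem scale_ed (w : X → ℝ) (U : X → X → ℝ) {c : ℝ} (hc : 0 < c) :
    c ^ 2 * ed (scw w c) U = ed w U := by
  unfold ed scw
  rw [Finset.mul_sum]
  refine Finset.sum_congr rfl fun i _ => ?_
  rw [Finset.mul_sum]
  exact Finset.sum_congr rfl fun j _ => by field_simp

theorem scale_tr (w : X → ℝ) (U : X → X → ℝ) {c : ℝ} (hc : 0 < c) :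
    c ^ 3 * tr (scw w c) U = tr w U := by
  unfold tr scw
  rw [Finset.mul_sum]
  refine Finset.sum_congr rfl fun i _ => ?_
  rw [Finset.mul_sum]
  refine Finset.sum_congr rfl fun j _ => ?_
  rw [Finset.mul_sum]
  exact Finset.sum_congr rfl fun k _ => by field_simp

theorem scale_nn (w : X → ℝ) (U : X → X → ℝ) {c : ℝ} (hc : 0 < c) (x : X) :
    c * nn (scw w c) U x = nn w U x := by
  unfold nn scw
  rw [Finset.mul_sum]
  exact Finset.sum_congr rfl fun i _ => by field_simp

/-- `Φ^c - Φ` -/
theorem scale_Ph (a : ℝ) (w : X → ℝ) (U : X → X → ℝ) {s : ℝ} (hs : 0 < 1 + s) :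
    (1 + s) ^ 3 * Ph a (scw w (1 + s)) U = Ph a w U +
      3 * a * (Zf a w U * s - (a + 1) * (2 - (ms w - a)) * s ^ 2 -
        (a + 1) * (a + 2) * s ^ 3 / 3) := by
  have h1 := scale_ms w hs
  have h2 := scale_ed w U hs
  have h3 := scale_tr w U hs
  unfold Ph Zf
  rw [← h1, ← h2, ← h3]
  ring

/-- `Z^c` -/
theorem scale_Zf (a : ℝ) (w : X → ℝ) (U : X → X → ℝ) {s : ℝ} (hs : 0 < 1 + s) :
    (1 + s) ^ 2 * Zf a (scw w (1 + s)) U = Zf a w U -
      2 * (a + 1) * (2 - (ms w - a)) * s - (a + 1) * (a + 2) * s ^ 2 := by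
  have h1 := scale_ms w hs
  have h2 := scale_ed w U hs
  unfold Zf
  rw [← h1, ← h2]
  ring

/-- `J(l) = ∑ w (n - l)₊²` -/
noncomputable def scJ (w : X → ℝ) (U : X → X → ℝ) (l : ℝ) : ℝ :=
  ∑ x, w x * max 0 (nn w U x - l) ^ 2

theorem scale_Y2 (w : X → ℝ) (U : X → X → ℝ) {c l : ℝ} (hc : 0 < c) (hl : l < c) :
    c * (c - l) ^ 2 * Y2 ((c - l) / c) (scw w c) U = scJ w U l := by
  unfold Y2 scJ
  rw [Finset.mul_sum]
  refine Finset.sum_congr rfl fun x _ => ?_
  have hd : 0 < c - l := by linarith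
  have h1 : yy ((c - l) / c) (scw w c) U x = max 0 ((nn w U x - l) / (c - l)) := by
    unfold yy
    congr 1
    rw [← scale_nn w U hc x]
    field_simp
    ring
  have h2 : max 0 (nn w U x - l) = (c - l) * max 0 ((nn w U x - l) / (c - l)) := by
    rw [mul_max_of_nonneg _ _ hd.le, mul_zero, mul_div_cancel₀ _ hd.ne']
  rw [h1, h2]
  unfold scw
  field_simp

theorem scale_J (w : X → ℝ) (U : X → X → ℝ) {K : ℝ} (hK : 0 < K) :
    scJ w U (1 - K) = K ^ 2 * Y2 K w U := by
  unfold Y2 scJ yy
  rw [Finset.mul_sum]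
  refine Finset.sum_congr rfl fun x _ => ?_
  have h2 : max 0 (nn w U x - (1 - K)) = K * max 0 ((nn w U x - 1 + K) / K) := by
    rw [mul_max_of_nonneg _ _ hK.le, mul_zero, mul_div_cancel₀ _ hK.ne']
    congr 1
    ring
  rw [h2]
  ring

theorem SS_of_SC {a : ℝ} (ha : 1 ≤ a) (hR : RR X a) (h : SC X a) : SS X a := by
  intro w U K hA hK hK1 hZ hv
  have hY0 : 0 ≤ Y2 K w U := Finset.sum_nonneg fun x _ => mul_nonneg (hA.w0 x) (sq_nonneg _)
  have hms0 : 0 ≤ ms w := Finset.sum_nonneg fun x _ => hA.w0 x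
  have hK2 : 0 < K + 2 := by linarith
  have ha0 : 0 < a := by linarith
  -- the scale
  obtain ⟨e, he⟩ : ∃ e, e = K / (K + 2) * (Y2 K w U - a) / a := ⟨_, rfl⟩
  have hea : a * e * (K + 2) = K * (Y2 K w U - a) := by
    rw [he]; field_simp
  have helow : -K ≤ e * (K + 2) := by
    have : a * (-K) ≤ a * (e * (K + 2)) := by nlinarith
    exact le_of_mul_le_mul_left this ha0
  have he3 : -(1 / 3) < e := by nlinarith
  have hgoal : 3 * (K / (K + 2)) * Zf a w U * (Y2 K w U - a) = 3 * a * e * Zf a w U := by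
    rw [he]; field_simp
  rw [hgoal]
  have hc0 : 0 < 1 + e := by linarith
  have hKe : 0 < K + e := by
    nlinarith
  set Z := Zf a w U with hZdef
  set v := ms w - a with hvdef
  -- the constraint at every larger scale
  have hJ : scJ w U (1 - K) ≤ a * ((1 + e) * (K + e) ^ 2) := by
    rw [scale_J w U hK]
    have h1 : K ^ 2 * Y2 K w U = a * (K ^ 2 + K * (K + 2) * e) := by
      have : K * (Y2 K w U - a) * K = a * e * (K + 2) * K := by rw [hea]
      linarith
    rw [h1]
    apply mul_le_mul_of_nonneg_left _ ha0.le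
    have : 0 ≤ e ^ 2 * (2 * K + 1 + e) := mul_nonneg (sq_nonneg _) (by linarith)
    nlinarith
  have hY : ∀ s, e ≤ s → Y2 ((K + s) / (1 + s)) (scw w (1 + s)) U ≤ a := by
    intro s hs
    have hs0 : 0 < 1 + s := by linarith
    have hKs : 0 < K + s := by linarith
    have h1 := scale_Y2 w U (c := 1 + s) (l := 1 - K) hs0 (by linarith)
    have e1 : 1 + s - (1 - K) = K + s := by ring
    rw [e1] at h1
    have h2 : (1 + e) * (K + e) ^ 2 ≤ (1 + s) * (K + s) ^ 2 := by
      apply mul_le_mul (by linarith) _ (by positivity) hs0.le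
      exact pow_le_pow_left₀ hKe.le (by linarith) 2
    have h3 : (1 + s) * (K + s) ^ 2 * Y2 ((K + s) / (1 + s)) (scw w (1 + s)) U ≤
        (1 + s) * (K + s) ^ 2 * a := by
      rw [h1]
      refine hJ.trans ?_
      rw [mul_comm]
      exact mul_le_mul_of_nonneg_right h2 ha0.le
    exact le_of_mul_le_mul_left h3 (by positivity)
  -- use of `SC` at scale `1 + s`
  have hSC : ∀ s, e ≤ s → 0 ≤ Zf a (scw w (1 + s)) U → 0 ≤ (1 + s) ^ 3 * Ph a (scw w (1 + s)) U := by
    intro s hs hZs
    have hs0 : 0 < 1 + s := by linarith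
    have hKs : 0 < K + s := by linarith
    refine mul_nonneg (by positivity) (h _ _ ((K + s) / (1 + s)) (scale_adm hA hs0) (by positivity)
      ?_ (hY s hs) hZs)
    rw [div_lt_one hs0]
    linarith
  have ha1 : 0 < a + 1 := by linarith
  have ha2 : 0 < a + 2 := by linarith
  rcases le_or_gt 0 e with he0 | he0
  · -- `c ≥ 1`
    by_cases hZc : 0 ≤ Zf a (scw w (1 + e)) U
    · have h1 := hSC e le_rfl hZc
      rw [scale_Ph a w U hc0] at h1
      have h2 : 0 ≤ 3 * a * ((a + 1) * (2 - v) * e ^ 2) := by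
        have : 0 ≤ 2 - v := by linarith
        positivity
      have h3 : 0 ≤ 3 * a * ((a + 1) * (a + 2) * e ^ 3 / 3) := by positivity
      linarith
    · -- the root in `[0, e]`
      push Not at hZc
      have hcont : ContinuousOn (fun s : ℝ => Z - 2 * (a + 1) * (2 - v) * s -
          (a + 1) * (a + 2) * s ^ 2) (Set.Icc 0 e) := by fun_prop
      have hE := scale_Zf a w U hc0
      have hneg : Z - 2 * (a + 1) * (2 - v) * e - (a + 1) * (a + 2) * e ^ 2 < 0 := by
        rw [← hE]
        exact mul_neg_of_pos_of_neg (by positivity) hZc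
      obtain ⟨s, hs, hs2⟩ := intermediate_value_Icc' he0 hcont
        (show (0 : ℝ) ∈ Set.Icc _ _ from ⟨hneg.le, by simpa using hZ⟩)
      simp only at hs2
      have hs0 : 0 < 1 + s := by linarith [hs.1]
      have hZs : Zf a (scw w (1 + s)) U = 0 := by
        have h4 := scale_Zf a w U hs0
        rw [← hZdef, ← hvdef, hs2] at h4
        rcases mul_eq_zero.1 h4 with h5 | h5
        · exact absurd h5 (by positivity)
        · exact h5
      have hms : ms (scw w (1 + s)) - a ≤ 2 := by
        have h4 := scale_ms w hs0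
        have h5 : ms (scw w (1 + s)) ≤ ms w := by
          have h6 : 0 ≤ ms (scw w (1 + s)) :=
            Finset.sum_nonneg fun x _ => (scale_adm hA hs0).w0 x
          nlinarith [hs.1]
        linarith
      have h1 : 0 ≤ (1 + s) ^ 3 * Ph a (scw w (1 + s)) U :=
        mul_nonneg (by positivity) (hR _ _ (scale_adm hA hs0) hZs hms)
      rw [scale_Ph a w U hs0] at h1
      have hs1 := hs.1
      have h2 : 0 ≤ 3 * a * ((a + 1) * (2 - v) * s ^ 2) := by
        have : 0 ≤ 2 - v := by linarith
        positivity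
      have h3 : 0 ≤ 3 * a * ((a + 1) * (a + 2) * s ^ 3 / 3) := by positivity
      have h4 : 3 * a * (Z * s) ≤ 3 * a * (Z * e) :=
        mul_le_mul_of_nonneg_left (mul_le_mul_of_nonneg_left hs.2 hZ) (by positivity)
      linarith
  · -- `c < 1`
    have hvc : -e * (a + 2) ≤ 2 - v := by
      by_contra hcon
      push Not at hcon
      -- the scale at which the mass is `a + 2`
      obtain ⟨s, hs⟩ : ∃ s, s = ms w / (a + 2) - 1 := ⟨_, rfl⟩
      have hms : ms w = (1 + s) * (a + 2) := by rw [hs]; field_simp; ring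
      have hse : e < s := by
        have : (e - s) * (a + 2) < 0 := by
          rw [hvdef, hms] at hcon
          nlinarith
        nlinarith
      have hs0 : 0 < 1 + s := by linarith
      have hs1 : s ≤ 0 := by
        have : s * (a + 2) ≤ 0 := by
          rw [hvdef, hms] at hv
          nlinarith
        nlinarith
      have hKs : 0 < K + s := by linarith
      have hZs : 0 ≤ Zf a (scw w (1 + s)) U := by
        have h4 := scale_Zf a w U hs0
        have h5 : 2 - (ms w - a) = -((a + 2) * s) := by rw [hms]; ring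
        rw [h5] at h4
        have h6 : 0 ≤ (1 + s) ^ 2 * Zf a (scw w (1 + s)) U := by
          rw [h4]
          have : 0 ≤ (a + 1) * (a + 2) * s ^ 2 := by positivity
          nlinarith
        exact nonneg_of_mul_nonneg_right h6 (by positivity)
      have h7 := (feas_v ha0.le (scale_adm hA hs0) (K := (K + s) / (1 + s)) (by positivity)
        (by rw [div_le_one hs0]; linarith) (hY s hse.le) hZs).2.1
      have h8 := scale_ms w hs0
      rw [hms] at h8
      have h9 : ms (scw w (1 + s)) = a + 2 := mul_left_cancel₀ hs0.ne' h8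
      rw [h9] at h7
      linarith
    have hZs : 0 ≤ Zf a (scw w (1 + e)) U := by
      have h4 := scale_Zf a w U hc0
      rw [← hZdef, ← hvdef] at h4
      have h6 : 0 ≤ (1 + e) ^ 2 * Zf a (scw w (1 + e)) U := by
        rw [h4]
        have h5 : 0 ≤ (a + 1) * (-e) * (2 * (2 - v) + (a + 2) * e) := by
          apply mul_nonneg (mul_nonneg ha1.le (by linarith))
          have h7 : 0 ≤ -e * (a + 2) := mul_nonneg (by linarith) ha2.le
          linarith
        linarith
      exact nonneg_of_mul_nonneg_right h6 (by positivity)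
    have h1 := hSC e le_rfl hZs
    rw [scale_Ph a w U hc0, ← hZdef, ← hvdef] at h1
    have h2 : 0 ≤ 3 * a * (a + 1) * e ^ 2 * ((2 - v) + (a + 2) * e / 3) := by
      apply mul_nonneg (by positivity)
      have h7 : 0 ≤ -e * (a + 2) := mul_nonneg (by linarith) ha2.le
      linarith
    linarith

end LibTri47
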