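import Pool.Agent.LibTri47.NoMin
import Pool.Agent.LibTri47.Scale

set_option autoImplicit false

/-! # The main inequality -/

namespace LibTri47

open Finset

variable {X : Type} [Fintype X]

theorem SS_zero : SS X 0 := by
  intro w U K hA hK _ hZ _
  have h1 := tr_nonneg hA
  have h2 : 0 ≤ Y2 K w U := Finset.sum_nonneg fun x _ => mul_nonneg (hA.w0 x) (sq_nonneg _)
  have h3 : Ph 0 w U = tr w U := by unfold Ph; ring
  rw [h3, sub_zero]
  positivity

theorem SC_step {a : ℝ} (ha : 1 ≤ a) (hR : RR X a) (hS : SS X (a - 1)) : SC X a := by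
  by_contra hc
  obtain ⟨K, m, w, U, hg⟩ := exists_good ha hR hc
  exact no_good ha hS hg

theorem SS_nat (a : ℕ) : SS X a := by
  induction a with
  | zero => simpa using SS_zero
  | succ n ih =>
    have h1 : (1 : ℝ) ≤ ((n + 1 : ℕ) : ℝ) := by
      push_cast
      linarith [(Nat.cast_nonneg n : (0:ℝ) ≤ n)]
    apply SS_of_SC h1 (RR_nat (n + 1))
    apply SC_step h1 (RR_nat (n + 1))
    simpa using ih

end LibTri47
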