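import Pool.Agent.LibTri47.Graph

set_option autoImplicit false

/-! # The near regular sheet: the upper bound -/

namespace LibTri47

open Finset LibProf47

/-- The admissible sizes `c` of the large cliques; here `a = kk p - 1`. -/
def Cset (p q : ℝ) : Set ℝ :=
  {c | p ≤ c ∧ c ≤ cc p ∧ (c = cc p ∨
    (q - p ^ 2) * (1 - ((kk p : ℝ) - 1) * c) ≤ ((kk p : ℝ) - 1) * c * (c - p) ^ 2)}

/-- the triangle density of the near regular extremal graph -/
noncomputable def Tc (p q c : ℝ) : ℝ :=
  1 - 3 * p + 3 * q - (3 * ((kk p : ℝ) - 1) * c * (1 - p) -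
    3 * ((kk p : ℝ) - 1) * (kk p : ℝ) * c ^ 2 +
    ((kk p : ℝ) - 1) * (kk p : ℝ) * ((kk p : ℝ) + 1) * c ^ 3)

/-- elementary facts on `kk p` and `cc p` -/
theorem near_facts {p : ℝ} (hp0 : 0 < p) (hp : p ≤ 1 / 2) :
    2 ≤ (kk p : ℝ) ∧ (kk p : ℝ) * p ≤ 1 ∧ 1 < ((kk p : ℝ) + 1) * p ∧
    (kk p : ℝ) * ((kk p : ℝ) + 1) * cc p ^ 2 - 2 * (kk p : ℝ) * cc p + (1 - p) = 0 ∧
    1 < ((kk p : ℝ) + 1) * cc p ∧ (kk p : ℝ) * cc p ≤ 1 ∧ p ≤ cc p := by
  have h1 : (2 : ℝ) ≤ 1 / p := by
    rw [le_div_iff₀ hp0]; linarith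
  have hk2 : (2 : ℝ) ≤ (kk p : ℝ) := by
    have : 2 ≤ ⌊1 / p⌋₊ := Nat.le_floor (by exact_mod_cast h1)
    exact_mod_cast this
  have hkp : (kk p : ℝ) * p ≤ 1 := by
    have : ((⌊1 / p⌋₊ : ℕ) : ℝ) ≤ 1 / p := Nat.floor_le (by positivity)
    rw [le_div_iff₀ hp0] at this
    exact this
  have hkp1 : 1 < ((kk p : ℝ) + 1) * p := by
    have : 1 / p < (⌊1 / p⌋₊ : ℝ) + 1 := Nat.lt_floor_add_one _
    rw [div_lt_iff₀ hp0] at this
    exact this
  set k : ℝ := (kk p : ℝ) with hk
  have hk0 : 0 < k := by linarith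
  set s : ℝ := k * ((k + 1) * p - 1) with hs
  have hs0 : 0 < s := mul_pos hk0 (by linarith)
  have hs1 : s ≤ 1 := by
    have : s = (k + 1) * (k * p) - k := by rw [hs]; ring
    rw [this]; nlinarith
  have hr0 : 0 < √s := Real.sqrt_pos.2 hs0
  have hr2 : √s ^ 2 = s := Real.sq_sqrt hs0.le
  have hr1 : √s ≤ 1 := by
    rw [← Real.sqrt_one]; exact Real.sqrt_le_sqrt hs1
  have hcc : cc p * (k * (k + 1)) = k + √s := by
    unfold cc
    rw [← hk, ← hs, div_mul_cancel₀]
    positivity
  have hkk : 0 < k * (k + 1) := by positivity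
  refine ⟨hk2, hkp, hkp1, ?_, ?_, ?_, ?_⟩
  · have h2 : (k * (k + 1)) * (k * (k + 1) * cc p ^ 2 - 2 * k * cc p + (1 - p)) = 0 := by
      have h3 : (k * (k + 1)) * (k * (k + 1) * cc p ^ 2 - 2 * k * cc p + (1 - p)) =
          (cc p * (k * (k + 1))) ^ 2 - 2 * k * (cc p * (k * (k + 1))) +
            k * (k + 1) * (1 - p) := by ring
      rw [h3, hcc]
      have h4 : (k + √s) ^ 2 - 2 * k * (k + √s) + k * (k + 1) * (1 - p) =
          √s ^ 2 - k ^ 2 + k * (k + 1) * (1 - p) := by ring
      rw [h4, hr2, hs]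
      ring
    exact (mul_eq_zero.1 h2).resolve_left hkk.ne'
  · have h2 : k * 1 < k * ((k + 1) * cc p) := by
      have : k * ((k + 1) * cc p) = cc p * (k * (k + 1)) := by ring
      rw [this, hcc]; linarith
    exact lt_of_mul_lt_mul_left h2 hk0.le
  · have h2 : (k + 1) * (k * cc p) ≤ (k + 1) * 1 := by
      have : (k + 1) * (k * cc p) = cc p * (k * (k + 1)) := by ring
      rw [this, hcc]; linarith
    exact le_of_mul_le_mul_left h2 (by linarith)
  · have h2 : p * (k * (k + 1)) ≤ cc p * (k * (k + 1)) := by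
      rw [hcc]
      have h3 : p * (k * (k + 1)) = k + s := by rw [hs]; ring
      rw [h3]
      nlinarith
    exact le_of_mul_le_mul_right h2 hkk

/-- existence of the least admissible size -/
theorem exists_c {p q : ℝ} (hp0 : 0 < p) (hp : p ≤ 1 / 2) :
    ∃ c : ℝ, IsLeast (Cset p q) c := by
  obtain ⟨-, -, -, -, -, -, hpc⟩ := near_facts hp0 hp
  have hclosed : IsClosed (Cset p q) := by
    have h1 : Cset p q = Set.Ici p ∩ (Set.Iic (cc p) ∩ ({cc p} ∪
        {c | (q - p ^ 2) * (1 - ((kk p : ℝ) - 1) * c) ≤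
          ((kk p : ℝ) - 1) * c * (c - p) ^ 2})) := by
      ext c
      simp [Cset]
    rw [h1]
    refine isClosed_Ici.inter (isClosed_Iic.inter (isClosed_singleton.union ?_))
    exact isClosed_le (by fun_prop) (by fun_prop)
  have hcomp : IsCompact (Cset p q) :=
    (isCompact_Icc (a := p) (b := cc p)).of_isClosed_subset hclosed fun c hc => ⟨hc.1, hc.2.1⟩
  exact hcomp.exists_isLeast ⟨cc p, hpc, le_rfl, Or.inl rfl⟩

theorem near_Z_pos {p c : ℝ} (hp0 : 0 < p) (hp : p ≤ 1 / 2) (h1 : 1 < ((kk p : ℝ) + 1) * c)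
    (h2 : c < cc p) : 0 < Zc ((kk p : ℝ) - 1) c p ∧
      (kk p : ℝ) * ((kk p : ℝ) + 1) * c ^ 2 - 2 * (kk p : ℝ) * c + (1 - p) < 0 := by
  obtain ⟨hk2, -, -, hroot, hcc1, -, -⟩ := near_facts hp0 hp
  set k : ℝ := (kk p : ℝ) with hk
  have hk0 : 0 < k := by linarith
  have hc0 : 0 < c := by
    by_contra h
    rw [not_lt] at h
    nlinarith
  have h3 : k * (k + 1) * c ^ 2 - 2 * k * c + (1 - p) < 0 := by
    have h4 : k * (k + 1) * c ^ 2 - 2 * k * c + (1 - p) =
        k * (c - cc p) * ((k + 1) * (c + cc p) - 2) := by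
      linear_combination hroot
    rw [h4]
    have h5 : 0 < (k + 1) * (c + cc p) - 2 := by
      have : (k + 1) * (c + cc p) = (k + 1) * c + (k + 1) * cc p := by ring
      linarith
    have h6 : k * (c - cc p) < 0 := mul_neg_of_pos_of_neg hk0 (by linarith)
    exact mul_neg_of_neg_of_pos h6 h5
  refine ⟨?_, h3⟩
  have h7 : Zc (k - 1) c p = -(k * (k + 1) * c ^ 2 - 2 * k * c + (1 - p)) / c ^ 2 := by
    unfold Zc
    field_simp
    ring
  rw [h7]
  exact div_pos (by linarith) (by positivity)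

theorem near_Ph_iff {p q t c : ℝ} (hc0 : 0 < c) (h : 0 ≤ Phc ((kk p : ℝ) - 1) c p q t) :
    t ≤ Tc p q c := by
  have h1 : Phc ((kk p : ℝ) - 1) c p q t * c ^ 3 = Tc p q c - t := by
    unfold Phc Tc
    field_simp
    ring
  have h2 : 0 ≤ Phc ((kk p : ℝ) - 1) c p q t * c ^ 3 := by positivity
  linarith

/-- the upper bound for the triangle density in the near regular part -/
theorem near_bound {p q t : ℝ} (hp0 : 0 < p) (hp : p ≤ 1 / 2) (h : pt p q t ∈ Profile)
    (hq : p ^ 2 ≤ q) {c : ℝ} (hc : c ∈ Cset p q) : t ≤ Tc p q c := by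
  obtain ⟨hk2, hkp, hkp1, hroot, hcc1, hkc, hpc⟩ := near_facts hp0 hp
  have hk1 : 1 ≤ kk p := by
    have : (1 : ℝ) ≤ (kk p : ℝ) := by linarith
    exact_mod_cast this
  have hcast : ((kk p - 1 : ℕ) : ℝ) = (kk p : ℝ) - 1 := by
    push_cast [Nat.cast_sub hk1]
    ring
  have hineq : ∀ c' K : ℝ, 1 < ((kk p : ℝ) + 1) * c' → c' < cc p → 0 < K → K < 1 →
      0 ≤ Phc ((kk p : ℝ) - 1) c' p q t + 3 / (K * (K + 2)) * Zc ((kk p : ℝ) - 1) c' p *
        Pen ((kk p : ℝ) - 1) c' K p q := by
    intro c' K h1 h2 hK hK1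
    have hc0 : 0 < c' := by
      by_contra hn
      rw [not_lt] at hn
      nlinarith
    have h3 := prof_ineq h (kk p - 1) hc0 hK hK1 (by
      rw [hcast]
      have : 1 / c' ≤ (kk p : ℝ) + 1 := by
        rw [div_le_iff₀ hc0]
        exact h1.le
      linarith) (by rw [hcast]; exact (near_Z_pos hp0 hp h1 h2).1)
    rwa [hcast] at h3
  obtain ⟨hc1, hc2, hc3⟩ := hc
  have hcpos : 0 < c := hp0.trans_le hc1
  set k : ℝ := (kk p : ℝ) with hk
  have hk0 : 0 < k := by linarith
  rcases eq_or_lt_of_le hc2 with heq | hlt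
  · -- the end point
    rw [heq]
    have hccpos : 0 < cc p := hp0.trans_le hpc
    have hccne : cc p ≠ 0 := hccpos.ne'
    apply near_Ph_iff hccpos
    have hZ0 : Zc (k - 1) (cc p) p = 0 := by
      have h7 : Zc (k - 1) (cc p) p =
          -(k * (k + 1) * cc p ^ 2 - 2 * k * cc p + (1 - p)) / cc p ^ 2 := by
        unfold Zc
        field_simp
        ring
      rw [h7, hroot]
      simp
    have hcont : ContinuousAt (fun c' : ℝ => Phc (k - 1) c' p q t +
        3 / ((1 / 2 : ℝ) * (1 / 2 + 2)) * Zc (k - 1) c' p * Pen (k - 1) c' (1 / 2) p q)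
        (cc p) := by
      unfold Phc Zc Pen
      have e1 : cc p ^ 2 ≠ 0 := pow_ne_zero 2 hccne
      have e2 : cc p ^ 3 ≠ 0 := pow_ne_zero 3 hccne
      fun_prop (disch := assumption)
    have hlim := (hcont.tendsto.mono_left
      (nhdsWithin_le_nhds (s := Set.Iio (cc p)))).congr' (Filter.EventuallyEq.refl _ _)
    have hev : ∀ᶠ c' in nhdsWithin (cc p) (Set.Iio (cc p)),
        0 ≤ Phc (k - 1) c' p q t +
        3 / ((1 / 2 : ℝ) * (1 / 2 + 2)) * Zc (k - 1) c' p * Pen (k - 1) c' (1 / 2) p q := by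
      have h8 : ∀ᶠ c' in nhds (cc p), 1 < (k + 1) * c' := by
        have : ContinuousAt (fun c' : ℝ => (k + 1) * c') (cc p) := by fun_prop
        exact this.eventually_const_lt hcc1
      filter_upwards [self_mem_nhdsWithin, nhdsWithin_le_nhds h8] with c' h9 h10
      exact hineq c' (1 / 2) h10 h9 (by norm_num) (by norm_num)
    have h11 := ge_of_tendsto hlim hev
    rw [hZ0, mul_zero, zero_mul, add_zero] at h11
    exact h11
  · have h1c : 1 < (k + 1) * c := by nlinarith
    obtain ⟨hZ, hquad⟩ := near_Z_pos hp0 hp h1c hlt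
    rw [← hk] at hZ hquad
    have hac : (k - 1) * c < 1 := by nlinarith
    have hcond : (q - p ^ 2) * (1 - (k - 1) * c) ≤ (k - 1) * c * (c - p) ^ 2 := by
      rcases hc3 with h3 | h3
      · exact absurd h3 hlt.ne
      · exact h3
    apply near_Ph_iff hcpos
    have hPen : ∀ K : ℝ, Pen (k - 1) c K p q * c ^ 3 =
        (q - p ^ 2) + (K * c - (c - p)) ^ 2 - (k - 1) * c * (K * c) ^ 2 := by
      intro K
      unfold Pen
      field_simp
      ring
    rcases eq_or_lt_of_le hc1 with hpc' | hpc'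
    · -- c = p
      subst hpc'
      have hq0 : q - p ^ 2 = 0 := by
        rw [sub_self] at hcond
        have h4 : (q - p ^ 2) * (1 - (k - 1) * p) ≤ 0 := by
          refine hcond.trans (le_of_eq ?_)
          ring
        have h5 : q - p ^ 2 ≤ 0 := by
          by_contra hn
          rw [not_le] at hn
          have := mul_pos hn (show 0 < 1 - (k - 1) * p by linarith)
          linarith
        linarith
      by_contra hneg
      rw [not_le, ← hk] at hneg
      set M : ℝ := Zc (k - 1) p p * ((1 - (k - 1) * p) / p) with hM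
      have hM0 : 0 < M := mul_pos hZ (div_pos (by linarith) hp0)
      set K : ℝ := min (1 / 2) (-Phc (k - 1) p p q t / (3 * (M + 1))) with hK
      have hK0 : 0 < K := by
        rw [hK, lt_min_iff]
        exact ⟨by norm_num, div_pos (by linarith) (by positivity)⟩
      have hK1 : K < 1 := (min_le_left _ _).trans_lt (by norm_num)
      have hK2 : K * (3 * (M + 1)) ≤ -Phc (k - 1) p p q t := by
        rw [← le_div_iff₀ (by positivity)]
        exact min_le_right _ _
      have h6 := hineq p K h1c hlt hK0 hK1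
      have h7 : Pen (k - 1) p K p q = K ^ 2 * ((1 - (k - 1) * p) / p) := by
        have h8 := hPen K
        rw [hq0] at h8
        have h9 : p ^ 3 ≠ 0 := by positivity
        have h10 : Pen (k - 1) p K p q * p ^ 3 =
            (K ^ 2 * ((1 - (k - 1) * p) / p)) * p ^ 3 := by
          rw [h8]
          field_simp
          ring
        exact mul_right_cancel₀ h9 h10
      rw [h7] at h6
      have h8 : 3 / (K * (K + 2)) * Zc (k - 1) p p * (K ^ 2 * ((1 - (k - 1) * p) / p)) =
          3 * K / (K + 2) * M := by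
        rw [hM]
        field_simp
      rw [h8] at h6
      have h9 : 3 * K / (K + 2) * M ≤ 3 * K / 2 * M := by
        apply mul_le_mul_of_nonneg_right _ hM0.le
        apply div_le_div_of_nonneg_left (by positivity) (by norm_num) (by linarith)
      nlinarith
    · -- c > p
      set K : ℝ := (c - p) / (c * (1 - (k - 1) * c)) with hK
      have hden : 0 < c * (1 - (k - 1) * c) := mul_pos hcpos (by linarith)
      have hK0 : 0 < K := div_pos (by linarith) hden
      have hK1 : K < 1 := by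
        rw [hK, div_lt_one hden]
        have h3 : k * (k + 1) * c ^ 2 - 2 * k * c + 1 = k * c ^ 2 + (1 - k * c) ^ 2 := by ring
        nlinarith [sq_nonneg (1 - k * c), sq_nonneg c]
      have h6 := hineq c K h1c hlt hK0 hK1
      rw [← hk]
      have hPen0 : Pen (k - 1) c K p q ≤ 0 := by
        have h7 : K * c * (1 - (k - 1) * c) = c - p := by
          rw [hK]
          have h12 : (c - p) / (c * (1 - (k - 1) * c)) * c * (1 - (k - 1) * c) =
              (c - p) / (c * (1 - (k - 1) * c)) * (c * (1 - (k - 1) * c)) := by ring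
          rw [h12, div_mul_cancel₀ _ hden.ne']
        have h8 : Pen (k - 1) c K p q * c ^ 3 * (1 - (k - 1) * c) =
            (q - p ^ 2) * (1 - (k - 1) * c) - (k - 1) * c * (c - p) ^ 2 := by
          rw [hPen]
          have h9 : ((q - p ^ 2) + (K * c - (c - p)) ^ 2 - (k - 1) * c * (K * c) ^ 2) *
              (1 - (k - 1) * c) = (q - p ^ 2) * (1 - (k - 1) * c) +
                (K * c * (1 - (k - 1) * c)) ^ 2 - 2 * (c - p) * (K * c * (1 - (k - 1) * c)) +
                (c - p) ^ 2 * (1 - (k - 1) * c) := by ring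
          rw [h9, h7]
          ring
        by_contra hn
        rw [not_le] at hn
        have h10 : 0 < Pen (k - 1) c K p q * c ^ 3 * (1 - (k - 1) * c) :=
          mul_pos (mul_pos hn (by positivity)) (by linarith)
        linarith
      have h11 : 3 / (K * (K + 2)) * Zc (k - 1) c p * Pen (k - 1) c K p q ≤ 0 := by
        apply mul_nonpos_of_nonneg_of_nonpos _ hPen0
        exact mul_nonneg (by positivity) hZ.le
      linarith

end LibTri47
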