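import Pool.Agent.LibTri47.Ext

set_option autoImplicit false

/-! # Everything below the near regular sheet is realised by step graphons -/

namespace LibTri47

open Finset LibProf47 Set

/-- the curve parametrised by its first coordinate -/
lemma curve_q {p q Q : ℝ} (hq : p ^ 2 < q) (hQ : q ≤ Q) :
    1 ≤ √((Q - p ^ 2) / (q - p ^ 2)) ∧ cq p q (√((Q - p ^ 2) / (q - p ^ 2))) = Q := by
  have h0 : 0 < q - p ^ 2 := by linarith
  have h1 : 1 ≤ (Q - p ^ 2) / (q - p ^ 2) := by
    rw [le_div_iff₀ h0]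
    linarith
  refine ⟨by rw [Real.one_le_sqrt]; exact h1, ?_⟩
  rw [cq, Real.sq_sqrt (by linarith)]
  field_simp
  ring

theorem near_step_flat {p q t q1 : ℝ} (hp0 : 0 < p) (hp : p ≤ 1 / 2) (hq : p ^ 2 < q)
    (hqq : q ≤ q1) (hq1 : Gq p (cc p) ≤ q1 - p ^ 2) (hqh : q1 ≤ hh p)
    (hF : ct p q t (√((q1 - p ^ 2) / (q - p ^ 2))) ≤ Tc p q1 (cc p))
    (hdir : √(q - p ^ 2) ^ 3 * (hh p - 3 * p * hh p + 2 * p ^ 3) <
      (t - 3 * p * q + 2 * p ^ 3) * √(hh p - p ^ 2) ^ 3) :
    StepPt p q t := by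
  have h0 : 0 < q - p ^ 2 := by linarith
  have hH : 0 ≤ (hh p - p ^ 2) := by linarith
  have hend : hh p ≤ ct p q t (√((hh p - p ^ 2) / (q - p ^ 2))) := by
    rw [ct, Real.sqrt_div hH]
    have hs : 0 < √(q - p ^ 2) := Real.sqrt_pos.2 h0
    have e1 : (√(hh p - p ^ 2) / √(q - p ^ 2)) ^ 2 * (q - p ^ 2) = hh p - p ^ 2 := by
      rw [div_pow, Real.sq_sqrt hH, Real.sq_sqrt h0.le]
      field_simp
    have e2 : hh p - 3 * p * hh p + 2 * p ^ 3 ≤
        (√(hh p - p ^ 2) / √(q - p ^ 2)) ^ 3 * (t - 3 * p * q + 2 * p ^ 3) := by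
      rw [div_pow, div_mul_eq_mul_div, le_div_iff₀ (by positivity)]
      linarith
    rw [e1]
    linarith
  have hcont : Continuous fun Q : ℝ => ct p q t (√((Q - p ^ 2) / (q - p ^ 2))) - Tc p Q (cc p) := by
    unfold ct Tc
    fun_prop
  have hiv := intermediate_value_Icc hqh hcont.continuousOn
  have hmem : (0 : ℝ) ∈ Icc
      ((fun Q : ℝ => ct p q t (√((Q - p ^ 2) / (q - p ^ 2))) - Tc p Q (cc p)) q1)
      ((fun Q : ℝ => ct p q t (√((Q - p ^ 2) / (q - p ^ 2))) - Tc p Q (cc p)) (hh p)) := by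
    constructor
    · simp only
      linarith
    · simp only
      rw [Tc_hh hp0 hp]
      linarith
  obtain ⟨Q, hQ, e⟩ := hiv hmem
  simp only at e
  have hqQ : q ≤ Q := hqq.trans hQ.1
  obtain ⟨c1, c2⟩ := curve_q hq hqQ
  apply step_of_curve c1
  rw [c2]
  have e' : ct p q t (√((Q - p ^ 2) / (q - p ^ 2))) = Tc p Q (cc p) := by linarith
  rw [e']
  apply near_ext hp0 hp (by linarith) hQ.2
  apply least_cc hp0 hp
  have := hQ.1
  linarith

/-- everything below the near regular sheet is realised -/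
theorem near_step {p q t : ℝ} (hp0 : 0 < p) (hp : p ≤ 1 / 2) (hq : p ^ 2 ≤ q) (hqh : q < hh p)
    {c : ℝ} (hc : IsLeast (Cset p q) c) (ht : t ≤ Tc p q c)
    (hdir : √(q - p ^ 2) ^ 3 * (hh p - 3 * p * hh p + 2 * p ^ 3) <
      (t - 3 * p * q + 2 * p ^ 3) * √(hh p - p ^ 2) ^ 3) (hp3 : p ^ 3 < t) :
    StepPt p q t := by
  rcases eq_or_lt_of_le hq with hq0 | hq0
  · -- regular
    subst hq0
    have h1 : 0 < t - p ^ 3 := by linarith
    obtain ⟨s, hs⟩ : ∃ s : ℝ, s = ((Tc p (p ^ 2) c - p ^ 3) / (t - p ^ 3)) ^ ((1 : ℝ) / 3) :=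
      ⟨_, rfl⟩
    have h2 : 1 ≤ (Tc p (p ^ 2) c - p ^ 3) / (t - p ^ 3) := by
      rw [le_div_iff₀ h1]
      linarith
    have hs1 : 1 ≤ s := by
      rw [hs]
      apply Real.one_le_rpow h2
      norm_num
    have hs3 : s ^ 3 = (Tc p (p ^ 2) c - p ^ 3) / (t - p ^ 3) := by
      rw [hs, ← Real.rpow_natCast, ← Real.rpow_mul (by linarith)]
      norm_num
    apply step_of_curve hs1
    have e1 : cq p (p ^ 2) s = p ^ 2 := by
      rw [cq]
      ring
    have e2 : ct p (p ^ 2) t s = Tc p (p ^ 2) c := by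
      rw [ct, hs3]
      field_simp
      ring
    rw [e1, e2]
    exact near_ext hp0 hp le_rfl hqh.le hc
  · obtain ⟨f1, f2, f3, f4⟩ := least_facts hp0 hp hq hc
    have h0 : 0 < q - p ^ 2 := by linarith
    rcases f4 with f4 | f4
    · subst f4
      apply near_step_flat hp0 hp hq0 le_rfl f3 hqh.le _ hdir
      rw [div_self h0.ne', Real.sqrt_one, ct]
      linarith
    · -- on the curved part
      have hq1 : q ≤ p ^ 2 + Gq p (cc p) := by
        have := Gq_le hp0 hp f1 f2 le_rfl
        linarith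
      by_cases hH : ct p q t (√((p ^ 2 + Gq p (cc p) - p ^ 2) / (q - p ^ 2))) ≤
          Tc p (p ^ 2 + Gq p (cc p)) (cc p)
      · apply near_step_flat hp0 hp hq0 hq1 _ _ hH hdir
        · linarith
        · have := Gq_cc_le hp0 hp
          linarith
      · push Not at hH
        have hcont : ContinuousOn (fun x : ℝ =>
            ct p q t (√((p ^ 2 + Gq p x - p ^ 2) / (q - p ^ 2))) - Tc p (p ^ 2 + Gq p x) x)
            (Icc c (cc p)) := by
          have hG : ContinuousOn (Gq p) (Icc c (cc p)) := (Gq_cont hp0 hp).mono fun x hx => hx.2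
          unfold ct Tc
          fun_prop
        have hiv := intermediate_value_Icc f2 hcont
        have hmem : (0 : ℝ) ∈ Icc
            ((fun x : ℝ =>
              ct p q t (√((p ^ 2 + Gq p x - p ^ 2) / (q - p ^ 2))) - Tc p (p ^ 2 + Gq p x) x) c)
            ((fun x : ℝ =>
              ct p q t (√((p ^ 2 + Gq p x - p ^ 2) / (q - p ^ 2))) - Tc p (p ^ 2 + Gq p x) x)
              (cc p)) := by
          constructor
          · simp only
            have e : p ^ 2 + Gq p c = q := by linarith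
            rw [e, div_self h0.ne', Real.sqrt_one, ct]
            linarith
          · simp only
            linarith
        obtain ⟨x, hx, e⟩ := hiv hmem
        simp only at e
        have hpx : p ≤ x := f1.trans hx.1
        have hqx : q ≤ p ^ 2 + Gq p x := by
          have := Gq_le hp0 hp f1 hx.1 hx.2
          linarith
        obtain ⟨c1, c2⟩ := curve_q hq0 hqx
        apply step_of_curve c1
        rw [c2]
        have e' : ct p q t (√((p ^ 2 + Gq p x - p ^ 2) / (q - p ^ 2))) =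
            Tc p (p ^ 2 + Gq p x) x := by linarith
        rw [e']
        apply near_ext hp0 hp
        · have := Gq_nonneg hp0 hp hpx hx.2
          linarith
        · have := Gq_cc_le hp0 hp
          have := Gq_le hp0 hp hpx hx.2 le_rfl
          linarith
        · exact least_curve hp0 hp hpx hx.2

end LibTri47
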