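import Pool.Agent.LibTri47.PairGood

set_option autoImplicit false

namespace LibTri47

open Finset

variable {X : Type} [Fintype X]

/-- symmetrisation of a double sum -/
lemma sum_sym (F : X → X → ℝ) (h : ∀ x y, 0 ≤ F x y + F y x) : 0 ≤ ∑ x, ∑ y, F x y := by
  have h1 : ∑ x, ∑ y, F x y = ∑ x, ∑ y, F y x := sum_comm
  have h2 : 0 ≤ ∑ x, ∑ y, (F x y + F y x) := sum_nonneg fun x _ => sum_nonneg fun y _ => h x y
  simp only [sum_add_distrib] at h2
  linarith

lemma co_comm (w : X → ℝ) (U : X → X → ℝ) (x y : X) : co w U x y = co w U y x := by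
  unfold co
  exact sum_congr rfl fun j _ => by ring

lemma nu_comm (w : X → ℝ) (U : X → X → ℝ) (x y : X) : nu w U x y = nu w U y x := by
  unfold nu
  exact sum_congr rfl fun j _ => by ring

lemma Gam_comm (w : X → ℝ) (U : X → X → ℝ) (x y : X) : Gam w U x y = Gam w U y x := by
  unfold Gam
  exact sum_congr rfl fun j _ => by ring

/-- the averaging argument -/
theorem no_good {a K m : ℝ} (ha : 1 ≤ a) (hS : SS X (a - 1)) {w : X → ℝ} {U : X → X → ℝ}
    (h : Good a K m w U) : False := by
  have hA := h.adm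
  have hK := h.K0
  have hv1 := h.v1
  have hv2 := h.v2
  have hK1 : K < 1 := by
    have := h.Kv
    nlinarith [h.v1, h.v2]
  set b : ℝ := 2 * K / (2 - K) with hb
  have hb0 : 0 ≤ b := by
    rw [hb]
    apply div_nonneg <;> linarith
  set φ : X → ℝ := fun x => 1 + b * yy K w U x with hφ
  have hφ1 : ∀ x, 1 ≤ φ x := fun x => by
    have := mul_nonneg hb0 (yy_nonneg K w U x)
    simp only [hφ]
    linarith
  -- heavy part
  set dl : X → X → ℝ := fun x y => co w U x y - a with hdl
  set Bn : X → X → ℝ := fun x y => if 0 < dl x y then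
      cval K (ms w - a) (nn w U x) (dl x y) (nu w U x y) (Gam w U x y) else 0 with hBn
  set A : X → ℝ := fun x => ∑ z, (1 - U x z) * w z * yy K w U z ^ 2 with hAdef
  set kx : X → ℝ := fun x => K / (K + 2) * (1 - A x) with hkx
  have hZ : ∀ x, 0 < w x → 0 ≤ Zx a w U x := by
    intro x hx
    have h1 := h.vert x hx
    have h2 : 0 ≤ m * (2 * ∑ z, (1 - U x z) * w z * yy K w U z + K * yy K w U x ^ 2) := by
      apply mul_nonneg h.m0
      have : 0 ≤ ∑ z, (1 - U x z) * w z * yy K w U z := sum_nonneg fun z _ =>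
        mul_nonneg (mul_nonneg (by linarith [hA.u1 x z]) (hA.w0 z)) (yy_nonneg K w U z)
      positivity
    linarith
  -- the pointwise inequality
  have key : ∀ x, 0 < w x →
      3 * ∑ y, U x y * w y * Bn x y + 3 * (1 - kx x) * Zx a w U x -
        3 * ∑ z, (1 - U x z) * w z * Zx a w U z -
        3 * ∑ y, ∑ z, (1 - U x y) * (1 - U x z) * U y z * max 0 (dl y z) * w y * w z ≤
      Ph a w U := by
    intro x hx
    have h1 := PID a hA.sym x (w := w)
    have h2 := bonus hK hK1 hS hA h.y2 x (hZ x hx) (h.nlo x hx)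
    have h3 : 0 ≤ tr (an w U x) U := tr_nonneg (hA.an x)
    have h4 : -∑ y, ∑ z, (1 - U x y) * (1 - U x z) * U y z * max 0 (dl y z) * w y * w z ≤
        ∑ y, ∑ z, (1 - U x y) * (1 - U x z) * U y z * (a - co w U y z) * w y * w z := by
      rw [← sum_neg_distrib]
      refine sum_le_sum fun y _ => ?_
      rw [← sum_neg_distrib]
      refine sum_le_sum fun z _ => ?_
      have g1 : a - co w U y z = - dl y z := by simp only [hdl]; ring
      rw [g1]
      have g2 : 0 ≤ (1 - U x y) * (1 - U x z) * U y z * w y * w z := by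
        have := hA.u1 x y
        have := hA.u1 x z
        have := hA.u0 y z
        have := hA.w0 y
        have := hA.w0 z
        apply mul_nonneg (mul_nonneg (mul_nonneg (mul_nonneg _ _) _) _) _ <;> linarith
      have g3 : dl y z ≤ max 0 (dl y z) := le_max_right _ _
      nlinarith [mul_le_mul_of_nonneg_left g3 g2]
    have h2' : 3 * ∑ y, U x y * w y * Bn x y ≤
      Ph (a - 1) (nb w U x) U + 3 * kx x * Zx a w U x := h2
    linarith
  -- sum up with weights
  have hsum : ∑ x, w x * φ x * (3 * ∑ y, U x y * w y * Bn x y + 3 * (1 - kx x) * Zx a w U x -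
        3 * ∑ z, (1 - U x z) * w z * Zx a w U z -
        3 * ∑ y, ∑ z, (1 - U x y) * (1 - U x z) * U y z * max 0 (dl y z) * w y * w z) ≤
      ∑ x, w x * φ x * Ph a w U := by
    refine sum_le_sum fun x _ => ?_
    rcases eq_or_lt_of_le (hA.w0 x) with h0 | h0
    · rw [← h0]
      simp
    · exact mul_le_mul_of_nonneg_left (key x h0) (mul_nonneg h0.le (by linarith [hφ1 x]))
  have hms : 0 < ms w := by linarith
  have hrhs : ∑ x, w x * φ x * Ph a w U < 0 := by
    rw [← sum_mul]
    apply mul_neg_of_pos_of_neg _ h.neg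
    calc 0 < ms w := hms
      _ ≤ ∑ x, w x * φ x := by
        unfold ms
        refine sum_le_sum fun x _ => ?_
        nlinarith [hA.w0 x, hφ1 x]
  -- the vertex part is nonnegative
  have hvert : 0 ≤ ∑ x, w x * Zx a w U x * (φ x * (1 - kx x) - ∑ z, (1 - U x z) * w z * φ z) := by
    refine sum_nonneg fun x _ => ?_
    rcases eq_or_lt_of_le (hA.w0 x) with h0 | h0
    · rw [← h0]
      simp
    · apply mul_nonneg (mul_nonneg h0.le (hZ x h0))
      have := F_nonneg hK hK1 hA x
      simp only [hφ, hkx, hAdef, hb] at this ⊢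
      linarith
  -- swapping sums
  have hswap1 : ∑ x, w x * φ x * ∑ z, (1 - U x z) * w z * Zx a w U z =
      ∑ x, w x * Zx a w U x * ∑ z, (1 - U x z) * w z * φ z := by
    simp only [mul_sum]
    rw [sum_comm]
    refine sum_congr rfl fun x _ => sum_congr rfl fun z _ => ?_
    rw [hA.sym x z]
    ring
  have hswap2 : ∑ x, w x * φ x * ∑ y, ∑ z, (1 - U x y) * (1 - U x z) * U y z *
        max 0 (dl y z) * w y * w z =
      ∑ y, ∑ z, w y * w z * U y z * (max 0 (dl y z) *
        ∑ x, (1 - U y x) * (1 - U z x) * w x * φ x) := by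
    simp only [mul_sum]
    rw [sum_comm]
    refine sum_congr rfl fun y _ => ?_
    rw [sum_comm]
    refine sum_congr rfl fun z _ => sum_congr rfl fun x _ => ?_
    rw [hA.sym x y, hA.sym x z]
    ring
  have hpairs : 0 ≤ ∑ x, ∑ y, w x * w y * U x y * (φ x * Bn x y - max 0 (dl x y) *
      ∑ z, (1 - U x z) * (1 - U y z) * w z * φ z) := by
    apply sum_sym
    intro x y
    have e1 : dl y x = dl x y := by simp only [hdl]; rw [co_comm]
    have e2 : ∑ z, (1 - U y z) * (1 - U x z) * w z * φ z =
        ∑ z, (1 - U x z) * (1 - U y z) * w z * φ z := sum_congr rfl fun z _ => by ring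
    rw [e1, e2, hA.sym y x]
    have e3 : w x * w y * U x y * (φ x * Bn x y - max 0 (dl x y) *
        ∑ z, (1 - U x z) * (1 - U y z) * w z * φ z) +
      w y * w x * U x y * (φ y * Bn y x - max 0 (dl x y) *
        ∑ z, (1 - U x z) * (1 - U y z) * w z * φ z) =
      w x * w y * U x y * (φ x * Bn x y + φ y * Bn y x - 2 * max 0 (dl x y) *
        ∑ z, (1 - U x z) * (1 - U y z) * w z * φ z) := by ring
    rw [e3]
    rcases eq_or_lt_of_le (hA.w0 x) with hx | hx
    · rw [← hx]; simp
    rcases eq_or_lt_of_le (hA.w0 y) with hy | hy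
    · rw [← hy]; simp
    rcases eq_or_lt_of_le (hA.u0 x y) with hu | hu
    · rw [← hu]; simp
    apply mul_nonneg (by positivity)
    by_cases hd : 0 < dl x y
    · have := pair_good h hx hy hu hd
      have f1 : Bn x y = cval K (ms w - a) (nn w U x) (dl x y) (nu w U x y) (Gam w U x y) := by
        simp only [hBn, if_pos hd]
      have f2 : Bn y x = cval K (ms w - a) (nn w U y) (dl x y) (nu w U x y) (Gam w U x y) := by
        simp only [hBn]
        rw [e1, if_pos hd, nu_comm w U y x, Gam_comm w U y x]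
      rw [f1, f2, max_eq_right hd.le]
      simp only [hφ, hdl, hb] at this ⊢
      linarith
    · have f1 : Bn x y = 0 := by simp only [hBn, if_neg hd]
      have f2 : Bn y x = 0 := by simp only [hBn]; rw [e1, if_neg hd]
      rw [f1, f2, max_eq_left (not_lt.1 hd)]
      simp
  -- conclusion
  have hexp : ∑ x, w x * φ x * (3 * ∑ y, U x y * w y * Bn x y + 3 * (1 - kx x) * Zx a w U x -
        3 * ∑ z, (1 - U x z) * w z * Zx a w U z -
        3 * ∑ y, ∑ z, (1 - U x y) * (1 - U x z) * U y z * max 0 (dl y z) * w y * w z) =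
      3 * (∑ x, w x * Zx a w U x * (φ x * (1 - kx x) - ∑ z, (1 - U x z) * w z * φ z)) +
      3 * ∑ x, ∑ y, w x * w y * U x y * (φ x * Bn x y - max 0 (dl x y) *
      ∑ z, (1 - U x z) * (1 - U y z) * w z * φ z) := by
    have s1 : ∑ x, w x * φ x * (3 * ∑ y, U x y * w y * Bn x y + 3 * (1 - kx x) * Zx a w U x -
        3 * ∑ z, (1 - U x z) * w z * Zx a w U z -
        3 * ∑ y, ∑ z, (1 - U x y) * (1 - U x z) * U y z * max 0 (dl y z) * w y * w z) =
        3 * ∑ x, w x * φ x * ∑ y, U x y * w y * Bn x y +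
        3 * ∑ x, w x * φ x * ((1 - kx x) * Zx a w U x) -
        3 * ∑ x, w x * φ x * ∑ z, (1 - U x z) * w z * Zx a w U z -
        3 * ∑ x, w x * φ x * ∑ y, ∑ z, (1 - U x y) * (1 - U x z) * U y z *
          max 0 (dl y z) * w y * w z := by
      rw [mul_sum, mul_sum, mul_sum, mul_sum, ← sum_add_distrib, ← sum_sub_distrib,
        ← sum_sub_distrib]
      exact sum_congr rfl fun x _ => by ring
    have s2 : ∑ x, w x * Zx a w U x * (φ x * (1 - kx x) - ∑ z, (1 - U x z) * w z * φ z) =
        ∑ x, w x * φ x * ((1 - kx x) * Zx a w U x) -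
        ∑ x, w x * Zx a w U x * ∑ z, (1 - U x z) * w z * φ z := by
      rw [← sum_sub_distrib]
      exact sum_congr rfl fun x _ => by ring
    have s3 : ∑ x, ∑ y, w x * w y * U x y * (φ x * Bn x y - max 0 (dl x y) *
        ∑ z, (1 - U x z) * (1 - U y z) * w z * φ z) =
        ∑ x, w x * φ x * ∑ y, U x y * w y * Bn x y -
        ∑ y, ∑ z, w y * w z * U y z * (max 0 (dl y z) *
          ∑ x, (1 - U y x) * (1 - U z x) * w x * φ x) := by
      rw [← sum_sub_distrib]
      refine sum_congr rfl fun x _ => ?_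
      rw [mul_sum, ← sum_sub_distrib]
      exact sum_congr rfl fun y _ => by ring
    rw [s1, s2, s3, hswap1, hswap2]
    ring
  rw [hexp] at hsum
  linarith

end LibTri47
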