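import Pool.Agent.LibTri47.Bonus

set_option autoImplicit false

/-! # The inequality for a heavy pair (real numbers only) -/

namespace LibTri47

private theorem amgm {X Y Z : ℝ} (hX : 0 ≤ X) (hY : 0 ≤ Y) (h : Z ^ 2 ≤ 4 * (X * Y)) :
    Z ≤ X + Y := by
  have h1 : Z ^ 2 ≤ (X + Y) ^ 2 := by nlinarith [sq_nonneg (X - Y)]
  exact le_of_sq_le_sq' h1 (by linarith)
where
  le_of_sq_le_sq' {a b : ℝ} (h : a ^ 2 ≤ b ^ 2) (hb : 0 ≤ b) : a ≤ b :=
    le_trans (le_abs_self a) (by
      rw [← abs_of_nonneg hb]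
      exact sq_le_sq.mp h)

private theorem K_le {K v : ℝ} (hv1 : 1 < v) (hKv : K * v ≤ (v - 1) * (2 - v)) :
    K ≤ 0.172 := by
  by_contra h
  push Not at h
  nlinarith [sq_nonneg (v - 1.414), mul_pos (sub_pos.mpr hv1) (sub_pos.mpr h)]

private theorem K_le2 {K v : ℝ} (hv1 : 1 < v) (hv2 : v < 2)
    (hKv : K * v ≤ (v - 1) * (2 - v)) : 2 * K ≤ 2 - v := by
  by_contra h
  push Not at h
  nlinarith [mul_pos (sub_pos.mpr hv1) (sub_pos.mpr hv2), mul_pos (sub_pos.mpr hv2) (sub_pos.mpr hv2)]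

/-- (C2b) -/
private theorem pC2b {K v δ ν α β b kb P T : ℝ} (hK : 0 < K) (hK1 : K ≤ 0.172)
    (hb : b * (2 - K) = 2 * K) (hkb : kb * (K + 2) = K) (hδ : 0 < δ) (hν : 0 ≤ ν)
    (hα : 0 ≤ α) (hβα : β ^ 2 ≤ ν * α)
    (hP : 2 * (ν + v - δ + K) ≤ P * (2 - K)) (hP2 : 2 ≤ P) (hνv : ν ≤ v - δ)
    (hT : T = δ * (1 + δ - 2 * kb) + K / 2 * (δ + α)) :
    2 * δ * (ν + b * β) ≤ P * T := by
  have hb0 : 0 < b := by
    by_contra h
    push Not at h
    nlinarith
  have hb1 : b ≤ 0.19 := by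
    by_contra h
    push Not at h
    nlinarith
  have hb2 : b ^ 2 ≤ 2 * K := by
    have h1 : b * (2 - K) = 2 * K := hb
    have h2 : b ≤ 1.1 * K := by
      by_contra h
      push Not at h
      nlinarith
    nlinarith
  have h1 : ν + v - δ + K ≤ P * (1 - 2 * kb + K / 2) := by
    have h2 : (ν + v - δ + K) * (K + 2) ≤ P * (1 - 2 * kb + K / 2) * (K + 2) := by
      have h3 : P * (1 - 2 * kb + K / 2) * (K + 2) = P * (2 + K ^ 2 / 2) := by
        have : (1 - 2 * kb + K / 2) * (K + 2) = 2 + K ^ 2 / 2 := by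
          have := hkb
          nlinarith
        rw [mul_assoc, this]
      rw [h3]
      have h4 : 0 < 2 - K := by linarith
      have h5 : (ν + v - δ + K) * (K + 2) * (2 - K) ≤ P * (2 + K ^ 2 / 2) * (2 - K) := by
        have h6 : 0 ≤ ν + v - δ + K := by linarith
        have h7 : P * (2 + K ^ 2 / 2) * (2 - K) = (P * (2 - K)) * (2 + K ^ 2 / 2) := by ring
        rw [h7]
        have h8 : 2 * (ν + v - δ + K) * (2 + K ^ 2 / 2) ≤ (P * (2 - K)) * (2 + K ^ 2 / 2) :=
          mul_le_mul_of_nonneg_right hP (by positivity)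
        have h9 : (ν + v - δ + K) * (K + 2) * (2 - K) ≤
            2 * (ν + v - δ + K) * (2 + K ^ 2 / 2) := by
          have h10 : 0 ≤ (ν + v - δ + K) * K ^ 2 := mul_nonneg h6 (sq_nonneg K)
          nlinarith
        linarith
      exact le_of_mul_le_mul_right h5 h4
    exact le_of_mul_le_mul_right h2 (by linarith)
  have hA : 2 * δ * (b * β) ≤ 2 * δ ^ 2 * ν + K * α := by
    apply amgm (by positivity) (by positivity)
    have h2 : b ^ 2 * β ^ 2 ≤ 2 * K * (ν * α) :=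
      mul_le_mul hb2 hβα (sq_nonneg β) (by positivity)
    have h3 : 0 ≤ δ ^ 2 := sq_nonneg δ
    nlinarith [mul_le_mul_of_nonneg_left h2 h3]
  have hB : P * T = δ * (P * (1 - 2 * kb + K / 2)) + P * δ ^ 2 + P * (K * α / 2) := by
    rw [hT]; ring
  rw [hB]
  have hC : δ * (ν + v - δ + K) ≤ δ * (P * (1 - 2 * kb + K / 2)) :=
    mul_le_mul_of_nonneg_left h1 hδ.le
  have hP3 : 2 * ν ≤ P := by
    by_contra h
    push Not at h
    nlinarith
  have hD : 2 * ν * δ ^ 2 ≤ P * δ ^ 2 := mul_le_mul_of_nonneg_right hP3 (sq_nonneg δ)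
  have hE : 2 * (K * α / 2) ≤ P * (K * α / 2) := mul_le_mul_of_nonneg_right hP2 (by positivity)
  have hF : δ * (2 * ν) ≤ δ * (ν + v - δ + K) :=
    mul_le_mul_of_nonneg_left (by linarith) hδ.le
  linarith

private theorem b_facts {K b : ℝ} (hK : 0 < K) (hK1 : K ≤ 0.172)
    (hb : b * (2 - K) = 2 * K) : 0 < b ∧ b ≤ 1.1 * K := by
  constructor
  · by_contra h
    push Not at h
    nlinarith
  · by_contra h
    push Not at h
    nlinarith

/-- (C2a) -/
private theorem pC2a {K ν δ α β b A yx yy R T cx cy : ℝ} (hK : 0 < K) (hK1 : K ≤ 0.172)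
    (hb : b * (2 - K) = 2 * K) (hδ : 0 < δ) (hν : 0 ≤ ν)
    (hα : 0 ≤ α) (hβα : β ^ 2 ≤ ν * α) (hyx : 0 ≤ yx) (hyy : δ ≤ K * yy)
    (hR : 0 < R) (hRA : R ≤ A) (hνR : ν ≤ R)
    (hT : δ * A + K * α / 2 ≤ T) (hcx : T ≤ cx) (hcy : ν * T ≤ cy * R) :
    2 * δ * (ν + b * β) ≤ (1 + b * yx) * cx + (1 + b * yy) * cy := by
  obtain ⟨hb0, hb1⟩ := b_facts hK hK1 hb
  have hyy0 : 0 < yy := by
    by_contra h
    push Not at h
    nlinarith
  have hKα : 0 ≤ K * α := by positivity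
  have hA0 : 0 < A := by linarith
  have hcy0 : ν * δ ≤ cy := by
    have h1 : ν * δ * R ≤ cy * R := by
      have h2 : ν * (δ * A + K * α / 2) ≤ ν * T := mul_le_mul_of_nonneg_left hT hν
      have h3 : ν * δ * R ≤ ν * δ * A := mul_le_mul_of_nonneg_left hRA (by positivity)
      have h4 : 0 ≤ ν * (K * α / 2) := by positivity
      nlinarith
    exact le_of_mul_le_mul_right h1 hR
  have h1 : (1 + b * yy) * (ν * δ) ≤ (1 + b * yy) * cy :=
    mul_le_mul_of_nonneg_left hcy0 (by positivity)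
  have hcx0 : δ * ν + K * α / 2 ≤ cx := by nlinarith
  have h2 : (1 + b * yx) * (δ * ν + K * α / 2) ≤ (1 + b * yx) * cx :=
    mul_le_mul_of_nonneg_left hcx0 (by positivity)
  have h3 : 0 ≤ b * yx * (δ * ν + K * α / 2) := by positivity
  have hA : 2 * δ * (b * β) ≤ b * yy * (ν * δ) + K * α / 2 := by
    apply amgm (by positivity) (by positivity)
    have h4 : 2 * b ≤ 1 := by linarith
    have h5 : 2 * b * δ ≤ K * yy := by nlinarith
    have h6 : b ^ 2 * δ ^ 2 * 4 * β ^ 2 ≤ b ^ 2 * δ ^ 2 * 4 * (ν * α) :=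
      mul_le_mul_of_nonneg_left hβα (by positivity)
    have h7 : b * δ * (ν * α) * (2 * b * δ) ≤ b * δ * (ν * α) * (K * yy) :=
      mul_le_mul_of_nonneg_left h5 (by positivity)
    nlinarith
  nlinarith

/-- (C1) -/
private theorem pC1 {K ν δ α β b A m n yx yy Rx Ry T cx cy : ℝ} (hK : 0 < K) (hK1 : K ≤ 0.172)
    (hb : b * (2 - K) = 2 * K) (hδ : 0 < δ) (hν : δ ≤ ν) (hδ1 : δ ≤ 1)
    (hα : 0 ≤ α) (hβα : β ^ 2 ≤ ν * α) (hyx : 0 ≤ yx) (hyy : 0 ≤ yy) (hs : 3 * δ ≤ yx + yy)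
    (hRx : 0 < Rx) (hRxA : Rx ≤ A) (hRy : 0 < Ry) (hRyA : Ry = A - m) (hm : 0 ≤ m)
    (hA : A ≤ 1 + δ) (hn : 1 - K ≤ n) (hmn : m = n - ν)
    (hT : δ * A + K * α / 2 ≤ T) (hcx : ν * T ≤ cx * Rx) (hcy : ν * T ≤ cy * Ry) :
    2 * δ * (ν + b * β) ≤ (1 + b * yx) * cx + (1 + b * yy) * cy := by
  obtain ⟨hb0, hb1⟩ := b_facts hK hK1 hb
  have hKα : 0 ≤ K * α := by positivity
  have hA0 : 0 < A := by linarith
  have hν0 : 0 < ν := by linarith
  have hKα4 : 0 ≤ ν * (K * α) := by positivity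
  have hTν : ν * (δ * A + K * α / 2) ≤ ν * T := mul_le_mul_of_nonneg_left hT hν0.le
  have hcx0 : ν * δ + ν * (K * α) / 4 ≤ cx := by
    have h1 : (ν * δ + ν * (K * α) / 4) * Rx ≤ cx * Rx := by
      have h3 : ν * δ * Rx ≤ ν * δ * A := mul_le_mul_of_nonneg_left hRxA (by positivity)
      have h4 : ν * (K * α) * Rx ≤ ν * (K * α) * 2 :=
        mul_le_mul_of_nonneg_left (by linarith) hKα4
      nlinarith
    exact le_of_mul_le_mul_right h1 hRx
  have hcy0 : ν * δ + ν * δ * m / 2 + ν * (K * α) / 4 ≤ cy := by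
    have h1 : (ν * δ + ν * δ * m / 2 + ν * (K * α) / 4) * Ry ≤ cy * Ry := by
      have h3 : ν * δ * Ry = ν * δ * A - ν * δ * m := by rw [hRyA]; ring
      have h4 : ν * (K * α) * Ry ≤ ν * (K * α) * 2 :=
        mul_le_mul_of_nonneg_left (by linarith) hKα4
      have h5 : ν * δ * m * Ry ≤ ν * δ * m * 2 :=
        mul_le_mul_of_nonneg_left (by linarith) (by positivity)
      nlinarith
    exact le_of_mul_le_mul_right h1 hRy
  have h1 : (1 + b * yy) * (ν * δ + ν * δ * m / 2 + ν * (K * α) / 4) ≤ (1 + b * yy) * cy :=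
    mul_le_mul_of_nonneg_left hcy0 (by positivity)
  have h2 : (1 + b * yx) * (ν * δ + ν * (K * α) / 4) ≤ (1 + b * yx) * cx :=
    mul_le_mul_of_nonneg_left hcx0 (by positivity)
  have h3 : 0 ≤ b * yx * (ν * (K * α) / 4) := by positivity
  have h4 : 0 ≤ b * yy * (ν * δ * m / 2 + ν * (K * α) / 4) := by positivity
  have h5 : b * (3 * δ) * (ν * δ) ≤ b * (yx + yy) * (ν * δ) := by
    apply mul_le_mul_of_nonneg_right _ (by positivity)
    exact mul_le_mul_of_nonneg_left hs hb0.le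
  have hkey : 2 * b ^ 2 ≤ (3 * b * ν + m / 2) * K := by
    have h6 : 2.65 * (ν + m) * b ≤ 3 * b * ν + m / 2 := by
      have : 5.3 * b ≤ 1 := by
        by_contra h
        push Not at h
        nlinarith
      nlinarith
    have h7 : 2.65 * 0.828 * b ≤ 2.65 * (ν + m) * b := by
      apply mul_le_mul_of_nonneg_right _ hb0.le
      linarith
    have h8 : 2 * b ≤ 2.65 * 0.828 * K := by
      by_contra h
      push Not at h
      nlinarith
    have h9 : 2 * b * b ≤ 2.65 * 0.828 * K * b := mul_le_mul_of_nonneg_right h8 hb0.le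
    have h10 : 2.65 * 0.828 * b * K ≤ (3 * b * ν + m / 2) * K :=
      mul_le_mul_of_nonneg_right (h7.trans h6) hK.le
    linarith
  have hAM : 2 * δ * (b * β) ≤ (3 * b * δ * (ν * δ) + ν * δ * m / 2) + ν * (K * α) / 2 := by
    apply amgm (by positivity) (by positivity)
    have h6 : b ^ 2 * δ ^ 2 * 4 * β ^ 2 ≤ b ^ 2 * δ ^ 2 * 4 * (ν * α) :=
      mul_le_mul_of_nonneg_left hβα (by positivity)
    have h7 : δ ^ 2 * (3 * b * ν + m / 2) ≤ 3 * b * δ * (ν * δ) + ν * δ * m / 2 := by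
      have : δ * δ * m ≤ ν * δ * m := by
        have := mul_le_mul_of_nonneg_right hν hδ.le
        exact mul_le_mul_of_nonneg_right this hm
      nlinarith
    have h8 : δ ^ 2 * (3 * b * ν + m / 2) * (2 * (ν * (K * α))) ≤
        (3 * b * δ * (ν * δ) + ν * δ * m / 2) * (2 * (ν * (K * α))) :=
      mul_le_mul_of_nonneg_right h7 (by positivity)
    have h9 : 2 * b ^ 2 * (2 * δ ^ 2 * (ν * α)) ≤
        (3 * b * ν + m / 2) * K * (2 * δ ^ 2 * (ν * α)) :=
      mul_le_mul_of_nonneg_right hkey (by positivity)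
    nlinarith
  nlinarith

/-- (B) with `δ ≤ ν` -/
private theorem pB1 {K ν δ α β b A yx yy R T cx cy : ℝ} (hK : 0 < K) (hK1 : K ≤ 0.172)
    (hb : b * (2 - K) = 2 * K) (hδ : 0 < δ) (hν : δ ≤ ν) (hδ1 : δ ≤ 1)
    (hα : 0 ≤ α) (hβα : β ^ 2 ≤ ν * α) (hyx : 0 ≤ yx) (hyy : 0 ≤ yy)
    (hR : 0 < R) (hRA : R ≤ A) (hA : A ≤ 1 + δ)
    (hT : δ * A + K * α / 2 ≤ T) (hcx : ν * T ≤ cx * R) (hcy : 2 * δ * ν ≤ cy) :
    2 * δ * (ν + b * β) ≤ (1 + b * yx) * cx + (1 + b * yy) * cy := by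
  obtain ⟨hb0, hb1⟩ := b_facts hK hK1 hb
  have hKα : 0 ≤ K * α := by positivity
  have hA0 : 0 < A := by linarith
  have hν0 : 0 < ν := by linarith
  have hKα4 : 0 ≤ ν * (K * α) := by positivity
  have hTν : ν * (δ * A + K * α / 2) ≤ ν * T := mul_le_mul_of_nonneg_left hT hν0.le
  have hcx0 : ν * δ + ν * (K * α) / 4 ≤ cx := by
    have h1 : (ν * δ + ν * (K * α) / 4) * R ≤ cx * R := by
      have h3 : ν * δ * R ≤ ν * δ * A := mul_le_mul_of_nonneg_left hRA (by positivity)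
      have h4 : ν * (K * α) * R ≤ ν * (K * α) * 2 :=
        mul_le_mul_of_nonneg_left (by linarith) hKα4
      nlinarith
    exact le_of_mul_le_mul_right h1 hR
  have hcx1 : 0 ≤ cx := by
    have : 0 ≤ ν * δ := by positivity
    linarith
  have hcy1 : 0 ≤ cy := by
    have : 0 ≤ 2 * δ * ν := by positivity
    linarith
  have h1 : 0 ≤ b * yx * cx := by positivity
  have h2 : 0 ≤ b * yy * cy := by positivity
  have hAM : 2 * δ * (b * β) ≤ ν * δ + ν * (K * α) / 4 := by
    apply amgm (by positivity) (by positivity)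
    have h6 : b ^ 2 * δ ^ 2 * 4 * β ^ 2 ≤ b ^ 2 * δ ^ 2 * 4 * (ν * α) :=
      mul_le_mul_of_nonneg_left hβα (by positivity)
    have h7 : 4 * b ^ 2 ≤ K := by nlinarith
    have h8 : 4 * b ^ 2 * (δ * (δ * (ν * α))) ≤ K * (ν * (δ * (ν * α))) := by
      have h9 : δ * (δ * (ν * α)) ≤ ν * (δ * (ν * α)) :=
        mul_le_mul_of_nonneg_right hν (by positivity)
      exact mul_le_mul h7 h9 (by positivity) hK.le
    nlinarith
  nlinarith

/-- the three possible values of the minimum -/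
private theorem cval_cases {K v n δ ν Γ T : ℝ} (hR : 0 < Rv K v n δ) (hν : 0 ≤ ν) (hδ : 0 < δ)
    (hT0 : 0 ≤ T) (hT : T ≤ δ * (1 + δ - 2 * (K / (K + 2))) + Γ) :
    (2 * δ * ν ≤ cval K v n δ ν Γ ∧ 2 * δ * ν ≤ T) ∨
    (T ≤ cval K v n δ ν Γ ∧ Rv K v n δ ≤ ν ∧ T ≤ 2 * δ * ν) ∨
    (ν * T ≤ cval K v n δ ν Γ * Rv K v n δ ∧ ν ≤ Rv K v n δ ∧
      ν * T ≤ 2 * δ * ν * Rv K v n δ) := by
  unfold cval
  generalize Rv K v n δ = R at *
  generalize δ * (1 + δ - 2 * (K / (K + 2))) + Γ = T' at *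
  rcases le_total R ν with h | h
  · have h1 : 1 ≤ ν / R := by rwa [one_le_div hR]
    rw [min_eq_left h1, one_mul]
    rcases le_total T (2 * δ * ν) with h2 | h2
    · right; left
      exact ⟨le_min hT h2, h, h2⟩
    · left
      exact ⟨le_min (h2.trans hT) le_rfl, h2⟩
  · have h1 : ν / R ≤ 1 := by rwa [div_le_one hR]
    rw [min_eq_right h1]
    have h0 : 0 ≤ ν / R := div_nonneg hν hR.le
    have h3 : ν / R * T ≤ ν / R * T' := mul_le_mul_of_nonneg_left hT h0
    have h4 : ν / R * T * R = ν * T := by field_simp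
    rcases le_or_gt (ν * T) (2 * δ * ν * R) with h2 | h2
    · right; right
      refine ⟨?_, h, h2⟩
      have h5 : ν / R * T ≤ 2 * δ * ν := by
        have : ν / R * T * R ≤ 2 * δ * ν * R := by rw [h4]; exact h2
        exact le_of_mul_le_mul_right this hR
      have h6 : ν / R * T ≤ min (ν / R * T') (2 * δ * ν) := le_min h3 h5
      calc ν * T = ν / R * T * R := h4.symm
        _ ≤ _ := mul_le_mul_of_nonneg_right h6 hR.le
    · left
      have h5 : 2 * δ * ν ≤ ν / R * T := by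
        have : 2 * δ * ν * R ≤ ν / R * T * R := by rw [h4]; exact h2.le
        exact le_of_mul_le_mul_right this hR
      refine ⟨le_min (h5.trans h3) le_rfl, h5.trans ?_⟩
      calc ν / R * T ≤ 1 * T := mul_le_mul_of_nonneg_right h1 hT0
        _ = T := one_mul T

/-- the case `ν < δ` -/
private theorem pSmall {K v ν δ β b kb A nx ny yx Rx Ry T cx cy : ℝ} (hv1 : 1 < v)
    (hK : 0 < K) (hK1 : K ≤ 0.172) (hK2 : 2 * K ≤ 2 - v)
    (hKv : K * v ≤ (v - 1) * (2 - v))
    (hb : b * (2 - K) = 2 * K) (hkb : kb * (K + 2) = K) (hδ : 0 < δ) (hν : ν < δ) (hν0 : 0 ≤ ν)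
    (hβν : K * β ≤ (v - 1 + K) * ν)
    (hyx : K * yx = nx - 1 + K) (hs : 3 * δ ≤ yx)
    (hny : v - 1 + K / 2 ≤ ny) (hνe : ν = nx + ny - v + δ)
    (hA : A = 1 + δ - kb)
    (hRx0 : 0 < Rx) (hRx : Rx = 1 + nx - v + 2 * δ - kb) (hRy0 : 0 < Ry)
    (hRy : Ry = 1 + ny - v + 2 * δ - kb)
    (hT : δ * A ≤ T)
    (hcx : 2 * δ * ν ≤ cx ∨ T ≤ cx ∨ ν * T ≤ cx * Rx)
    (hcy : 2 * δ * ν ≤ cy ∨ T ≤ cy ∨ ν * T ≤ cy * Ry) :
    2 * δ * ν ≤ cy ∧ 2 * δ * (b * β) ≤ cx := by
  obtain ⟨hb0, hb1⟩ := b_facts hK hK1 hb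
  have hnx : nx < 1 - K / 2 := by linarith
  have hyx2 : yx < 1 / 2 := by
    by_contra h
    push Not at h
    nlinarith
  have hδ6 : δ < 1 / 6 := by linarith
  have hkb0 : 0 < kb := by
    by_contra h
    push Not at h
    nlinarith
  have hkb1 : 2 * kb ≤ K := by
    by_contra h
    push Not at h
    nlinarith
  have hkb2 : K - 2 * kb ≤ 0.014 := by
    by_contra h
    push Not at h
    nlinarith
  have hkb3 : kb ≤ 0.0792 := by
    by_contra h
    push Not at h
    nlinarith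
  have hA1 : 0.92 ≤ A := by linarith
  have hT2 : 2 * δ * ν ≤ T := by nlinarith
  have hTy : 2 * δ * Ry ≤ T := by
    have : 2 * Ry ≤ A := by
      have : 3 * δ * K ≤ K * yx := by nlinarith
      nlinarith
    nlinarith
  have hbβ : b * β ≤ ν := by
    have h1 : b * β * (2 - K) ≤ ν * (2 - K) := by
      have h2 : b * β * (2 - K) = 2 * (K * β) := by
        calc b * β * (2 - K) = (b * (2 - K)) * β := by ring
          _ = _ := by rw [hb]; ring
      rw [h2]
      nlinarith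
    exact le_of_mul_le_mul_right h1 (by linarith)
  constructor
  · rcases hcy with h | h | h
    · exact h
    · exact hT2.trans h
    · have h1 : 2 * δ * ν * Ry ≤ cy * Ry := by
        have := mul_le_mul_of_nonneg_left hTy hν0
        linarith
      exact le_of_mul_le_mul_right h1 hRy0
  · have h0 : 2 * δ * (b * β) ≤ 2 * δ * ν :=
      mul_le_mul_of_nonneg_left hbβ (by positivity)
    rcases hcx with h | h | h
    · exact h0.trans h
    · exact (h0.trans hT2).trans h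
    · have hkey : 4 * (v - 1 + K) * Rx ≤ A * (2 - K) := by
        have h1 : Rx ≤ 1 + 2 * δ - (v - 1 + K) + 0.007 := by linarith
        have h2 : 4 * (v - 1 + K) * Rx ≤
            4 * (v - 1 + K) * (1 + 2 * δ - (v - 1 + K) + 0.007) :=
          mul_le_mul_of_nonneg_left h1 (by linarith)
        have h3 : 4 * (v - 1 + K) * (1 + 2 * δ - (v - 1 + K) + 0.007) ≤
            (1.007 + 2 * δ) ^ 2 := by
          nlinarith [sq_nonneg (1.007 + 2 * δ - 2 * (v - 1 + K))]
        have h4 : (1.007 + 2 * δ) ^ 2 ≤ (0.92 + δ) * (1.828) := by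
          nlinarith
        have h5 : (0.92 + δ) * (1.828) ≤ A * (2 - K) :=
          mul_le_mul (by linarith) (by linarith) (by norm_num) (by linarith)
        linarith
      have h1 : 2 * δ * (b * β) * (Rx * (2 - K)) ≤ cx * (Rx * (2 - K)) := by
        have h2 : 2 * δ * (b * β) * (Rx * (2 - K)) = 4 * δ * Rx * (K * β) := by
          calc 2 * δ * (b * β) * (Rx * (2 - K)) = 2 * δ * Rx * β * (b * (2 - K)) := by ring
            _ = _ := by rw [hb]; ring
        have h3 : 4 * δ * Rx * (K * β) ≤ 4 * δ * Rx * ((v - 1 + K) * ν) :=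
          mul_le_mul_of_nonneg_left hβν (by positivity)
        have h4 : δ * ν * (4 * (v - 1 + K) * Rx) ≤ δ * ν * (A * (2 - K)) :=
          mul_le_mul_of_nonneg_left hkey (by positivity)
        have h5 : ν * (δ * A) * (2 - K) ≤ ν * T * (2 - K) :=
          mul_le_mul_of_nonneg_right (mul_le_mul_of_nonneg_left hT hν0) (by linarith)
        have h6 : ν * T * (2 - K) ≤ cx * Rx * (2 - K) :=
          mul_le_mul_of_nonneg_right h (by linarith)
        rw [h2]
        linarith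
      exact le_of_mul_le_mul_right h1 (by
        have : 0 < 2 - K := by linarith
        positivity)

theorem pair_ineq {K v nx ny yx yy δ ν α β Γ : ℝ} (hv1 : 1 < v) (hv2 : v < 2) (hK : 0 < K)
    (hKv : K * v ≤ (v - 1) * (2 - v)) (hx1 : v - 1 + K / 2 ≤ nx) (hx2 : nx ≤ v)
    (hy1 : v - 1 + K / 2 ≤ ny) (hy2 : ny ≤ v) (hyx : yx = max 0 ((nx - 1 + K) / K))
    (hyy : yy = max 0 ((ny - 1 + K) / K)) (hδ : 0 < δ) (hδs : 3 * δ ≤ yx + yy)
    (hδx : δ ≤ v - nx) (hδy : δ ≤ v - ny) (hν : ν = nx + ny - v + δ) (hν0 : 0 ≤ ν)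
    (hα : 0 ≤ α) (hβ : 0 ≤ β) (hβα : β ^ 2 ≤ ν * α) (hβν : K * β ≤ (v - 1 + K) * ν)
    (hΓ : K / 2 * (δ + α) ≤ Γ) :
    2 * δ * (ν + 2 * K / (2 - K) * β) ≤
      (1 + 2 * K / (2 - K) * yx) * cval K v nx δ ν Γ +
      (1 + 2 * K / (2 - K) * yy) * cval K v ny δ ν Γ := by
  have hK1 := K_le hv1 hKv
  have hK2 := K_le2 hv1 hv2 hKv
  have hb : 2 * K / (2 - K) * (2 - K) = 2 * K := by
    have : (2 - K) ≠ 0 := by linarith
    field_simp
  have hkb : K / (K + 2) * (K + 2) = K := by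
    have : (K + 2) ≠ 0 := by linarith
    field_simp
  generalize 2 * K / (2 - K) = b at *
  obtain ⟨hb0, hb1⟩ := b_facts hK hK1 hb
  have hRx : Rv K v nx δ = 1 + nx - v + 2 * δ - K / (K + 2) := rfl
  have hRy : Rv K v ny δ = 1 + ny - v + 2 * δ - K / (K + 2) := rfl
  obtain ⟨T, hTdef⟩ : ∃ T, T = δ * (1 + δ - 2 * (K / (K + 2))) + K / 2 * (δ + α) := ⟨_, rfl⟩
  have hT' : T ≤ δ * (1 + δ - 2 * (K / (K + 2))) + Γ := by rw [hTdef]; linarith
  have hkbx : 0 < K / (K + 2) := by positivity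
  have hkb1 : 2 * (K / (K + 2)) ≤ K := by
    by_contra h
    push Not at h
    nlinarith
  have hRx0 : 0 < Rv K v nx δ := by rw [hRx]; linarith
  have hRy0 : 0 < Rv K v ny δ := by rw [hRy]; linarith
  have hKα : 0 ≤ K * α := by positivity
  have hTA : δ * (1 + δ - K / (K + 2)) + K * α / 2 ≤ T := by
    rw [hTdef]
    nlinarith
  have hT0 : 0 ≤ T := by
    have : 0 ≤ δ * (1 + δ - K / (K + 2)) := by
      apply mul_nonneg hδ.le
      linarith
    linarith
  have hδ1 : δ ≤ 1 := by linarith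
  have hyx0 : 0 ≤ yx := by rw [hyx]; exact le_max_left _ _
  have hyy0 : 0 ≤ yy := by rw [hyy]; exact le_max_left _ _
  have hyxl : nx - 1 + K ≤ K * yx := by
    have h1 : (nx - 1 + K) / K ≤ yx := by rw [hyx]; exact le_max_right _ _
    have h2 : K * ((nx - 1 + K) / K) = nx - 1 + K := by field_simp
    rw [← h2]
    exact mul_le_mul_of_nonneg_left h1 hK.le
  have hyyl : ny - 1 + K ≤ K * yy := by
    have h1 : (ny - 1 + K) / K ≤ yy := by rw [hyy]; exact le_max_right _ _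
    have h2 : K * ((ny - 1 + K) / K) = ny - 1 + K := by field_simp
    rw [← h2]
    exact mul_le_mul_of_nonneg_left h1 hK.le
  have hyxe : 0 < yx → K * yx = nx - 1 + K := by
    intro h
    have h1 : yx = (nx - 1 + K) / K := by
      rcases max_choice 0 ((nx - 1 + K) / K) with h2 | h2
      · rw [hyx, h2] at h; exact absurd h (lt_irrefl _)
      · rw [hyx]; exact h2
    rw [h1]; field_simp
  have hyye : 0 < yy → K * yy = ny - 1 + K := by
    intro h
    have h1 : yy = (ny - 1 + K) / K := by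
      rcases max_choice 0 ((ny - 1 + K) / K) with h2 | h2
      · rw [hyy, h2] at h; exact absurd h (lt_irrefl _)
      · rw [hyy]; exact h2
    rw [h1]; field_simp
  have hcx := cval_cases (K := K) (v := v) (n := nx) (δ := δ) (ν := ν) (Γ := Γ) (T := T)
    hRx0 hν0 hδ hT0 hT'
  have hcy := cval_cases (K := K) (v := v) (n := ny) (δ := δ) (ν := ν) (Γ := Γ) (T := T)
    hRy0 hν0 hδ hT0 hT'
  generalize cval K v nx δ ν Γ = cx at *
  generalize cval K v ny δ ν Γ = cy at *
  have hbβ : b * β ≤ ν := by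
    have h1 : b * β * (2 - K) ≤ ν * (2 - K) := by
      have h2 : b * β * (2 - K) = 2 * (K * β) := by
        calc b * β * (2 - K) = (b * (2 - K)) * β := by ring
          _ = _ := by rw [hb]; ring
      rw [h2]
      nlinarith
    exact le_of_mul_le_mul_right h1 (by linarith)
  have hδν : 0 ≤ 2 * δ * ν := by positivity
  have hcx0 : 0 ≤ cx := by
    rcases hcx with h | h | h
    · linarith [h.1]
    · linarith [h.1]
    · have h1 : 0 ≤ ν * T := by positivity
      by_contra h2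
      push Not at h2
      nlinarith [h.1, mul_neg_of_neg_of_pos h2 hRx0]
  have hcy0 : 0 ≤ cy := by
    rcases hcy with h | h | h
    · linarith [h.1]
    · linarith [h.1]
    · have h1 : 0 ≤ ν * T := by positivity
      by_contra h2
      push Not at h2
      nlinarith [h.1, mul_neg_of_neg_of_pos h2 hRy0]
  have hbx : 0 ≤ b * yx * cx := by positivity
  have hby : 0 ≤ b * yy * cy := by positivity
  have hδbβ : 2 * δ * (b * β) ≤ 2 * δ * ν := mul_le_mul_of_nonneg_left hbβ (by positivity)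
  have hAle : 1 + δ - K / (K + 2) ≤ 1 + δ := by linarith
  -- the case of small `ν`
  rcases lt_or_ge ν δ with hνδ | hνδ
  · have hsum : nx + ny < v := by linarith
    by_cases hx0 : 0 < yx
    · by_cases hy0 : 0 < yy
      · exfalso
        have h1 := hyxe hx0
        have h2 := hyye hy0
        have h3 : K * (yx + yy) = nx + ny - 2 + 2 * K := by linarith
        have h4 : 0 < K * (yx + yy) := by positivity
        linarith
      · have hyy' : yy = 0 := le_antisymm (not_lt.mp hy0) hyy0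
        obtain ⟨h1, h2⟩ := pSmall (K := K) (v := v) (ν := ν) (δ := δ) (β := β) (b := b)
          (kb := K / (K + 2)) (A := 1 + δ - K / (K + 2)) (nx := nx) (ny := ny) (yx := yx)
          (Rx := Rv K v nx δ) (Ry := Rv K v ny δ) (T := T) (cx := cx) (cy := cy) hv1 hK hK1 hK2
          hKv hb hkb hδ hνδ hν0 hβν (hyxe hx0) (by linarith) hy1 hν rfl hRx0 hRx hRy0 hRy
          (by linarith) (by tauto) (by tauto)
        linarith
    · have hyx' : yx = 0 := le_antisymm (not_lt.mp hx0) hyx0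
      have hy0 : 0 < yy := by linarith
      obtain ⟨h1, h2⟩ := pSmall (K := K) (v := v) (ν := ν) (δ := δ) (β := β) (b := b)
          (kb := K / (K + 2)) (A := 1 + δ - K / (K + 2)) (nx := ny) (ny := nx) (yx := yy)
          (Rx := Rv K v ny δ) (Ry := Rv K v nx δ) (T := T) (cx := cy) (cy := cx) hv1 hK hK1 hK2
          hKv hb hkb hδ hνδ hν0 hβν (hyye hy0) (by linarith) hx1 (by linarith) rfl hRy0 hRy hRx0
          hRx (by linarith) (by tauto) (by tauto)
      linarith
  -- the main case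
  have hν1 : 0 < ν := lt_of_lt_of_le hδ hνδ
  have caseA : 2 * δ * ν ≤ cx → 2 * δ * ν ≤ cy →
      2 * δ * (ν + b * β) ≤ (1 + b * yx) * cx + (1 + b * yy) * cy := by
    intro h1 h2
    linarith
  have hRxA : Rv K v nx δ = (1 + δ - K / (K + 2)) - (v - nx - δ) := by rw [hRx]; ring
  have hRyA : Rv K v ny δ = (1 + δ - K / (K + 2)) - (v - ny - δ) := by rw [hRy]; ring
  have hP2 : 2 ≤ (1 + b * yx) + (1 + b * yy) := by
    have h1 : 0 ≤ b * yx := by positivity
    have h2 : 0 ≤ b * yy := by positivity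
    linarith
  rcases hcx with ⟨hx, hx'⟩ | ⟨hx, hx', hx''⟩ | ⟨hx, hx', hx''⟩
  · rcases hcy with ⟨hy, hy'⟩ | ⟨hy, hy', hy''⟩ | ⟨hy, hy', hy''⟩
    · exact caseA hx hy
    · exact caseA hx (hx'.trans hy)
    · have := pB1 (yx := yy) (yy := yx) (A := 1 + δ - K / (K + 2)) (cx := cy) (cy := cx) hK hK1
        hb hδ hνδ hδ1 hα hβα hyy0 hyx0 hRy0 (by rw [hRyA]; linarith) hAle hTA hy hx
      linarith
  · rcases hcy with ⟨hy, hy'⟩ | ⟨hy, hy', hy''⟩ | ⟨hy, hy', hy''⟩
    · exact caseA (hy'.trans hx) hy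
    · have hPT : ((1 + b * yx) + (1 + b * yy)) * T ≤ (1 + b * yx) * cx + (1 + b * yy) * cy := by
        have h1 : (1 + b * yx) * T ≤ (1 + b * yx) * cx :=
          mul_le_mul_of_nonneg_left hx (by positivity)
        have h2 : (1 + b * yy) * T ≤ (1 + b * yy) * cy :=
          mul_le_mul_of_nonneg_left hy (by positivity)
        linarith
      refine le_trans ?_ hPT
      have hP : 2 * (ν + v - δ + K) ≤ ((1 + b * yx) + (1 + b * yy)) * (2 - K) := by
        have h1 : ((1 + b * yx) + (1 + b * yy)) * (2 - K) =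
            2 * (2 - K) + (b * (2 - K)) * (yx + yy) := by ring
        rw [h1, hb, hν]
        nlinarith
      exact pC2b (v := v) (ν := ν) (δ := δ) (α := α) (β := β) (kb := K / (K + 2)) hK hK1 hb hkb
        hδ hν0 hα hβα hP hP2 (by linarith) hTdef
    · have h1 := pC2a (yx := yx) (yy := yy) (A := 1 + δ - K / (K + 2)) (R := Rv K v ny δ) (T := T)
        (cx := cx) (cy := cy) hK hK1 hb hδ hν0 hα hβα hyx0 (by
          have h2 : 1 + δ - K / (K + 2) ≤ ny := by
            rw [hRx] at hx'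
            linarith
          linarith) hRy0 (by rw [hRyA]; linarith) hy' hTA hx hy
      exact h1
  · rcases hcy with ⟨hy, hy'⟩ | ⟨hy, hy', hy''⟩ | ⟨hy, hy', hy''⟩
    · exact pB1 (yx := yx) (yy := yy) (A := 1 + δ - K / (K + 2)) (cx := cx) (cy := cy) hK hK1
        hb hδ hνδ hδ1 hα hβα hyx0 hyy0 hRx0 (by rw [hRxA]; linarith) hAle hTA hx hy
    · have h1 := pC2a (yx := yy) (yy := yx) (A := 1 + δ - K / (K + 2)) (R := Rv K v nx δ) (T := T)
        (cx := cy) (cy := cx) hK hK1 hb hδ hν0 hα hβα hyy0 (by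
          have h2 : 1 + δ - K / (K + 2) ≤ nx := by
            rw [hRy] at hy'
            linarith
          linarith) hRx0 (by rw [hRxA]; linarith) hx' hTA hy hx
      linarith
    · by_cases hx0 : 0 < yx
      · have hnx : 1 - K ≤ nx := by
          have := hyxe hx0
          have h2 : 0 < K * yx := by positivity
          linarith
        exact pC1 (A := 1 + δ - K / (K + 2)) (m := v - ny - δ) (n := nx) (Rx := Rv K v nx δ)
          (Ry := Rv K v ny δ) hK hK1 hb hδ hνδ hδ1 hα hβα hyx0 hyy0 hδs hRx0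
          (by rw [hRxA]; linarith) hRy0 hRyA (by linarith) hAle hnx (by linarith) hTA hx hy
      · have hyx' : yx = 0 := le_antisymm (not_lt.mp hx0) hyx0
        have hy0 : 0 < yy := by linarith
        have hny : 1 - K ≤ ny := by
          have := hyye hy0
          have h2 : 0 < K * yy := by positivity
          linarith
        have h1 := pC1 (A := 1 + δ - K / (K + 2)) (m := v - nx - δ) (n := ny)
          (Rx := Rv K v ny δ) (yx := yy) (yy := yx) (cx := cy) (cy := cx)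
          (Ry := Rv K v nx δ) hK hK1 hb hδ hνδ hδ1 hα hβα hyy0 hyx0 (by linarith) hRy0
          (by rw [hRyA]; linarith) hRx0 hRxA (by linarith) hAle hny (by linarith) hTA hy hx
        linarith

end LibTri47
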