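import Pool.Agent.LibTri47.Good
import Pool.Agent.LibTri47.FLem
import Pool.Agent.LibTri47.Pair

set_option autoImplicit false

/-! # The pair inequality for `Good` kernels -/

namespace LibTri47

open Finset

variable {X : Type} [Fintype X]

/-- the bound on `Γ` from convexity -/
theorem Gam_ge {a K : ℝ} (hK : 0 < K) {w : X → ℝ} {U : X → X → ℝ} (hA : Adm w U)
    (hY : Y2 K w U ≤ a) (x y : X) :
    K / 2 * ((co w U x y - a) + ∑ z, (1 - U x z) * (1 - U y z) * w z * yy K w U z ^ 2) ≤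
      Gam w U x y := by
  have h0 : ∀ i, 0 ≤ (fun j => U x j * U y j * w j) i := fun i =>
    mul_nonneg (mul_nonneg (hA.u0 x i) (hA.u0 y i)) (hA.w0 i)
  have h1 := GC (U := U) (w := w) (om := fun j => U x j * U y j * w j) hK h0
  have h2 : ∑ i, (U x i * U y i * w i) * yy K w U i ^ 2 +
      ∑ z, (1 - U x z) * (1 - U y z) * w z * yy K w U z ^ 2 ≤ Y2 K w U := by
    rw [Y2, ← sum_add_distrib]
    apply sum_le_sum
    intro i _
    have e : w i * yy K w U i ^ 2 - (U x i * U y i * w i * yy K w U i ^ 2 +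
        (1 - U x i) * (1 - U y i) * w i * yy K w U i ^ 2) =
        (U x i * (1 - U y i) + U y i * (1 - U x i)) * (w i * yy K w U i ^ 2) := by ring
    have e2 : 0 ≤ (U x i * (1 - U y i) + U y i * (1 - U x i)) * (w i * yy K w U i ^ 2) := by
      apply mul_nonneg
      · apply add_nonneg
        · exact mul_nonneg (hA.u0 x i) (sub_nonneg.mpr (hA.u1 y i))
        · exact mul_nonneg (hA.u0 y i) (sub_nonneg.mpr (hA.u1 x i))
      · exact mul_nonneg (hA.w0 i) (sq_nonneg _)
    linarith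
  have h3 : ∑ i, (fun j => U x j * U y j * w j) i = co w U x y := rfl
  have h4 : ∑ i, (fun j => U x j * U y j * w j) i * (1 - nn w U i) = Gam w U x y := rfl
  have h5 : ∑ i, (fun j => U x j * U y j * w j) i * yy K w U i ^ 2 =
      ∑ i, (U x i * U y i * w i) * yy K w U i ^ 2 := rfl
  rw [h3, h4, h5] at h1
  refine le_trans ?_ h1
  apply mul_le_mul_of_nonneg_left _ (by linarith)
  linarith

omit [Fintype X] in
private theorem tri13_nu_nonneg {w : X → ℝ} {U : X → X → ℝ} (hA : Adm w U) (x y : X) (z : X) :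
    0 ≤ (1 - U x z) * (1 - U y z) * w z :=
  mul_nonneg (mul_nonneg (sub_nonneg.mpr (hA.u1 x z)) (sub_nonneg.mpr (hA.u1 y z))) (hA.w0 z)

private theorem tri13_co_le {w : X → ℝ} {U : X → X → ℝ} (hA : Adm w U) (x y : X) :
    co w U x y ≤ dg w U x := by
  rw [co, dg]
  apply sum_le_sum
  intro j _
  have h1 : 0 ≤ U x j * w j := mul_nonneg (hA.u0 x j) (hA.w0 j)
  nlinarith [mul_nonneg h1 (sub_nonneg.mpr (hA.u1 y j))]

private theorem tri13_co_le' {w : X → ℝ} {U : X → X → ℝ} (hA : Adm w U) (x y : X) :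
    co w U x y ≤ dg w U y := by
  rw [co, dg]
  apply sum_le_sum
  intro j _
  have h1 : 0 ≤ U y j * w j := mul_nonneg (hA.u0 y j) (hA.w0 j)
  nlinarith [mul_nonneg h1 (sub_nonneg.mpr (hA.u1 x j))]

private theorem tri13_cauchy (c f : X → ℝ) (hc : ∀ i, 0 ≤ c i) :
    (∑ i, c i * f i) ^ 2 ≤ (∑ i, c i) * ∑ i, c i * f i ^ 2 := by
  have h := sum_mul_sq_le_sq_mul_sq univ (fun i => Real.sqrt (c i))
    (fun i => Real.sqrt (c i) * f i)
  have h1 : ∀ i, Real.sqrt (c i) * (Real.sqrt (c i) * f i) = c i * f i := by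
    intro i
    rw [← mul_assoc, Real.mul_self_sqrt (hc i)]
  have h2 : ∀ i, Real.sqrt (c i) ^ 2 = c i := fun i => Real.sq_sqrt (hc i)
  have h3 : ∀ i, (Real.sqrt (c i) * f i) ^ 2 = c i * f i ^ 2 := by
    intro i
    rw [mul_pow, h2]
  simp only [h1, h2, h3] at h
  exact h

/-- the pair inequality for a heavy pair of a `Good` kernel -/
theorem pair_good {a K m : ℝ} {w : X → ℝ} {U : X → X → ℝ} (h : Good a K m w U) {x y : X}
    (hx : 0 < w x) (hy : 0 < w y) (hxy : 0 < U x y) (hδ : 0 < co w U x y - a) :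
    2 * (co w U x y - a) *
        ∑ z, (1 - U x z) * (1 - U y z) * w z * (1 + 2 * K / (2 - K) * yy K w U z) ≤
      (1 + 2 * K / (2 - K) * yy K w U x) *
        cval K (ms w - a) (nn w U x) (co w U x y - a) (nu w U x y) (Gam w U x y) +
      (1 + 2 * K / (2 - K) * yy K w U y) *
        cval K (ms w - a) (nn w U y) (co w U x y - a) (nu w U x y) (Gam w U x y) := by
  have hA := h.adm
  have hK := h.K0
  have hsum : ∑ z, (1 - U x z) * (1 - U y z) * w z * (1 + 2 * K / (2 - K) * yy K w U z) =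
      nu w U x y + 2 * K / (2 - K) * ∑ z, (1 - U x z) * (1 - U y z) * w z * yy K w U z := by
    rw [nu, mul_sum, ← sum_add_distrib]
    apply sum_congr rfl
    intro z _
    ring
  rw [hsum]
  have hyx0 := yy_nonneg K w U x
  have hyy0 := yy_nonneg K w U y
  have hν := nu_eq (w := w) (U := U) x y
  have hnx := nn_eq (w := w) (U := U) x
  have hny := nn_eq (w := w) (U := U) y
  have hcx := tri13_co_le hA x y
  have hcy := tri13_co_le' hA x y
  have hv1 := h.v1
  refine pair_ineq (α := ∑ z, (1 - U x z) * (1 - U y z) * w z * yy K w U z ^ 2)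
    h.v1 h.v2 hK h.Kv (h.nlo x hx) (h.nhi x hx) (h.nlo y hy) (h.nhi y hy) rfl rfl
    hδ ?_ ?_ ?_ ?_ ?_ ?_ ?_ ?_ ?_ ?_
  · have h1 := h.edge x y hx hy hxy
    have h2 : m * (yy K w U x + yy K w U y) ≤ 1 * (yy K w U x + yy K w U y) :=
      mul_le_mul_of_nonneg_right h.m1 (add_nonneg hyx0 hyy0)
    linarith
  · linarith
  · linarith
  · linarith
  · rw [nu]
    exact sum_nonneg fun z _ => tri13_nu_nonneg hA x y z
  · exact sum_nonneg fun z _ => mul_nonneg (tri13_nu_nonneg hA x y z) (sq_nonneg _)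
  · exact sum_nonneg fun z _ => mul_nonneg (tri13_nu_nonneg hA x y z) (yy_nonneg K w U z)
  · exact tri13_cauchy (fun z => (1 - U x z) * (1 - U y z) * w z) (fun z => yy K w U z)
      (fun z => tri13_nu_nonneg hA x y z)
  · rw [nu, mul_sum, mul_sum]
    apply sum_le_sum
    intro z _
    rcases (hA.w0 z).eq_or_lt with hz | hz
    · rw [← hz]
      simp
    · have hn := h.nhi z hz
      have h1 : K * yy K w U z ≤ ms w - a - 1 + K := by
        rw [yy, mul_max_of_nonneg _ _ hK.le, mul_zero, mul_div_cancel₀ _ hK.ne']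
        apply max_le
        · linarith
        · linarith
      have h2 := tri13_nu_nonneg hA x y z
      nlinarith [mul_le_mul_of_nonneg_left h1 h2]
  · exact Gam_ge hK hA h.y2 x y

end LibTri47
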