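import Pool.Agent.LibTri47.RMin

set_option autoImplicit false

/-! # First order conditions for Razborov's theorem -/

namespace LibTri47

open Finset

variable {X : Type} [Fintype X]

private theorem ms_scale (c : ℝ) (w : X → ℝ) : ms (fun i => c * w i) = c * ms w := by
  unfold ms
  rw [mul_sum]

private theorem ed_scale (c : ℝ) (w : X → ℝ) (U : X → X → ℝ) :
    ed (fun i => c * w i) U = c ^ 2 * ed w U := by
  unfold ed
  rw [mul_sum]
  apply sum_congr rfl
  intro i _
  rw [mul_sum]
  apply sum_congr rfl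
  intro j _
  ring

private theorem tr_scale (c : ℝ) (w : X → ℝ) (U : X → X → ℝ) :
    tr (fun i => c * w i) U = c ^ 3 * tr w U := by
  unfold tr
  rw [mul_sum]
  apply sum_congr rfl
  intro i _
  rw [mul_sum]
  apply sum_congr rfl
  intro j _
  rw [mul_sum]
  apply sum_congr rfl
  intro k _
  ring

/-- the lower bound `1 ≤ v` is not needed for competitors -/
private theorem min_all {a : ℝ} {w : X → ℝ} {U : X → X → ℝ} (h : MinR a w U)
    (hneg : Ph a w U < 0) {W : X → ℝ} {V : X → X → ℝ} (hA : Adm W V) (hZ : Zf a W V = 0)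
    (hv : ms W - a ≤ 2) : Ph a w U ≤ Ph a W V := by
  by_cases h1 : 1 ≤ ms W - a
  · exact h.2 W V ⟨hA, hZ, h1, hv⟩
  · push Not at h1
    have h2 := PH a (w := W) hA.sym
    have h3 : 0 ≤ ∑ x, W x * (nn W V x - 1) ^ 2 :=
      sum_nonneg fun x _ => mul_nonneg (hA.w0 x) (sq_nonneg _)
    have h4 : 0 ≤ ∑ x, W x * ex W V x :=
      sum_nonneg fun x _ => mul_nonneg (hA.w0 x) (ex_nonneg hA x)
    have h5 : 0 ≤ (1 - (ms W - a)) * (2 - (ms W - a)) ^ 2 :=
      mul_nonneg (by linarith) (sq_nonneg _)
    rw [hZ] at h2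
    nlinarith

/-- the minimality in penalised form -/
private theorem key {a : ℝ} (ha : 1 ≤ a) {w : X → ℝ} {U : X → X → ℝ} (h : MinR a w U)
    (hneg : Ph a w U < 0) {W : X → ℝ} {V : X → X → ℝ} (hA : Adm W V) (hZ : 0 ≤ Zf a W V)
    (hv : ms W - a < 2) :
    Ph a w U * (1 + Zf a W V / (2 * (a + 1) * (2 - (ms W - a)))) ^ 3 -
      3 * a * Zf a W V * (Zf a W V / (2 * (a + 1) * (2 - (ms W - a)))) ≤ Ph a W V := by
  have hD : 0 < 2 * (a + 1) * (2 - (ms W - a)) := by
    have : 0 < 2 - (ms W - a) := by linarith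
    positivity
  obtain ⟨T, hT⟩ : ∃ T, T = Zf a W V / (2 * (a + 1) * (2 - (ms W - a))) := ⟨_, rfl⟩
  have hT0 : 0 ≤ T := by rw [hT]; exact div_nonneg hZ hD.le
  have hTe : 2 * (a + 1) * (2 - (ms W - a)) * T = Zf a W V := by
    rw [hT, mul_div_cancel₀ _ hD.ne']
  rw [← hT]
  obtain ⟨t, ⟨ht0, ht1⟩, htr⟩ : ∃ t ∈ Set.Icc (0 : ℝ) T,
      (fun t : ℝ => Zf a W V - 2 * (a + 1) * (2 - (ms W - a)) * t - (a + 1) * (a + 2) * t ^ 2) t
        = 0 := by
    have hc : ContinuousOn (fun t : ℝ => Zf a W V - 2 * (a + 1) * (2 - (ms W - a)) * t -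
        (a + 1) * (a + 2) * t ^ 2) (Set.Icc 0 T) := by fun_prop
    have := intermediate_value_Icc' hT0 hc
    apply this
    constructor
    · change Zf a W V - 2 * (a + 1) * (2 - (ms W - a)) * T - (a + 1) * (a + 2) * T ^ 2 ≤ 0
      rw [hTe]
      have : 0 ≤ (a + 1) * (a + 2) * T ^ 2 := by positivity
      linarith
    · change 0 ≤ Zf a W V - 2 * (a + 1) * (2 - (ms W - a)) * 0 - (a + 1) * (a + 2) * 0 ^ 2
      simpa using hZ
  change Zf a W V - 2 * (a + 1) * (2 - (ms W - a)) * t - (a + 1) * (a + 2) * t ^ 2 = 0 at htr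
  obtain ⟨c, hc⟩ : ∃ c : ℝ, c = (1 + t)⁻¹ := ⟨_, rfl⟩
  have ht2 : 0 < 1 + t := by linarith
  have hc0 : 0 < c := by rw [hc]; positivity
  have hc1 : c * (1 + t) = 1 := by rw [hc]; exact inv_mul_cancel₀ ht2.ne'
  have hc2 : c ≤ 1 := by
    by_contra h2
    push Not at h2
    nlinarith
  have hms0 : 0 ≤ ms W := sum_nonneg fun i _ => hA.w0 i
  have hA' : Adm (fun i => c * W i) V := ⟨fun i => mul_nonneg hc0.le (hA.w0 i), hA.sym, hA.u0,
    hA.u1⟩
  have hZW : Zf a W V = 2 * (a + 1) * ms W - (a + 1) * (a + 2) - ed W V := rfl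
  have hPW : Ph a W V = tr W V - 3 * a * ed W V + 3 * a * (a + 1) * ms W -
    a * (a + 1) * (a + 2) := rfl
  have hZ' : Zf a (fun i => c * W i) V = 0 := by
    have h1 : (1 + t) ^ 2 * Zf a (fun i => c * W i) V = 0 := by
      have h2 : Zf a (fun i => c * W i) V = 2 * (a + 1) * ms (fun i => c * W i) -
        (a + 1) * (a + 2) - ed (fun i => c * W i) V := rfl
      rw [h2, ms_scale, ed_scale]
      have h3 : (1 + t) ^ 2 * (2 * (a + 1) * (c * ms W) - (a + 1) * (a + 2) - c ^ 2 * ed W V) =
        2 * (a + 1) * (1 + t) * (c * (1 + t)) * ms W - (a + 1) * (a + 2) * (1 + t) ^ 2 -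
          (c * (1 + t)) ^ 2 * ed W V := by ring
      rw [h3, hc1]
      linear_combination htr - hZW
    rcases mul_eq_zero.mp h1 with h2 | h2
    · exact absurd h2 (by positivity)
    · exact h2
  have hms' : ms (fun i => c * W i) - a ≤ 2 := by
    rw [ms_scale]
    nlinarith
  have hmin := min_all h hneg hA' hZ' hms'
  have hP' : (1 + t) ^ 3 * Ph a (fun i => c * W i) V = Ph a W V + 3 * a * t * Zf a W V -
      3 * a * (a + 1) * (2 - (ms W - a)) * t ^ 2 - a * (a + 1) * (a + 2) * t ^ 3 := by
    have h2 : Ph a (fun i => c * W i) V = tr (fun i => c * W i) V -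
      3 * a * ed (fun i => c * W i) V + 3 * a * (a + 1) * ms (fun i => c * W i) -
      a * (a + 1) * (a + 2) := rfl
    rw [h2, ms_scale, ed_scale, tr_scale]
    have h3 : (1 + t) ^ 3 * (c ^ 3 * tr W V - 3 * a * (c ^ 2 * ed W V) +
        3 * a * (a + 1) * (c * ms W) - a * (a + 1) * (a + 2)) =
      (c * (1 + t)) ^ 3 * tr W V - 3 * a * (1 + t) * ((c * (1 + t)) ^ 2 * ed W V) +
        3 * a * (a + 1) * (1 + t) ^ 2 * (c * (1 + t) * ms W) -
        a * (a + 1) * (a + 2) * (1 + t) ^ 3 := by ring
    rw [h3, hc1, hPW, hZW]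
    ring
  have h1 : (1 + t) ^ 3 * Ph a w U ≤ (1 + t) ^ 3 * Ph a (fun i => c * W i) V :=
    mul_le_mul_of_nonneg_left hmin (by positivity)
  have h2 : Ph a w U * (1 + T) ^ 3 ≤ Ph a w U * (1 + t) ^ 3 := by
    have h3 : (1 + t) ^ 3 ≤ (1 + T) ^ 3 := pow_le_pow_left₀ ht2.le (by linarith) 3
    exact mul_le_mul_of_nonpos_left h3 hneg.le
  have h3 : 3 * a * Zf a W V * t ≤ 3 * a * Zf a W V * T :=
    mul_le_mul_of_nonneg_left ht1 (by positivity)
  have h4 : 0 ≤ 3 * a * (a + 1) * (2 - (ms W - a)) * t ^ 2 := by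
    have : 0 ≤ 2 - (ms W - a) := by linarith
    positivity
  have h5 : 0 ≤ a * (a + 1) * (a + 2) * t ^ 3 := by positivity
  linarith

private theorem deriv_nonneg {G : ℝ → ℝ} {g : ℝ} (hG : HasDerivAt G g 0) (h0 : G 0 = 0)
    (hpos : ∀ᶠ e in nhdsWithin (0 : ℝ) (Set.Ioi 0), 0 ≤ G e) : 0 ≤ g := by
  have h1 := hG.tendsto_slope_zero_right
  refine ge_of_tendsto h1 ?_
  filter_upwards [hpos, self_mem_nhdsWithin] with e he he0
  simp only [zero_add, h0, sub_zero, smul_eq_mul]
  exact mul_nonneg (inv_nonneg.mpr (le_of_lt he0)) he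

/-- the first order condition along a path -/
private theorem path {a : ℝ} (ha : 1 ≤ a) {w : X → ℝ} {U : X → X → ℝ} (h : MinR a w U)
    (hneg : Ph a w U < 0) (hv : ms w - a < 2) {W : ℝ → X → ℝ} {V : ℝ → X → X → ℝ}
    (hW0 : W 0 = w) (hV0 : V 0 = U)
    (hA : ∀ᶠ e in nhdsWithin (0 : ℝ) (Set.Ioi 0), Adm (W e) (V e)) {p z m : ℝ}
    (hP : HasDerivAt (fun e => Ph a (W e) (V e)) p 0)
    (hZ : HasDerivAt (fun e => Zf a (W e) (V e)) z 0)
    (hM : HasDerivAt (fun e => ms (W e)) m 0) (hz : 0 < z) {l : ℝ}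
    (hl : 2 * l * (2 - (ms w - a)) * (a + 1) = -3 * Ph a w U) : 0 ≤ p + l * z := by
  have hZ0 : Zf a w U = 0 := h.1.2.1
  have hD : 0 < 2 * (a + 1) * (2 - (ms w - a)) := by
    have : 0 < 2 - (ms w - a) := by linarith
    positivity
  have hle : l = -3 * Ph a w U / (2 * (a + 1) * (2 - (ms w - a))) := by
    rw [eq_div_iff hD.ne', ← hl]; ring
  have hDe : HasDerivAt (fun e => 2 * (a + 1) * (2 - (ms (W e) - a)))
      (2 * (a + 1) * (-m)) 0 := by
    have := ((hM.sub_const a).const_sub 2).const_mul (2 * (a + 1))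
    exact this
  have hT : HasDerivAt (fun e => Zf a (W e) (V e) / (2 * (a + 1) * (2 - (ms (W e) - a))))
      (z / (2 * (a + 1) * (2 - (ms w - a)))) 0 := by
    have h1 := hZ.div hDe (by rw [hW0]; exact hD.ne')
    refine HasDerivAt.congr_deriv h1 ?_
    rw [hW0, hV0, hZ0, zero_mul, sub_zero, pow_two, mul_div_mul_right _ _ hD.ne']
  have h1 : HasDerivAt (fun e => Ph a (W e) (V e) -
      Ph a w U * (1 + Zf a (W e) (V e) / (2 * (a + 1) * (2 - (ms (W e) - a)))) ^ 3 +
      3 * a * Zf a (W e) (V e) * (Zf a (W e) (V e) / (2 * (a + 1) * (2 - (ms (W e) - a)))))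
      (p - Ph a w U * (3 * (z / (2 * (a + 1) * (2 - (ms w - a)))))) 0 := by
    have h2 := (((hT.const_add 1).pow 3).const_mul (Ph a w U))
    have h3 := (hZ.const_mul (3 * a)).mul hT
    have h4 := (hP.sub h2).add h3
    refine HasDerivAt.congr_deriv h4 ?_
    rw [hW0, hV0, hZ0]
    simp
  have h2 := deriv_nonneg h1 (by rw [hW0, hV0, hZ0]; simp) (by
    have hev1 : ∀ᶠ e in nhdsWithin (0 : ℝ) (Set.Ioi 0), 0 ≤ Zf a (W e) (V e) := by
      have h5 := hZ.tendsto_slope_zero_right
      have h6 := h5.eventually (lt_mem_nhds hz)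
      filter_upwards [h6, self_mem_nhdsWithin] with e he he0
      simp only [zero_add, hW0, hV0, hZ0, sub_zero, smul_eq_mul] at he
      have he1 : 0 < e := he0
      have h7 : Zf a (W e) (V e) = e * (e⁻¹ * Zf a (W e) (V e)) := by
        field_simp
      rw [h7]
      positivity
    have hev2 : ∀ᶠ e in nhdsWithin (0 : ℝ) (Set.Ioi 0), ms (W e) < a + 2 := by
      have h5 : ContinuousAt (fun e => ms (W e)) 0 := hM.continuousAt
      have h6 : (fun e => ms (W e)) 0 < a + 2 := by
        change ms (W 0) < a + 2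
        rw [hW0]; linarith
      exact (h5.eventually (gt_mem_nhds h6)).filter_mono nhdsWithin_le_nhds
    filter_upwards [hA, hev1, hev2] with e he1 he2 he3
    have := key ha h hneg he1 he2 (by linarith)
    linarith)
  rw [hle]
  have h3 : p + -3 * Ph a w U / (2 * (a + 1) * (2 - (ms w - a))) * z =
      p - Ph a w U * (3 * (z / (2 * (a + 1) * (2 - (ms w - a))))) := by ring
  rw [h3]
  exact h2

/-- first order conditions at a minimiser with negative value -/
theorem kktR {a : ℝ} (ha : 1 ≤ a) {w : X → ℝ} {U : X → X → ℝ} (h : MinR a w U)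
    (hneg : Ph a w U < 0) :
    1 < ms w - a ∧ ms w - a < 2 ∧ ∃ l : ℝ, 2 * l * (2 - (ms w - a)) * (a + 1) = -3 * Ph a w U ∧
      (∀ x, 0 < w x → 3 * Zx a w U x = 2 * l * (nn w U x + 1 - (ms w - a))) ∧
      (∀ x y, 0 < w x → 0 < w y → 0 < U x y → co w U x y - a ≤ l / 3) := by
  classical
  obtain ⟨hA, hZ0, hv1, hv2⟩ := h.1
  have hPH := PH a (w := w) hA.sym
  have hsq : 0 ≤ ∑ x, w x * (nn w U x - 1) ^ 2 :=
    sum_nonneg fun x _ => mul_nonneg (hA.w0 x) (sq_nonneg _)
  have hexn : 0 ≤ ∑ x, w x * ex w U x :=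
    sum_nonneg fun x _ => mul_nonneg (hA.w0 x) (ex_nonneg hA x)
  rw [hZ0] at hPH
  have hv1' : 1 < ms w - a := by
    rcases lt_or_eq_of_le hv1 with h1 | h1
    · exact h1
    · exfalso
      rw [← h1] at hPH
      linarith
  have hv2' : ms w - a < 2 := by
    rcases lt_or_eq_of_le hv2 with h1 | h1
    · exact h1
    · exfalso
      rw [h1] at hPH
      linarith
  refine ⟨hv1', hv2', ?_⟩
  have hD : 0 < 2 * (2 - (ms w - a)) * (a + 1) := by
    have : 0 < 2 - (ms w - a) := by linarith
    positivity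
  obtain ⟨l, hl'⟩ : ∃ l, l = -3 * Ph a w U / (2 * (2 - (ms w - a)) * (a + 1)) := ⟨_, rfl⟩
  have hl : 2 * l * (2 - (ms w - a)) * (a + 1) = -3 * Ph a w U := by
    have : l * (2 * (2 - (ms w - a)) * (a + 1)) = -3 * Ph a w U := by
      rw [hl', div_mul_cancel₀ _ hD.ne']
    linarith
  have hZe : Zf a w U = 2 * (a + 1) * ms w - (a + 1) * (a + 2) - ed w U := rfl
  have hPe : Ph a w U = tr w U - 3 * a * ed w U + 3 * a * (a + 1) * ms w -
    a * (a + 1) * (a + 2) := rfl
  -- vertices
  have vert : ∀ x, 0 < w x → ∀ s : ℝ, (s = 1 ∨ s = -1) →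
      0 ≤ -3 * s * Zx a w U x + l * (2 * s * (nn w U x + 1 - (ms w - a))) := by
    intro x hx s hs
    obtain ⟨θ, hθ⟩ : ∃ θ, θ = (|2 * s * (nn w U x + 1 - (ms w - a))| + 1) /
      (2 * (2 - (ms w - a)) * (a + 1)) := ⟨_, rfl⟩
    have hθ0 : 0 ≤ θ := by rw [hθ]; positivity
    have hθ1 : θ * (2 * (2 - (ms w - a)) * (a + 1)) =
        |2 * s * (nn w U x + 1 - (ms w - a))| + 1 := by
      rw [hθ, div_mul_cancel₀ _ hD.ne']
    obtain ⟨d, hd⟩ : ∃ d : X → ℝ, d = fun i => s * (if i = x then 1 else 0) + θ * w i := ⟨_, rfl⟩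
    have hsum : ∀ F : X → ℝ, ∑ y, d y * F y = s * F x + θ * ∑ y, w y * F y := by
      intro F
      rw [hd, mul_sum]
      have : ∀ y, (s * (if y = x then (1 : ℝ) else 0) + θ * w y) * F y =
          (if y = x then s * F y else 0) + θ * (w y * F y) := by
        intro y
        split_ifs <;> ring
      simp_rw [this]
      rw [sum_add_distrib, sum_ite_eq' univ x]
      simp
    have hW : ∀ e : ℝ, (fun i => w i + e * d i) = w - (fun i => -e * d i) := by
      intro e
      ext i
      simp
    -- polynomial expansions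
    have hPp : ∀ e : ℝ, Ph a (fun i => w i + e * d i) U = Ph a w U +
        e * (-3 * (s * Zx a w U x - θ * Ph a w U)) -
        e ^ 2 * (3 * ∑ y, ∑ z, d y * d z * U y z * (a - co w U y z)) + e ^ 3 * tr d U := by
      intro e
      have h1 := Ph_removal a (w := w) (f := fun i => -e * d i) hA.sym
      rw [hW e]
      have h2 : ∑ y, (-e * d y) * (tx w U y - 2 * a * dg w U y + a * (a + 1)) =
          e * (s * Zx a w U x - θ * Ph a w U) := by
        have h3 : ∑ y, (-e * d y) * (tx w U y - 2 * a * dg w U y + a * (a + 1)) =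
            e * ∑ y, d y * Zx a w U y := by
          rw [mul_sum]
          apply sum_congr rfl
          intro y _
          unfold Zx
          ring
        rw [h3, hsum, sum_Zx a hA.sym, hZ0]
        ring
      have h3 : ∑ y, ∑ z, (-e * d y) * (-e * d z) * U y z * (a - co w U y z) =
          e ^ 2 * ∑ y, ∑ z, d y * d z * U y z * (a - co w U y z) := by
        rw [mul_sum]
        apply sum_congr rfl
        intro y _
        rw [mul_sum]
        apply sum_congr rfl
        intro z _
        ring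
      have h4 : tr (fun i => -e * d i) U = -(e ^ 3 * tr d U) := by
        rw [tr_scale]; ring
      rw [h2, h3, h4] at h1
      linarith
    have hZp : ∀ e : ℝ, Zf a (fun i => w i + e * d i) U =
        e * (2 * s * (nn w U x + 1 - (ms w - a)) + θ * (2 * (2 - (ms w - a)) * (a + 1))) -
        e ^ 2 * ed d U := by
      intro e
      have h1 := Zf_removal a (w := w) (f := fun i => -e * d i) hA.sym
      rw [hW e]
      have h2 : ∑ y, (-e * d y) * (a + 1 - dg w U y) =
          -e * (s * (nn w U x + 1 - (ms w - a)) + θ * ((2 - (ms w - a)) * (a + 1))) := by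
        have h3 : ∑ y, (-e * d y) * (a + 1 - dg w U y) = -e * ∑ y, d y * (a + 1 - dg w U y) := by
          rw [mul_sum]
          apply sum_congr rfl
          intro y _
          ring
        have h4 : ∑ y, w y * (a + 1 - dg w U y) = (a + 1) * ms w - ed w U := by
          unfold ms dg ed
          rw [mul_sum, ← sum_sub_distrib]
          apply sum_congr rfl
          intro y _
          rw [mul_sub, mul_sum]
          congr 1
          · ring
          · apply sum_congr rfl
            intro j _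
            ring
        rw [h3, hsum, h4, nn_eq]
        have h5 : ed w U = 2 * (a + 1) * ms w - (a + 1) * (a + 2) := by linarith
        rw [h5]
        ring
      have h4 : ed (fun i => -e * d i) U = e ^ 2 * ed d U := by
        rw [ed_scale]; ring
      rw [h2, h4, hZ0] at h1
      linarith
    have hP : HasDerivAt (fun e => Ph a (fun i => w i + e * d i) U)
        (-3 * (s * Zx a w U x - θ * Ph a w U)) 0 := by
      simp_rw [hPp]
      have h1 : HasDerivAt (fun e : ℝ => e) 1 0 := hasDerivAt_id 0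
      have h2 := (((h1.mul_const (-3 * (s * Zx a w U x - θ * Ph a w U))).const_add
        (Ph a w U)).sub ((h1.pow 2).mul_const
          (3 * ∑ y, ∑ z, d y * d z * U y z * (a - co w U y z)))).add
          ((h1.pow 3).mul_const (tr d U))
      refine HasDerivAt.congr_deriv h2 ?_
      simp
    have hZ : HasDerivAt (fun e => Zf a (fun i => w i + e * d i) U)
        (2 * s * (nn w U x + 1 - (ms w - a)) + θ * (2 * (2 - (ms w - a)) * (a + 1))) 0 := by
      simp_rw [hZp]
      have h1 : HasDerivAt (fun e : ℝ => e) 1 0 := hasDerivAt_id 0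
      have h2 := (h1.mul_const (2 * s * (nn w U x + 1 - (ms w - a)) +
        θ * (2 * (2 - (ms w - a)) * (a + 1)))).sub ((h1.pow 2).mul_const (ed d U))
      refine HasDerivAt.congr_deriv h2 ?_
      simp
    have hM : HasDerivAt (fun e => ms (fun i => w i + e * d i)) (ms d) 0 := by
      have h1 : ∀ e : ℝ, ms (fun i => w i + e * d i) = ms w + e * ms d := by
        intro e
        unfold ms
        rw [mul_sum, ← sum_add_distrib]
      simp_rw [h1]
      have h2 : HasDerivAt (fun e : ℝ => e) 1 0 := hasDerivAt_id 0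
      have h3 := (h2.mul_const (ms d)).const_add (ms w)
      simpa using h3
    have hAe : ∀ᶠ e in nhdsWithin (0 : ℝ) (Set.Ioi 0), Adm (fun i => w i + e * d i) U := by
      have h1 : Set.Ioo (0 : ℝ) (w x) ∈ nhdsWithin (0 : ℝ) (Set.Ioi 0) :=
        Ioo_mem_nhdsGT hx
      filter_upwards [h1] with e he
      refine ⟨fun i => ?_, hA.sym, hA.u0, hA.u1⟩
      have he0 : 0 < e := he.1
      have hwi := hA.w0 i
      rw [hd]
      have h3 : 0 ≤ e * (θ * w i) := by positivity
      by_cases hi : i = x
      · subst hi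
        simp only [if_true]
        rcases hs with hs | hs <;> rw [hs]
        · have : 0 ≤ e := he0.le
          linarith
        · linarith [he.2]
      · simp only [hi, if_false]
        linarith
    have hz : 0 < 2 * s * (nn w U x + 1 - (ms w - a)) + θ * (2 * (2 - (ms w - a)) * (a + 1)) := by
      rw [hθ1]
      have := neg_abs_le (2 * s * (nn w U x + 1 - (ms w - a)))
      linarith
    have := path ha h hneg hv2' (W := fun e i => w i + e * d i) (V := fun _ => U)
      (by ext i; simp) rfl hAe hP hZ hM hz hl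
    linear_combination this + θ * hl
  have vert' : ∀ x, 0 < w x → 3 * Zx a w U x = 2 * l * (nn w U x + 1 - (ms w - a)) := by
    intro x hx
    have h1 := vert x hx 1 (Or.inl rfl)
    have h2 := vert x hx (-1) (Or.inr rfl)
    linarith
  refine ⟨l, hl, vert', ?_⟩
  -- edges
  intro x y hx hy hxy
  have hl0 : 0 < l := by
    rw [hl']
    apply div_pos _ hD
    linarith
  obtain ⟨E, hE⟩ : ∃ E : X → X → ℝ, E = fun i j => -((if i = x then (1 : ℝ) else 0) *
    (if j = y then 1 else 0) + (if i = y then 1 else 0) * (if j = x then 1 else 0)) := ⟨_, rfl⟩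
  have hEs : ∀ i j, E i j = E j i := by
    intro i j; rw [hE]; ring
  have hEle : ∀ i j, E i j ≤ 0 := by
    intro i j; rw [hE]
    have h1 : (0 : ℝ) ≤ (if i = x then (1 : ℝ) else 0) := by split_ifs <;> norm_num
    have h2 : (0 : ℝ) ≤ (if j = y then (1 : ℝ) else 0) := by split_ifs <;> norm_num
    have h3 : (0 : ℝ) ≤ (if i = y then (1 : ℝ) else 0) := by split_ifs <;> norm_num
    have h4 : (0 : ℝ) ≤ (if j = x then (1 : ℝ) else 0) := by split_ifs <;> norm_num
    have h5 := mul_nonneg h1 h2
    have h6 := mul_nonneg h3 h4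
    change -((if i = x then (1 : ℝ) else 0) * (if j = y then 1 else 0) +
      (if i = y then 1 else 0) * (if j = x then 1 else 0)) ≤ 0
    linarith
  have hEge : ∀ i j, -2 ≤ E i j := by
    intro i j; rw [hE]
    change -2 ≤ -((if i = x then (1 : ℝ) else 0) * (if j = y then 1 else 0) +
      (if i = y then 1 else 0) * (if j = x then 1 else 0))
    split_ifs <;> norm_num
  have hE0 : ∀ i j, E i j ≠ 0 → (i = x ∧ j = y) ∨ (i = y ∧ j = x) := by
    intro i j hij
    by_contra hcon
    push Not at hcon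
    apply hij
    rw [hE]
    change -((if i = x then (1 : ℝ) else 0) * (if j = y then 1 else 0) +
      (if i = y then 1 else 0) * (if j = x then 1 else 0)) = 0
    have h1 : (if i = x then (1 : ℝ) else 0) * (if j = y then 1 else 0) = 0 := by
      by_cases h2 : i = x
      · simp [hcon.1 h2]
      · simp [h2]
    have h2 : (if i = y then (1 : ℝ) else 0) * (if j = x then 1 else 0) = 0 := by
      by_cases h2 : i = y
      · simp [hcon.2 h2]
      · simp [h2]
    rw [h1, h2]; simp
  have hsumE : ∀ F : X → X → ℝ, (∀ i j, F i j = F j i) →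
      ∑ i, ∑ j, E i j * F i j = -2 * F x y := by
    intro F hF
    have h1 : ∀ i j, E i j * F i j = -((if i = x then (if j = y then F i j else 0) else 0) +
        (if i = y then (if j = x then F i j else 0) else 0)) := by
      intro i j
      rw [hE]
      change -((if i = x then (1 : ℝ) else 0) * (if j = y then 1 else 0) +
        (if i = y then 1 else 0) * (if j = x then 1 else 0)) * F i j = _
      split_ifs <;> ring
    simp_rw [h1, sum_neg_distrib, sum_add_distrib]
    have h2 : ∑ i, ∑ j, (if i = x then (if j = y then F i j else 0) else 0) = F x y := by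
      rw [Finset.sum_eq_single x]
      · simp
      · intro b _ hb; simp [hb]
      · simp
    have h3 : ∑ i, ∑ j, (if i = y then (if j = x then F i j else 0) else 0) = F y x := by
      rw [Finset.sum_eq_single y]
      · simp
      · intro b _ hb; simp [hb]
      · simp
    rw [h2, h3, hF y x]
    ring
  obtain ⟨V, hV⟩ : ∃ V : ℝ → X → X → ℝ, V = fun e i j => U i j + e * E i j := ⟨_, rfl⟩
  obtain ⟨t2, ht2⟩ : ∃ t2 : ℝ, t2 = ∑ i, ∑ j, ∑ k,
    (E i j * E j k * U i k + E i j * U j k * E i k + U i j * E j k * E i k) * w i * w j * w k :=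
    ⟨_, rfl⟩
  have htr : ∀ e : ℝ, tr w (V e) = tr w U + e * (-6 * (co w U x y * (w x * w y))) + e ^ 2 * t2 +
      e ^ 3 * tr w E := by
    intro e
    have h1 : tr w (V e) = tr w U + e * ∑ i, ∑ j, ∑ k,
        (E i j * U j k * U i k + U i j * E j k * U i k + U i j * U j k * E i k) *
          w i * w j * w k + e ^ 2 * t2 + e ^ 3 * tr w E := by
      rw [ht2, hV]
      unfold tr
      simp only [mul_sum, ← sum_add_distrib]
      apply sum_congr rfl
      intro i _
      apply sum_congr rfl
      intro j _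
      apply sum_congr rfl
      intro k _
      ring
    have hF : ∑ i, ∑ j, E i j * (co w U i j * (w i * w j)) = -2 * (co w U x y * (w x * w y)) := by
      apply hsumE
      intro i j
      have : co w U i j = co w U j i := by
        unfold co
        apply sum_congr rfl
        intro k _
        ring
      rw [this]; ring
    have h2 : ∑ i, ∑ j, ∑ k, E i j * U j k * U i k * w i * w j * w k =
        -2 * (co w U x y * (w x * w y)) := by
      rw [← hF]
      apply sum_congr rfl
      intro i _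
      apply sum_congr rfl
      intro j _
      unfold co
      rw [sum_mul, mul_sum]
      apply sum_congr rfl
      intro k _
      ring
    have h3 : ∑ i, ∑ j, ∑ k, U i j * E j k * U i k * w i * w j * w k =
        -2 * (co w U x y * (w x * w y)) := by
      rw [← h2]
      rw [sum_comm]
      apply sum_congr rfl
      intro j _
      rw [sum_comm]
      apply sum_congr rfl
      intro k _
      apply sum_congr rfl
      intro i _
      rw [hA.sym i j, hA.sym i k]
      ring
    have h4 : ∑ i, ∑ j, ∑ k, U i j * U j k * E i k * w i * w j * w k =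
        -2 * (co w U x y * (w x * w y)) := by
      rw [← h2]
      apply sum_congr rfl
      intro i _
      rw [sum_comm]
      apply sum_congr rfl
      intro k _
      apply sum_congr rfl
      intro j _
      rw [hA.sym j k]
      ring
    have h5 : ∑ i, ∑ j, ∑ k,
        (E i j * U j k * U i k + U i j * E j k * U i k + U i j * U j k * E i k) *
          w i * w j * w k = -6 * (co w U x y * (w x * w y)) := by
      have h6 : ∑ i, ∑ j, ∑ k,
        (E i j * U j k * U i k + U i j * E j k * U i k + U i j * U j k * E i k) *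
          w i * w j * w k = ∑ i, ∑ j, ∑ k, E i j * U j k * U i k * w i * w j * w k +
          ∑ i, ∑ j, ∑ k, U i j * E j k * U i k * w i * w j * w k +
          ∑ i, ∑ j, ∑ k, U i j * U j k * E i k * w i * w j * w k := by
        simp only [← sum_add_distrib]
        apply sum_congr rfl
        intro i _
        apply sum_congr rfl
        intro j _
        apply sum_congr rfl
        intro k _
        ring
      rw [h6, h2, h3, h4]
      ring
    rw [h1, h5]
  have hed : ∀ e : ℝ, ed w (V e) = ed w U + e * (-2 * (w x * w y)) := by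
    intro e
    have h1 := hsumE (fun i j => w i * w j) (by intro i j; ring)
    rw [← h1, hV]
    unfold ed
    simp only [mul_sum, ← sum_add_distrib]
    apply sum_congr rfl
    intro i _
    apply sum_congr rfl
    intro j _
    ring
  obtain ⟨W, hW⟩ : ∃ W : ℝ → X → ℝ, W = fun e i => (1 + e * 0) * w i := ⟨_, rfl⟩
  have hWe : ∀ e, W e = w := by intro e; rw [hW]; ext i; simp
  have h1d : HasDerivAt (fun e : ℝ => e) 1 0 := hasDerivAt_id 0
  have hP : HasDerivAt (fun e => Ph a (W e) (V e))
      (-6 * (co w U x y * (w x * w y)) - 3 * a * (-2 * (w x * w y))) 0 := by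
    have h1 : ∀ e, Ph a (W e) (V e) = (tr w U + e * (-6 * (co w U x y * (w x * w y))) +
        e ^ 2 * t2 + e ^ 3 * tr w E) - 3 * a * (ed w U + e * (-2 * (w x * w y))) +
        3 * a * (a + 1) * ms w - a * (a + 1) * (a + 2) := by
      intro e
      rw [hWe e]
      unfold Ph
      rw [htr e, hed e]
    simp_rw [h1]
    have h2 := (((((h1d.mul_const (-6 * (co w U x y * (w x * w y)))).const_add (tr w U)).add
      ((h1d.pow 2).mul_const t2)).add ((h1d.pow 3).mul_const (tr w E))).sub
      (((h1d.mul_const (-2 * (w x * w y))).const_add (ed w U)).const_mul (3 * a))).add_const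
      (3 * a * (a + 1) * ms w)
    have h3 := h2.sub_const (a * (a + 1) * (a + 2))
    refine HasDerivAt.congr_deriv h3 ?_
    simp
  have hZ : HasDerivAt (fun e => Zf a (W e) (V e)) (2 * (w x * w y)) 0 := by
    have h1 : ∀ e, Zf a (W e) (V e) = 2 * (a + 1) * ms w - (a + 1) * (a + 2) -
        (ed w U + e * (-2 * (w x * w y))) := by
      intro e
      rw [hWe e]
      unfold Zf
      rw [hed e]
    simp_rw [h1]
    have h2 := ((h1d.mul_const (-2 * (w x * w y))).const_add (ed w U)).const_sub
      (2 * (a + 1) * ms w - (a + 1) * (a + 2))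
    refine HasDerivAt.congr_deriv h2 ?_
    ring
  have hM : HasDerivAt (fun e => ms (W e)) 0 0 := by
    simp_rw [hWe]
    exact hasDerivAt_const 0 _
  have hAe : ∀ᶠ e in nhdsWithin (0 : ℝ) (Set.Ioi 0), Adm (W e) (V e) := by
    have h1 : Set.Ioo (0 : ℝ) (U x y / 2) ∈ nhdsWithin (0 : ℝ) (Set.Ioi 0) :=
      Ioo_mem_nhdsGT (by positivity)
    filter_upwards [h1] with e he
    rw [hWe e]
    have he0 : 0 < e := he.1
    refine ⟨hA.w0, fun i j => ?_, fun i j => ?_, fun i j => ?_⟩
    · rw [hV]
      change U i j + e * E i j = U j i + e * E j i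
      rw [hA.sym i j, hEs i j]
    · rw [hV]
      change 0 ≤ U i j + e * E i j
      by_cases h2 : E i j = 0
      · rw [h2]; simpa using hA.u0 i j
      · have h3 : U i j = U x y := by
          rcases hE0 i j h2 with ⟨h4, h5⟩ | ⟨h4, h5⟩
          · rw [h4, h5]
          · rw [h4, h5]; exact hA.sym y x
        rw [h3]
        have := hEge i j
        have h6 := he.2
        nlinarith
    · rw [hV]
      change U i j + e * E i j ≤ 1
      have := hEle i j
      have := hA.u1 i j
      nlinarith
  have hww : 0 < w x * w y := mul_pos hx hy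
  have := path ha h hneg hv2' (W := W) (V := V) (hWe 0) (by rw [hV]; ext i j; simp) hAe hP hZ hM
    (by positivity) hl
  have h2 : 0 ≤ (w x * w y) * (2 * l - 6 * (co w U x y - a)) := by
    linear_combination this
  have h3 : 0 ≤ 2 * l - 6 * (co w U x y - a) := by
    by_contra h4
    push Not at h4
    nlinarith [mul_neg_of_pos_of_neg hww h4]
  linarith

end LibTri47
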