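import Pool.Agent.LibTri47.Ident

set_option autoImplicit false

/-! # Minimisers for Razborov's theorem and their first order conditions -/

namespace LibTri47

open Finset

variable {X : Type} [Fintype X]

theorem rmin_continuous_Ph (a : ℝ) :
    Continuous fun p : (X → ℝ) × (X → X → ℝ) => Ph a p.1 p.2 := by
  unfold Ph tr ed ms
  fun_prop

theorem rmin_continuous_Zf (a : ℝ) :
    Continuous fun p : (X → ℝ) × (X → X → ℝ) => Zf a p.1 p.2 := by
  unfold Zf ed ms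
  fun_prop

theorem rmin_continuous_ms :
    Continuous fun p : (X → ℝ) × (X → X → ℝ) => ms p.1 := by
  unfold ms
  fun_prop

omit [Fintype X] in
theorem rmin_isClosed_Adm : IsClosed {p : (X → ℝ) × (X → X → ℝ) | Adm p.1 p.2} := by
  have e : {p : (X → ℝ) × (X → X → ℝ) | Adm p.1 p.2} =
      (⋂ i, {p | 0 ≤ p.1 i}) ∩ ((⋂ i, ⋂ j, {p | p.2 i j = p.2 j i}) ∩
        ((⋂ i, ⋂ j, {p | 0 ≤ p.2 i j}) ∩ (⋂ i, ⋂ j, {p | p.2 i j ≤ 1}))) := by
    ext p
    simp only [Set.mem_ofPred_eq, Set.mem_inter_iff, Set.mem_iInter]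
    exact ⟨fun h => ⟨h.w0, h.sym, h.u0, h.u1⟩, fun h => ⟨h.1, h.2.1, h.2.2.1, h.2.2.2⟩⟩
  rw [e]
  refine (isClosed_iInter fun i => ?_).inter ((isClosed_iInter fun i => isClosed_iInter fun j => ?_).inter
    ((isClosed_iInter fun i => isClosed_iInter fun j => ?_).inter
      (isClosed_iInter fun i => isClosed_iInter fun j => ?_)))
  · exact isClosed_le continuous_const (by fun_prop)
  · exact isClosed_eq (by fun_prop) (by fun_prop)
  · exact isClosed_le continuous_const (by fun_prop)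
  · exact isClosed_le (by fun_prop) continuous_const

/-- the box containing the admissible pairs of bounded mass -/
theorem Adm.rmin_mem_box {w : X → ℝ} {U : X → X → ℝ} (h : Adm w U) {B : ℝ} (hB : ms w ≤ B) :
    ((w, U) : (X → ℝ) × (X → X → ℝ)) ∈
      Set.Icc ((fun _ => 0, fun _ _ => 0) : (X → ℝ) × (X → X → ℝ)) (fun _ => B, fun _ _ => 1) := by
  refine ⟨⟨fun i => h.w0 i, fun i j => h.u0 i j⟩, ⟨fun i => ?_, fun i j => h.u1 i j⟩⟩
  exact (Finset.single_le_sum (f := w) (fun j _ => h.w0 j) (Finset.mem_univ i)).trans hB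

theorem rmin_isClosed_FeR (a : ℝ) : IsClosed {p : (X → ℝ) × (X → X → ℝ) | FeR a p.1 p.2} := by
  have e : {p : (X → ℝ) × (X → X → ℝ) | FeR a p.1 p.2} =
      {p | Adm p.1 p.2} ∩ ({p | Zf a p.1 p.2 = 0} ∩
        ({p | 1 ≤ ms p.1 - a} ∩ {p | ms p.1 - a ≤ 2})) := by
    ext p
    rfl
  rw [e]
  have hms : Continuous fun p : (X → ℝ) × (X → X → ℝ) => ms p.1 - a :=
    rmin_continuous_ms.sub continuous_const
  have h1 : IsClosed {p : (X → ℝ) × (X → X → ℝ) | Zf a p.1 p.2 = 0} :=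
    isClosed_eq (rmin_continuous_Zf a) continuous_const
  have h2 : IsClosed {p : (X → ℝ) × (X → X → ℝ) | 1 ≤ ms p.1 - a} :=
    isClosed_le continuous_const hms
  have h3 : IsClosed {p : (X → ℝ) × (X → X → ℝ) | ms p.1 - a ≤ 2} :=
    isClosed_le hms continuous_const
  exact rmin_isClosed_Adm.inter (h1.inter (h2.inter h3))

/-- compact sets of admissible pairs -/
theorem rmin_isCompact_of_ms_le {S : Set ((X → ℝ) × (X → X → ℝ))} {B : ℝ} (hc : IsClosed S)
    (hS : ∀ p ∈ S, Adm p.1 p.2 ∧ ms p.1 ≤ B) : IsCompact S := by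
  have hI : IsCompact (Set.Icc ((fun _ => 0, fun _ _ => 0) : (X → ℝ) × (X → X → ℝ))
      (fun _ => B, fun _ _ => 1)) := isCompact_Icc
  refine hI.of_isClosed_subset hc ?_
  intro p hp
  exact (hS p hp).1.rmin_mem_box (hS p hp).2

/-- compactness -/
theorem exists_minR {a : ℝ} (ha : 1 ≤ a) {w1 : X → ℝ} {U1 : X → X → ℝ} (h : FeR a w1 U1) :
    ∃ (w : X → ℝ) (U : X → X → ℝ), MinR a w U := by
  clear ha
  obtain ⟨S, hS⟩ : ∃ S : Set ((X → ℝ) × (X → X → ℝ)), S = {p | FeR a p.1 p.2} := ⟨_, rfl⟩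
  have hmem : ∀ p, p ∈ S ↔ FeR a p.1 p.2 := by
    intro p
    rw [hS]
    exact Iff.rfl
  have hcomp : IsCompact S := by
    refine rmin_isCompact_of_ms_le (B := a + 2) (hS ▸ rmin_isClosed_FeR a) fun p hp => ?_
    have hp' := (hmem p).1 hp
    exact ⟨hp'.1, by linarith [hp'.2.2.2]⟩
  have hne : S.Nonempty := ⟨(w1, U1), (hmem _).2 h⟩
  have hcont := (rmin_continuous_Ph (X := X) a).continuousOn (s := S)
  obtain ⟨p, hp, hmin⟩ := hcomp.exists_isMinOn hne hcont
  refine ⟨p.1, p.2, ?_⟩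
  unfold MinR
  refine ⟨(hmem p).1 hp, ?_⟩
  intro w' U' h'
  have h2 := (isMinOn_iff.1 hmin) (w', U') ((hmem (w', U')).2 h')
  exact h2

end LibTri47
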