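import Pool.Agent.LibTri47.Descent
import Pool.Agent.LibTri47.Razb

set_option autoImplicit false

/-! # First order conditions for the main inequality -/

namespace LibTri47

open Finset

variable {X : Type} [Fintype X]

/-- first order change of `Ph` -/
noncomputable def kG (a : ℝ) (w : X → ℝ) (U : X → X → ℝ) (d : X → ℝ) (E : X → X → ℝ) : ℝ :=
  -3 * ∑ x, d x * Zx a w U x + 3 * ∑ x, ∑ y, E x y * (co w U x y - a) * w x * w y

/-- first order change of `Y2` for fixed `K` -/
noncomputable def kD (K : ℝ) (w : X → ℝ) (U : X → X → ℝ) (d : X → ℝ) (E : X → X → ℝ) : ℝ :=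
  ∑ x, d x * yy K w U x ^ 2 + 2 / K * ∑ x, w x * yy K w U x *
      ∑ j, ((1 - U x j) * d j - E x j * w j)

/-- the first order change of `Y2` under scaling, times `K` -/
noncomputable def kS (K : ℝ) (w : X → ℝ) (U : X → X → ℝ) : ℝ :=
  3 * K * Y2 K w U + 2 * (1 - K) * Y1 K w U

theorem nn_mul_yy {K : ℝ} (hK : 0 < K) (w : X → ℝ) (U : X → X → ℝ) (x : X) :
    nn w U x * yy K w U x = (1 - K) * yy K w U x + K * yy K w U x ^ 2 := by
  unfold yy
  rcases le_total ((nn w U x - 1 + K) / K) 0 with h | h
  · rw [max_eq_left h]; ring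
  · rw [max_eq_right h]
    have : nn w U x = 1 - K + K * ((nn w U x - 1 + K) / K) := by
      field_simp; ring
    nlinarith [congrArg (fun t => t * ((nn w U x - 1 + K) / K)) this]

theorem kG_add_smul (a : ℝ) {w : X → ℝ} {U : X → X → ℝ} (hs : ∀ i j, U i j = U j i)
    (d : X → ℝ) (E : X → X → ℝ) (t : ℝ) :
    kG a w U (d + t • w) E = kG a w U d E - 3 * t * (a * Zf a w U - Ph a w U) := by
  unfold kG
  have h1 : ∑ x, (d + t • w) x * Zx a w U x = ∑ x, d x * Zx a w U x +
      t * ∑ x, w x * Zx a w U x := by
    rw [Finset.mul_sum, ← Finset.sum_add_distrib]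
    apply Finset.sum_congr rfl
    intro x _
    simp only [Pi.add_apply, Pi.smul_apply, smul_eq_mul]
    ring
  rw [h1, sum_Zx a hs]
  ring

theorem kD_add_smul {K : ℝ} (hK : 0 < K) (w : X → ℝ) (U : X → X → ℝ)
    (d : X → ℝ) (E : X → X → ℝ) (t : ℝ) :
    kD K w U (d + t • w) E = kD K w U d E + t * (kS K w U / K) := by
  unfold kD
  have h1 : ∑ x, (d + t • w) x * yy K w U x ^ 2 = ∑ x, d x * yy K w U x ^ 2 +
      t * Y2 K w U := by
    unfold Y2
    rw [Finset.mul_sum, ← Finset.sum_add_distrib]
    apply Finset.sum_congr rfl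
    intro x _
    simp only [Pi.add_apply, Pi.smul_apply, smul_eq_mul]
    ring
  have h2 : ∀ x, ∑ j, ((1 - U x j) * (d + t • w) j - E x j * w j) =
      ∑ j, ((1 - U x j) * d j - E x j * w j) + t * nn w U x := by
    intro x
    unfold nn
    rw [Finset.mul_sum, ← Finset.sum_add_distrib]
    apply Finset.sum_congr rfl
    intro j _
    simp only [Pi.add_apply, Pi.smul_apply, smul_eq_mul]
    ring
  have h3 : ∑ x, w x * yy K w U x * ∑ j, ((1 - U x j) * (d + t • w) j - E x j * w j) =
      ∑ x, w x * yy K w U x * ∑ j, ((1 - U x j) * d j - E x j * w j) +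
        t * ((1 - K) * Y1 K w U + K * Y2 K w U) := by
    unfold Y1 Y2
    rw [Finset.mul_sum, Finset.mul_sum, ← Finset.sum_add_distrib, Finset.mul_sum,
      ← Finset.sum_add_distrib]
    apply Finset.sum_congr rfl
    intro x _
    rw [h2 x]
    have := nn_mul_yy hK w U x
    linear_combination w x * t * this
  rw [h1, h3]
  unfold kS
  field_simp
  ring

omit [Fintype X] in
/-- admissibility of a direction with constant `K` is stable under adding multiples of `w` -/
theorem adm_add_smul {w : X → ℝ} {U : X → X → ℝ} {d : X → ℝ} {E : X → X → ℝ}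
    (hadm : ∃ e0 : ℝ, 0 < e0 ∧ ∀ e : ℝ, 0 ≤ e → e ≤ e0 → Adm (w + e • d) (U + e • E)) (t : ℝ) :
    ∃ e0 : ℝ, 0 < e0 ∧ ∀ e : ℝ, 0 ≤ e → e ≤ e0 →
      Adm (w + e • (d + t • w)) (U + e • E) := by
  obtain ⟨e0, he0, hadm⟩ := hadm
  have ht : 0 < 2 * |t| + 2 := by positivity
  refine ⟨min (e0 / 2) (1 / (2 * |t| + 2)), lt_min (by linarith) (by positivity), ?_⟩
  intro e he hle
  have h1 : e ≤ e0 / 2 := hle.trans (min_le_left _ _)
  have h2 : e ≤ 1 / (2 * |t| + 2) := hle.trans (min_le_right _ _)
  have h3 : e * (2 * |t| + 2) ≤ 1 := by rwa [le_div_iff₀ ht] at h2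
  have h4 : -(1 / 2) ≤ e * t := by
    have := neg_abs_le t
    nlinarith
  have hc : 0 < 1 + e * t := by linarith
  have hAe := hadm e he (by linarith)
  refine ⟨?_, hAe.sym, hAe.u0, hAe.u1⟩
  intro i
  have h5 := (hadm (e / (1 + e * t)) (by positivity) (by
    rw [div_le_iff₀ hc]; nlinarith)).w0 i
  have h6 : (w + e • (d + t • w)) i = (1 + e * t) * ((w + (e / (1 + e * t)) • d) i) := by
    simp only [Pi.add_apply, Pi.smul_apply, smul_eq_mul]
    field_simp
    ring
  rw [h6]
  exact mul_nonneg hc.le h5

theorem kktS {a K0 : ℝ} (ha : 1 ≤ a) (hK0 : 0 < K0) {w : X → ℝ} {U : X → X → ℝ} {K : ℝ}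
    (h : MinS a K0 w U K) (hneg : Ph a w U < 0) (hZ : 0 < Zf a w U) :
    Y2 K w U = a ∧ a ≤ Y1 K w U ∧ (K0 < K → Y1 K w U = a) ∧
    ∃ m : ℝ, 0 ≤ m ∧ m * (3 * K * a + 2 * (1 - K) * Y1 K w U) = 3 * (a * Zf a w U - Ph a w U) ∧
      (∀ x, 0 < w x → 3 * Zx a w U x =
        m * (2 * ∑ z, (1 - U x z) * w z * yy K w U z + K * yy K w U x ^ 2)) ∧
      (∀ x y, 0 < w x → 0 < w y → 0 < U x y →
        3 * (co w U x y - a) ≤ m * (yy K w U x + yy K w U y)) := by
  classical
  have hfe := h.1
  obtain ⟨hA, hKK, hK1, hY, hZ0⟩ := hfe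
  have hK : 0 < K := lt_of_lt_of_le hK0 hKK
  obtain ⟨-, -, -, hKlt⟩ := feas_v (by linarith) hA hK hK1 hY hZ0
  obtain ⟨P, hP⟩ : ∃ P, P = a * Zf a w U - Ph a w U := ⟨_, rfl⟩
  have hP0 : 0 < P := by rw [hP]; nlinarith
  -- the descent statement in terms of kG, kD
  have hdesc : ∀ (d : X → ℝ) (E : X → X → ℝ) (k : ℝ), (∀ i j, E i j = E j i) →
      (∃ e0 : ℝ, 0 < e0 ∧ ∀ e : ℝ, 0 ≤ e → e ≤ e0 →
        Adm (w + e • d) (U + e • E) ∧ K0 ≤ K + e * k ∧ K + e * k ≤ 1) →
      (Y2 K w U < a ∨ kD K w U d E + k * (2 / K * (Y1 K w U - Y2 K w U)) < 0) →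
      0 ≤ kG a w U d E := by
    intro d E k hE hadm hdS
    exact descent ha hK0 h hZ hE hadm hdS
  -- scaling directions
  have hscale : ∀ t : ℝ, 0 ≤ t → ∀ e : ℝ, 0 ≤ e →
      Adm (w + e • ((0 : X → ℝ) + t • w)) (U + e • (0 : X → X → ℝ)) := by
    intro t ht e he
    have hU : U + e • (0 : X → X → ℝ) = U := by simp
    rw [hU]
    refine ⟨?_, hA.sym, hA.u0, hA.u1⟩
    intro i
    simp only [Pi.add_apply, Pi.smul_apply, smul_eq_mul, zero_add]
    have := hA.w0 i
    positivity
  have hG0 : ∀ t : ℝ, kG a w U ((0 : X → ℝ) + t • w) 0 = - 3 * t * P := by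
    intro t
    rw [kG_add_smul a hA.sym, hP]
    simp [kG]
  have hD0 : ∀ t : ℝ, kD K w U ((0 : X → ℝ) + t • w) 0 = t * (kS K w U / K) := by
    intro t
    rw [kD_add_smul hK]
    simp [kD]
  have hY2 : Y2 K w U = a := by
    by_contra hne
    have hlt : Y2 K w U < a := lt_of_le_of_ne hY hne
    have := hdesc ((0 : X → ℝ) + (1:ℝ) • w) 0 0 (fun _ _ => rfl)
      ⟨1, one_pos, fun e he _ => ⟨hscale 1 zero_le_one e he, by linarith, by linarith⟩⟩
      (Or.inl hlt)
    rw [hG0] at this
    linarith
  have hY10 : 0 ≤ Y1 K w U := by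
    unfold Y1
    exact Finset.sum_nonneg fun x _ => mul_nonneg (hA.w0 x) (yy_nonneg K w U x)
  have hS : kS K w U = 3 * K * a + 2 * (1 - K) * Y1 K w U := by
    unfold kS; rw [hY2]
  have hSpos : 0 < kS K w U := by
    rw [hS]
    have h1 : 0 < K * a := mul_pos hK (by linarith)
    have h2 : 0 ≤ (1 - K) * Y1 K w U := mul_nonneg (by linarith) hY10
    nlinarith
  have hY1 : a ≤ Y1 K w U := by
    by_contra hlt
    push Not at hlt
    obtain ⟨t, ht⟩ : ∃ t, t = (a - Y1 K w U) / kS K w U := ⟨_, rfl⟩
    have htp : 0 < t := by rw [ht]; exact div_pos (by linarith) hSpos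
    have := hdesc ((0 : X → ℝ) + t • w) 0 1 (fun _ _ => rfl)
      ⟨1 - K, by linarith, fun e he he' => ⟨hscale t htp.le e he, by linarith, by linarith⟩⟩
      (Or.inr (by
        rw [hD0, hY2]
        have : t * (kS K w U / K) = (a - Y1 K w U) / K := by
          rw [ht]; field_simp
        rw [this]
        have h2 : (a - Y1 K w U) / K + 1 * (2 / K * (Y1 K w U - a)) = -((a - Y1 K w U) / K) := by
          ring
        rw [h2]
        have := div_pos (by linarith : 0 < a - Y1 K w U) hK
        linarith))
    rw [hG0] at this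
    nlinarith [mul_pos htp hP0]
  refine ⟨hY2, hY1, ?_, 3 * P / kS K w U, by positivity, ?_, ?_⟩
  · intro hK0K
    by_contra hne
    have hlt : a < Y1 K w U := lt_of_le_of_ne hY1 (Ne.symm hne)
    obtain ⟨t, ht⟩ : ∃ t, t = (Y1 K w U - a) / kS K w U := ⟨_, rfl⟩
    have htp : 0 < t := by rw [ht]; exact div_pos (by linarith) hSpos
    have := hdesc ((0 : X → ℝ) + t • w) 0 (-1) (fun _ _ => rfl)
      ⟨K - K0, by linarith, fun e he he' => ⟨hscale t htp.le e he, by linarith, by linarith⟩⟩
      (Or.inr (by
        rw [hD0, hY2]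
        have : t * (kS K w U / K) = (Y1 K w U - a) / K := by
          rw [ht]; field_simp
        rw [this]
        have h2 : (Y1 K w U - a) / K + (-1) * (2 / K * (Y1 K w U - a)) = -((Y1 K w U - a) / K) := by
          ring
        rw [h2]
        have := div_pos (by linarith : 0 < Y1 K w U - a) hK
        linarith))
    rw [hG0] at this
    nlinarith [mul_pos htp hP0]
  · rw [← hS, ← hP]
    field_simp
  -- the key inequality for admissible directions
  have key : ∀ (d : X → ℝ) (E : X → X → ℝ), (∀ i j, E i j = E j i) →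
      (∃ e0 : ℝ, 0 < e0 ∧ ∀ e : ℝ, 0 ≤ e → e ≤ e0 → Adm (w + e • d) (U + e • E)) →
      0 ≤ kG a w U d E + K * (3 * P / kS K w U) * kD K w U d E := by
    intro d E hE hadm
    by_contra hlt
    push Not at hlt
    have h1 : kG a w U d E / (3 * P) < -(K * kD K w U d E / kS K w U) := by
      rw [div_lt_iff₀ (by positivity)]
      have : K * (3 * P / kS K w U) * kD K w U d E =
        (K * kD K w U d E / kS K w U) * (3 * P) := by ring
      rw [this] at hlt
      linarith
    obtain ⟨t, ht1, ht2⟩ := exists_between h1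
    rw [div_lt_iff₀ (by positivity)] at ht1
    have ht3 : t * kS K w U < - (K * kD K w U d E) := by
      have : -(K * kD K w U d E / kS K w U) = (-(K * kD K w U d E)) / kS K w U := by ring
      rw [this, lt_div_iff₀ hSpos] at ht2
      exact ht2
    obtain ⟨e0, he0, hadm'⟩ := adm_add_smul hadm t
    have := hdesc (d + t • w) E 0 hE
      ⟨e0, he0, fun e he he' => ⟨hadm' e he he', by linarith, by linarith⟩⟩
      (Or.inr (by
        rw [kD_add_smul hK]
        have h2 : t * (kS K w U / K) < - kD K w U d E := by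
          have h3 : t * (kS K w U / K) = (t * kS K w U) / K := by ring
          rw [h3, div_lt_iff₀ hK]
          linarith
        linarith))
    rw [kG_add_smul a hA.sym, ← hP] at this
    linarith
  constructor
  · intro x hx
    -- positive direction
    have hdp : ∀ s : ℝ, kG a w U (Pi.single x s) 0 = - 3 * s * Zx a w U x := by
      intro s
      unfold kG
      rw [Finset.sum_eq_single x (by intro b _ hb; simp [Pi.single_eq_of_ne hb]) (by simp)]
      simp
      ring
    have hdD : ∀ s : ℝ, kD K w U (Pi.single x s) 0 = s * (yy K w U x ^ 2 +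
        2 / K * ∑ z, (1 - U x z) * w z * yy K w U z) := by
      intro s
      unfold kD
      rw [Finset.sum_eq_single x (by intro b _ hb; simp [Pi.single_eq_of_ne hb]) (by simp)]
      have h2 : ∀ z, ∑ j, ((1 - U z j) * (Pi.single x s : X → ℝ) j - (0 : X → X → ℝ) z j * w j) =
          (1 - U x z) * s := by
        intro z
        rw [Finset.sum_eq_single x (by intro b _ hb; simp [Pi.single_eq_of_ne hb]) (by simp)]
        simp [hA.sym x z]
      simp only [h2]
      rw [mul_add, Pi.single_eq_same, Finset.mul_sum, Finset.mul_sum, Finset.mul_sum]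
      congr 1
      apply Finset.sum_congr rfl
      intro z _
      ring
    have hU0 : ∀ e : ℝ, U + e • (0 : X → X → ℝ) = U := by intro e; simp
    have h1 := key (Pi.single x 1) 0 (fun _ _ => rfl) ⟨1, one_pos, by
      intro e he _
      rw [hU0]
      refine ⟨?_, hA.sym, hA.u0, hA.u1⟩
      intro i
      simp only [Pi.add_apply, Pi.smul_apply, smul_eq_mul]
      have h1 : 0 ≤ (Pi.single x 1 : X → ℝ) i := by
        by_cases hi : i = x
        · subst hi; simp
        · simp [Pi.single_eq_of_ne hi]
      have := hA.w0 i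
      positivity⟩
    have h2 := key (Pi.single x (-1)) 0 (fun _ _ => rfl) ⟨w x, hx, by
      intro e he he'
      rw [hU0]
      refine ⟨?_, hA.sym, hA.u0, hA.u1⟩
      intro i
      simp only [Pi.add_apply, Pi.smul_apply, smul_eq_mul]
      by_cases hi : i = x
      · subst hi; simp; linarith
      · simp [Pi.single_eq_of_ne hi, hA.w0 i]⟩
    rw [hdp, hdD] at h1 h2
    have h3 : K * (3 * P / kS K w U) * (yy K w U x ^ 2 +
        2 / K * ∑ z, (1 - U x z) * w z * yy K w U z) = (3 * P / kS K w U) *
          (2 * ∑ z, (1 - U x z) * w z * yy K w U z + K * yy K w U x ^ 2) := by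
      field_simp
      ring
    rw [← h3]
    linarith
  · intro x y hx hy hxy
    let E : X → X → ℝ := fun i j => -((Pi.single x 1 : X → ℝ) i * (Pi.single y 1 : X → ℝ) j +
      (Pi.single y 1 : X → ℝ) i * (Pi.single x 1 : X → ℝ) j)
    have hE : ∀ i j, E i j = E j i := by intro i j; simp only [E]; ring
    have hs1 : ∀ (z : X) (f : X → ℝ), ∑ i, (Pi.single z 1 : X → ℝ) i * f i = f z := by
      intro z f
      rw [Finset.sum_eq_single z (by intro b _ hb; simp [Pi.single_eq_of_ne hb]) (by simp)]
      simp
    have hEs : ∀ (F : X → X → ℝ), ∑ i, ∑ j, E i j * F i j = -(F x y + F y x) := by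
      intro F
      have : ∀ i, ∑ j, E i j * F i j = -((Pi.single x 1 : X → ℝ) i * F i y +
          (Pi.single y 1 : X → ℝ) i * F i x) := by
        intro i
        rw [← hs1 y (fun j => F i j), ← hs1 x (fun j => F i j), Finset.mul_sum, Finset.mul_sum,
          ← Finset.sum_add_distrib, ← Finset.sum_neg_distrib]
        apply Finset.sum_congr rfl
        intro j _
        simp only [E]
        ring
      simp only [this]
      rw [Finset.sum_neg_distrib, Finset.sum_add_distrib, hs1 x (fun i => F i y),
        hs1 y (fun i => F i x)]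
    have hGE : kG a w U 0 E = -6 * (co w U x y - a) * w x * w y := by
      unfold kG
      have h1 : ∑ i, ∑ j, E i j * (co w U i j - a) * w i * w j =
          ∑ i, ∑ j, E i j * ((co w U i j - a) * w i * w j) := by
        apply Finset.sum_congr rfl
        intro i _
        apply Finset.sum_congr rfl
        intro j _
        ring
      rw [h1, hEs]
      have h2 : co w U y x = co w U x y := by
        unfold co
        apply Finset.sum_congr rfl
        intro j _
        ring
      rw [h2]
      simp
      ring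
    have hDE : kD K w U 0 E = 2 / K * (w x * w y * (yy K w U x + yy K w U y)) := by
      unfold kD
      have h1 : ∑ i, w i * yy K w U i * ∑ j, ((1 - U i j) * (0 : X → ℝ) j - E i j * w j) =
          - ∑ i, ∑ j, E i j * (w i * yy K w U i * w j) := by
        rw [← Finset.sum_neg_distrib]
        apply Finset.sum_congr rfl
        intro i _
        rw [Finset.mul_sum, ← Finset.sum_neg_distrib]
        apply Finset.sum_congr rfl
        intro j _
        simp only [Pi.zero_apply]
        ring
      have h0 : ∑ i, (0 : X → ℝ) i * yy K w U i ^ 2 = 0 := by simp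
      rw [h1, hEs, h0]
      ring
    have h1 := key 0 E hE ⟨U x y / 2, by linarith, by
      intro e he he'
      have hw : w + e • (0 : X → ℝ) = w := by simp
      rw [hw]
      have hEb : ∀ i j, E i j ≤ 0 := by
        intro i j
        have : ∀ (z i : X), 0 ≤ (Pi.single z 1 : X → ℝ) i := by
          intro z i
          by_cases hi : i = z
          · subst hi; simp
          · simp [Pi.single_eq_of_ne hi]
        have h1 := mul_nonneg (this x i) (this y j)
        have h2 := mul_nonneg (this y i) (this x j)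
        simp only [E]
        linarith
      refine ⟨hA.w0, ?_, ?_, ?_⟩
      · intro i j
        simp only [Pi.add_apply, Pi.smul_apply, smul_eq_mul]
        rw [hA.sym i j, hE i j]
      · intro i j
        simp only [Pi.add_apply, Pi.smul_apply, smul_eq_mul]
        by_cases hc : (i = x ∧ j = y) ∨ (i = y ∧ j = x)
        · have hU : U i j = U x y := by
            rcases hc with ⟨rfl, rfl⟩ | ⟨rfl, rfl⟩
            · rfl
            · exact hA.sym _ _
          have hE2 : -2 ≤ E i j := by
            have : ∀ (z i : X), (Pi.single z 1 : X → ℝ) i ≤ 1 ∧ 0 ≤ (Pi.single z 1 : X → ℝ) i := by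
              intro z i
              by_cases hi : i = z
              · subst hi; simp
              · simp [Pi.single_eq_of_ne hi]
            have h1 := mul_le_mul (this x i).1 (this y j).1 (this y j).2 zero_le_one
            have h2 := mul_le_mul (this y i).1 (this x j).1 (this x j).2 zero_le_one
            simp only [E]
            linarith
          rw [hU]
          nlinarith
        · have hE0 : E i j = 0 := by
            push Not at hc
            simp only [E]
            by_cases hix : i = x
            · have hjy := hc.1 hix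
              by_cases hiy : i = y
              · have hjx := hc.2 hiy
                simp [Pi.single_eq_of_ne hjy, Pi.single_eq_of_ne hjx]
              · simp [Pi.single_eq_of_ne hjy, Pi.single_eq_of_ne hiy]
            · by_cases hiy : i = y
              · have hjx := hc.2 hiy
                simp [Pi.single_eq_of_ne hix, Pi.single_eq_of_ne hjx]
              · simp [Pi.single_eq_of_ne hix, Pi.single_eq_of_ne hiy]
          rw [hE0, mul_zero, add_zero]
          exact hA.u0 i j
      · intro i j
        simp only [Pi.add_apply, Pi.smul_apply, smul_eq_mul]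
        have := mul_nonneg he (neg_nonneg.2 (hEb i j))
        have := hA.u1 i j
        linarith⟩
    rw [hGE, hDE] at h1
    have h2 : K * (3 * P / kS K w U) * (2 / K * (w x * w y * (yy K w U x + yy K w U y))) =
      2 * (w x * w y) * ((3 * P / kS K w U) * (yy K w U x + yy K w U y)) := by
      field_simp
    rw [h2] at h1
    have h3 : 0 < w x * w y := mul_pos hx hy
    by_contra hcon
    push Not at hcon
    nlinarith [mul_lt_mul_of_pos_left hcon h3]

end LibTri47
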