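import Pool.Agent.LibTri47.Ident

set_option autoImplicit false

/-! # Minimisers for the main inequality -/

namespace LibTri47

open Finset

variable {X : Type} [Fintype X]

/-- a feasible kernel has `1 < v < 2` -/
theorem feas_v {a K : ℝ} (ha : 0 ≤ a) {w : X → ℝ} {U : X → X → ℝ} (hA : Adm w U) (hK : 0 < K)
    (hK1 : K ≤ 1) (hY : Y2 K w U ≤ a) (hZ : 0 ≤ Zf a w U) :
    1 < ms w - a ∧ ms w - a < 2 ∧
      K / 2 * (ms w - a) ≤ (ms w - a - 1) * (2 - (ms w - a)) ∧ K < 1 := by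
  clear ha
  have hG := GC (w := w) (U := U) hK hA.w0
  have hE := Zf_eq a (w := w) (U := U)
  have h1 : ∑ x, w x * (nn w U x - 1) = -∑ x, w x * (1 - nn w U x) := by
    rw [← Finset.sum_neg_distrib]
    exact Finset.sum_congr rfl fun x _ => by ring
  have h2 : ∑ i, w i = ms w := rfl
  have h3 : ∑ i, w i * yy K w U i ^ 2 = Y2 K w U := rfl
  rw [h1] at hE
  rw [h2, h3] at hG
  set v : ℝ := ms w - a with hv
  have h4 : K / 2 * v ≤ (v - 1) * (2 - v) := by
    have h5 : K / 2 * v ≤ K / 2 * (ms w - Y2 K w U) := by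
      apply mul_le_mul_of_nonneg_left _ (by positivity)
      rw [hv]; linarith
    linarith
  have hv0 : 0 < v := by
    by_contra hcon
    push Not at hcon
    nlinarith [mul_nonneg (by linarith : (0 : ℝ) ≤ 1 - K) (by linarith : 0 ≤ -v), sq_nonneg v]
  have h6 : 0 < (v - 1) * (2 - v) := lt_of_lt_of_le (by positivity) h4
  have h7 : 1 < v := by
    by_contra hcon
    push Not at hcon
    nlinarith
  have h8 : v < 2 := by
    by_contra hcon
    push Not at hcon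
    nlinarith
  refine ⟨h7, h8, h4, ?_⟩
  nlinarith [sq_nonneg (v - 3 / 2)]

/-- `K² Y2` -/
noncomputable def sminJ (w : X → ℝ) (U : X → X → ℝ) (K : ℝ) : ℝ :=
  ∑ x, w x * max 0 (nn w U x - 1 + K) ^ 2

theorem sminJ_eq {K : ℝ} (hK : 0 < K) (w : X → ℝ) (U : X → X → ℝ) :
    sminJ w U K = K ^ 2 * Y2 K w U := by
  unfold sminJ Y2 yy
  rw [Finset.mul_sum]
  refine Finset.sum_congr rfl fun x _ => ?_
  have : max 0 (nn w U x - 1 + K) = K * max 0 ((nn w U x - 1 + K) / K) := by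
    rw [mul_max_of_nonneg _ _ hK.le, mul_zero, mul_div_cancel₀ _ hK.ne']
  rw [this]
  ring

theorem smin_continuous_J :
    Continuous fun p : ((X → ℝ) × (X → X → ℝ)) × ℝ => sminJ p.1.1 p.1.2 p.2 := by
  unfold sminJ nn
  fun_prop

omit [Fintype X] in
theorem smin_isClosed_Adm :
    IsClosed {p : ((X → ℝ) × (X → X → ℝ)) × ℝ | Adm p.1.1 p.1.2} := by
  have e : {p : ((X → ℝ) × (X → X → ℝ)) × ℝ | Adm p.1.1 p.1.2} =
      (⋂ i, {p | 0 ≤ p.1.1 i}) ∩ ((⋂ i, ⋂ j, {p | p.1.2 i j = p.1.2 j i}) ∩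
        ((⋂ i, ⋂ j, {p | 0 ≤ p.1.2 i j}) ∩ (⋂ i, ⋂ j, {p | p.1.2 i j ≤ 1}))) := by
    ext p
    simp only [Set.mem_ofPred_eq, Set.mem_inter_iff, Set.mem_iInter]
    exact ⟨fun h => ⟨h.w0, h.sym, h.u0, h.u1⟩, fun h => ⟨h.1, h.2.1, h.2.2.1, h.2.2.2⟩⟩
  rw [e]
  refine (isClosed_iInter fun i => ?_).inter ((isClosed_iInter fun i => isClosed_iInter fun j => ?_).inter
    ((isClosed_iInter fun i => isClosed_iInter fun j => ?_).inter
      (isClosed_iInter fun i => isClosed_iInter fun j => ?_)))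
  · exact isClosed_le continuous_const (by fun_prop)
  · exact isClosed_eq (by fun_prop) (by fun_prop)
  · exact isClosed_le continuous_const (by fun_prop)
  · exact isClosed_le (by fun_prop) continuous_const

/-- compactness -/
theorem exists_minS {a K0 : ℝ} (ha : 1 ≤ a) (hK0 : 0 < K0) {w1 : X → ℝ} {U1 : X → X → ℝ}
    {K1 : ℝ} (h : FeS a K0 w1 U1 K1) :
    ∃ (w : X → ℝ) (U : X → X → ℝ) (K : ℝ), MinS a K0 w U K := by
  obtain ⟨S, hS⟩ : ∃ S : Set (((X → ℝ) × (X → X → ℝ)) × ℝ),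
      S = {p | FeS a K0 p.1.1 p.1.2 p.2} := ⟨_, rfl⟩
  have hmem : ∀ p, p ∈ S ↔ FeS a K0 p.1.1 p.1.2 p.2 := by
    intro p
    rw [hS]
    exact Iff.rfl
  have hclosed : IsClosed S := by
    have e : S = {p | Adm p.1.1 p.1.2} ∩ ({p | K0 ≤ p.2} ∩ ({p | p.2 ≤ 1} ∩
        ({p | sminJ p.1.1 p.1.2 p.2 ≤ a * p.2 ^ 2} ∩ {p | 0 ≤ Zf a p.1.1 p.1.2}))) := by
      ext p
      rw [hmem]
      simp only [Set.mem_inter_iff, Set.mem_ofPred_eq]
      unfold FeS
      refine and_congr_right fun _ => and_congr_right fun hK => and_congr_right fun _ =>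
        and_congr_left fun _ => ?_
      have hKp : 0 < p.2 := lt_of_lt_of_le hK0 hK
      rw [sminJ_eq hKp, mul_comm a]
      constructor
      · intro h1
        exact mul_le_mul_of_nonneg_left h1 (by positivity)
      · intro h1
        exact le_of_mul_le_mul_left h1 (by positivity)
    rw [e]
    have c1 : Continuous fun p : ((X → ℝ) × (X → X → ℝ)) × ℝ => Zf a p.1.1 p.1.2 := by
      unfold Zf ed ms
      fun_prop
    have h1 : IsClosed {p : ((X → ℝ) × (X → X → ℝ)) × ℝ | K0 ≤ p.2} :=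
      isClosed_le continuous_const continuous_snd
    have h2 : IsClosed {p : ((X → ℝ) × (X → X → ℝ)) × ℝ | p.2 ≤ 1} :=
      isClosed_le continuous_snd continuous_const
    have h3 : IsClosed {p : ((X → ℝ) × (X → X → ℝ)) × ℝ | sminJ p.1.1 p.1.2 p.2 ≤ a * p.2 ^ 2} :=
      isClosed_le smin_continuous_J (by fun_prop)
    have h4 : IsClosed {p : ((X → ℝ) × (X → X → ℝ)) × ℝ | 0 ≤ Zf a p.1.1 p.1.2} :=
      isClosed_le continuous_const c1
    exact smin_isClosed_Adm.inter (h1.inter (h2.inter (h3.inter h4)))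
  have hcomp : IsCompact S := by
    have hI : IsCompact (Set.Icc (((fun _ => 0, fun _ _ => 0), 0) : ((X → ℝ) × (X → X → ℝ)) × ℝ)
        ((fun _ => a + 2, fun _ _ => 1), 1)) := isCompact_Icc
    refine hI.of_isClosed_subset hclosed ?_
    intro p hp
    obtain ⟨hA, hK, hK1, hY, hZ⟩ := (hmem p).1 hp
    have hKp : 0 < p.2 := lt_of_lt_of_le hK0 hK
    have hv := (feas_v (by linarith) hA hKp hK1 hY hZ).2.1
    refine ⟨⟨⟨fun i => hA.w0 i, fun i j => hA.u0 i j⟩, hKp.le⟩,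
      ⟨⟨fun i => ?_, fun i j => hA.u1 i j⟩, hK1⟩⟩
    have h1 : p.1.1 i ≤ ms p.1.1 :=
      Finset.single_le_sum (f := p.1.1) (fun j _ => hA.w0 j) (Finset.mem_univ i)
    exact h1.trans (by linarith)
  have hne : S.Nonempty := ⟨((w1, U1), K1), (hmem _).2 h⟩
  have hcont : ContinuousOn (fun p : ((X → ℝ) × (X → X → ℝ)) × ℝ => Ph a p.1.1 p.1.2) S := by
    have : Continuous fun p : ((X → ℝ) × (X → X → ℝ)) × ℝ => Ph a p.1.1 p.1.2 := by
      unfold Ph tr ed ms
      fun_prop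
    exact this.continuousOn
  obtain ⟨p, hp, hmin⟩ := hcomp.exists_isMinOn hne hcont
  refine ⟨p.1.1, p.1.2, p.2, ?_⟩
  unfold MinS
  refine ⟨(hmem p).1 hp, ?_⟩
  intro w' U' K' h'
  have h2 := (isMinOn_iff.1 hmin) ((w', U'), K') ((hmem ((w', U'), K')).2 h')
  exact h2

end LibTri47
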