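import Pool.Agent.LibTri47.Near

set_option autoImplicit false

namespace LibTri47

open Finset LibProf47 Set

/-- `q - p²` on the curved part of the sheet -/
noncomputable def Gq (p c : ℝ) : ℝ :=
  ((kk p : ℝ) - 1) * c * (c - p) ^ 2 / (1 - ((kk p : ℝ) - 1) * c)

lemma basic {p : ℝ} (hp0 : 0 < p) (hp : p ≤ 1 / 2) :
    (2 : ℝ) ≤ kk p ∧ 0 < cc p ∧ p ≤ cc p ∧ 0 ≤ 1 - kk p * cc p ∧ 1 - kk p * cc p ≤ cc p ∧
      kk p * cc p ^ 2 + (1 - kk p * cc p) ^ 2 = p ∧ ((kk p : ℝ) - 1) * cc p < 1 := by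
  obtain ⟨h1, h2, h3, h4, h5⟩ := cc_facts hp0 (by linarith)
  have hk : (2 : ℝ) ≤ kk p := by
    have : 2 ≤ kk p := by
      apply Nat.le_floor
      rw [le_div_iff₀ hp0]
      push_cast
      linarith
    exact_mod_cast this
  have hc0 : 0 ≤ cc p := h2.trans h3
  have hc : 0 < cc p := by
    rcases eq_or_lt_of_le hc0 with h | h
    · rw [← h] at h5 h3 h2
      simp at h3
      linarith
    · exact h
  refine ⟨hk, hc, ?_, h2, h3, h5, ?_⟩
  · nlinarith [mul_nonneg h2 (sub_nonneg.2 h3)]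
  · nlinarith

lemma den_pos {p c : ℝ} (hp0 : 0 < p) (hp : p ≤ 1 / 2) (hc : c ≤ cc p) :
    0 < 1 - ((kk p : ℝ) - 1) * c := by
  obtain ⟨h1, h2, h3, h4, h5, h6, h7⟩ := basic hp0 hp
  nlinarith [mul_le_mul_of_nonneg_left hc (by linarith : (0:ℝ) ≤ (kk p : ℝ) - 1)]

lemma Gq_eq {p c : ℝ} (hp0 : 0 < p) (hp : p ≤ 1 / 2) (hc : c ≤ cc p) :
    Gq p c * (1 - ((kk p : ℝ) - 1) * c) = ((kk p : ℝ) - 1) * c * (c - p) ^ 2 := by
  have := den_pos hp0 hp hc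
  rw [Gq]
  field_simp

lemma Gq_lt {p c' c : ℝ} (hp0 : 0 < p) (hp : p ≤ 1 / 2) (h1 : p ≤ c') (h2 : c' < c)
    (hc : c ≤ cc p) : Gq p c' < Gq p c := by
  obtain ⟨g1, g2, g3, g4, g5, g6, g7⟩ := basic hp0 hp
  have d1 := den_pos hp0 hp hc
  have d2 := den_pos hp0 hp (h2.le.trans hc)
  have ha : 0 < (kk p : ℝ) - 1 := by linarith
  rw [Gq, Gq, div_lt_div_iff₀ d2 d1]
  have hc0 : 0 < c := by linarith
  have e1 : (c' - p) ^ 2 < (c - p) ^ 2 := by nlinarith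
  have e2 : ((kk p : ℝ) - 1) * c' * (c' - p) ^ 2 < ((kk p : ℝ) - 1) * c * (c - p) ^ 2 := by
    have : ((kk p : ℝ) - 1) * c' < ((kk p : ℝ) - 1) * c := by nlinarith
    have h0 : 0 ≤ ((kk p : ℝ) - 1) * c' := by
      apply mul_nonneg ha.le; linarith
    nlinarith [sq_nonneg (c' - p)]
  have e3 : 1 - ((kk p : ℝ) - 1) * c ≤ 1 - ((kk p : ℝ) - 1) * c' := by nlinarith
  have e4 : 0 ≤ ((kk p : ℝ) - 1) * c' * (c' - p) ^ 2 := by
    have : 0 ≤ c' := by linarith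
    positivity
  calc ((kk p : ℝ) - 1) * c' * (c' - p) ^ 2 * (1 - ((kk p : ℝ) - 1) * c)
      ≤ ((kk p : ℝ) - 1) * c' * (c' - p) ^ 2 * (1 - ((kk p : ℝ) - 1) * c') :=
        mul_le_mul_of_nonneg_left e3 e4
    _ < ((kk p : ℝ) - 1) * c * (c - p) ^ 2 * (1 - ((kk p : ℝ) - 1) * c') :=
        mul_lt_mul_of_pos_right e2 d2

lemma Gq_nonneg {p c : ℝ} (hp0 : 0 < p) (hp : p ≤ 1 / 2) (h1 : p ≤ c) (hc : c ≤ cc p) :
    0 ≤ Gq p c := by
  obtain ⟨g1, g2, g3, g4, g5, g6, g7⟩ := basic hp0 hp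
  have d1 := den_pos hp0 hp hc
  rw [Gq]
  have : 0 ≤ (kk p : ℝ) - 1 := by linarith
  have : 0 ≤ c := by linarith
  positivity

lemma Gq_le {p c' c : ℝ} (hp0 : 0 < p) (hp : p ≤ 1 / 2) (h1 : p ≤ c') (h2 : c' ≤ c)
    (hc : c ≤ cc p) : Gq p c' ≤ Gq p c := by
  rcases eq_or_lt_of_le h2 with h | h
  · rw [h]
  · exact (Gq_lt hp0 hp h1 h hc).le

lemma mem_Cset {p q c : ℝ} (hp0 : 0 < p) (hp : p ≤ 1 / 2) (h1 : p ≤ c) (hc : c ≤ cc p) :
    c ∈ Cset p q ↔ (c = cc p ∨ q - p ^ 2 ≤ Gq p c) := by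
  have d1 := den_pos hp0 hp hc
  have e := Gq_eq hp0 hp hc
  constructor
  · rintro ⟨-, -, h⟩
    rcases h with h | h
    · exact Or.inl h
    · right
      rw [← e] at h
      exact le_of_mul_le_mul_right h d1
  · intro h
    refine ⟨h1, hc, ?_⟩
    rcases h with h | h
    · exact Or.inl h
    · right
      rw [← e]
      exact mul_le_mul_of_nonneg_right h d1.le

lemma least_curve {p c : ℝ} (hp0 : 0 < p) (hp : p ≤ 1 / 2) (h1 : p ≤ c) (hc : c ≤ cc p) :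
    IsLeast (Cset p (p ^ 2 + Gq p c)) c := by
  constructor
  · rw [mem_Cset hp0 hp h1 hc]
    right
    linarith
  · intro c' hc'
    by_contra hlt
    push Not at hlt
    have h1' := hc'.1
    rw [mem_Cset hp0 hp hc'.1 hc'.2.1] at hc'
    rcases hc' with h | h
    · linarith
    · have := Gq_lt hp0 hp h1' hlt hc
      linarith

lemma least_cc {p q : ℝ} (hp0 : 0 < p) (hp : p ≤ 1 / 2) (hq : Gq p (cc p) ≤ q - p ^ 2) :
    IsLeast (Cset p q) (cc p) := by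
  obtain ⟨g1, g2, g3, g4, g5, g6, g7⟩ := basic hp0 hp
  constructor
  · rw [mem_Cset hp0 hp g3 le_rfl]
    exact Or.inl rfl
  · intro c' hc'
    by_contra hlt
    push Not at hlt
    have h1' := hc'.1
    rw [mem_Cset hp0 hp hc'.1 hc'.2.1] at hc'
    rcases hc' with h | h
    · linarith
    · have := Gq_lt hp0 hp h1' hlt le_rfl
      linarith

lemma Gq_self (p : ℝ) : Gq p p = 0 := by
  rw [Gq]
  simp

lemma Gq_cont {p : ℝ} (hp0 : 0 < p) (hp : p ≤ 1 / 2) : ContinuousOn (Gq p) (Iic (cc p)) := by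
  apply ContinuousOn.div
  · fun_prop
  · fun_prop
  · intro x hx
    exact (den_pos hp0 hp hx).ne'

/-- a value of `Gq` below `Gq c` is attained before `c` -/
lemma Gq_surj {p c g : ℝ} (hp0 : 0 < p) (hp : p ≤ 1 / 2) (h1 : p ≤ c) (hc : c ≤ cc p)
    (hg0 : 0 ≤ g) (hg : g < Gq p c) : ∃ c', p ≤ c' ∧ c' < c ∧ Gq p c' = g := by
  have hcont : ContinuousOn (Gq p) (Icc p c) :=
    (Gq_cont hp0 hp).mono fun x hx => hx.2.trans hc
  have := intermediate_value_Icc h1 hcont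
  have hmem : g ∈ Icc (Gq p p) (Gq p c) := ⟨by rw [Gq_self]; exact hg0, hg.le⟩
  obtain ⟨c', hc', e⟩ := this hmem
  refine ⟨c', hc'.1, ?_, e⟩
  rcases eq_or_lt_of_le hc'.2 with h | h
  · rw [h] at e
    linarith
  · exact h

/-- the least admissible size lies on the curve, unless it is `cc p` -/
lemma least_facts {p q c : ℝ} (hp0 : 0 < p) (hp : p ≤ 1 / 2) (hq : p ^ 2 ≤ q)
    (hc : IsLeast (Cset p q) c) :
    p ≤ c ∧ c ≤ cc p ∧ Gq p c ≤ q - p ^ 2 ∧ (c = cc p ∨ q - p ^ 2 = Gq p c) := by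
  have h1 : p ≤ c := hc.1.1
  have h2 : c ≤ cc p := hc.1.2.1
  have h3 : Gq p c ≤ q - p ^ 2 := by
    by_contra hlt
    push Not at hlt
    obtain ⟨c', g1, g2, g3⟩ := Gq_surj hp0 hp h1 h2 (by linarith) hlt
    have : c' ∈ Cset p q := by
      rw [mem_Cset hp0 hp g1 (g2.le.trans h2)]
      right
      exact g3.ge
    have := hc.2 this
    linarith
  refine ⟨h1, h2, h3, ?_⟩
  have h := hc.1
  rw [mem_Cset hp0 hp h1 h2] at h
  rcases h with h | h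
  · exact Or.inl h
  · exact Or.inr (le_antisymm h h3)

lemma Tc_hh {p : ℝ} (hp0 : 0 < p) (hp : p ≤ 1 / 2) : Tc p (hh p) (cc p) = hh p := by
  obtain ⟨g1, g2, g3, g4, g5, g6, g7⟩ := basic hp0 hp
  rw [Tc, hh]
  linear_combination (3 - 3 * ((kk p : ℝ) - 1) * cc p) * g6

lemma Gq_cc_le {p : ℝ} (hp0 : 0 < p) (hp : p ≤ 1 / 2) : Gq p (cc p) ≤ hh p - p ^ 2 := by
  obtain ⟨g1, g2, g3, g4, g5, g6, g7⟩ := basic hp0 hp
  have hd := den_pos hp0 hp (le_refl (cc p))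
  rw [Gq, div_le_iff₀ hd, hh]
  generalize cc p = c at *
  generalize (kk p : ℝ) = k at *
  obtain ⟨r, hr⟩ : ∃ r, r = 1 - k * c := ⟨_, rfl⟩
  have e0 : 1 - (k - 1) * c = c + r := by rw [hr]; ring
  have e1 : c - p = r * (c - r) := by
    rw [← g6, ← hr]
    have : c = c * (k * c + r) := by rw [hr]; ring
    linear_combination this
  have e2 : k * c ^ 3 + (1 - k * c) ^ 3 - p ^ 2 = k * c * r * (c - r) ^ 2 := by
    rw [← g6, ← hr]
    have : k * c + r = 1 := by rw [hr]; ring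
    linear_combination (-(k * c ^ 3 + r ^ 3)) * this
  rw [e0, e1, e2]
  rw [← hr] at g4
  have : 0 ≤ k * c * r * (c - r) ^ 2 * c := by positivity
  have h2 : 0 ≤ c * r ^ 2 * (c - r) ^ 2 := by positivity
  nlinarith

end LibTri47
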