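import Pool.Agent.LibTri47.Final

set_option autoImplicit false

/-! # The complete description of the 3-profile: all tuples -/

namespace LibTri47

open Finset LibProf47

/-- `c` is the size of the large cliques of the extremal graph in the near regular part (for edge
density `p` and cherry density `q`); there is exactly one such `c` (`isC_unique`). -/
def IsC (p q c : ℝ) : Prop :=
  p ≤ c ∧ c ≤ cc p ∧
    ((kk p : ℝ) - 1) * c * (c - p) ^ 2 ≤ (q - p ^ 2) * (1 - ((kk p : ℝ) - 1) * c) ∧
    (c = cc p ∨ ((kk p : ℝ) - 1) * c * (c - p) ^ 2 = (q - p ^ 2) * (1 - ((kk p : ℝ) - 1) * c))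

theorem isC_iff {p q c : ℝ} (hp0 : 0 < p) (hp : p ≤ 1 / 2) (hq : p ^ 2 ≤ q) :
    IsC p q c ↔ IsLeast (Cset p q) c := by
  constructor
  · rintro ⟨h1, h2, h3, h4⟩
    have hd := den_pos hp0 hp h2
    have he := Gq_eq hp0 hp h2
    rcases h4 with h4 | h4
    · subst h4
      apply least_cc hp0 hp
      rw [← he] at h3
      exact le_of_mul_le_mul_right h3 hd
    · rw [← he] at h4
      have := mul_right_cancel₀ hd.ne' h4
      have hq' : q = p ^ 2 + Gq p c := by linarith
      rw [hq']
      exact least_curve hp0 hp h1 h2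
  · intro h
    obtain ⟨f1, f2, f3, f4⟩ := least_facts hp0 hp hq h
    have hd := den_pos hp0 hp f2
    have he := Gq_eq hp0 hp f2
    refine ⟨f1, f2, ?_, ?_⟩
    · rw [← he]
      exact mul_le_mul_of_nonneg_right f3 hd.le
    · rcases f4 with f4 | f4
      · exact Or.inl f4
      · right
        rw [← he, f4]

theorem isC_unique {p q : ℝ} (hp0 : 0 < p) (hp : p ≤ 1 / 2) (hq : p ^ 2 ≤ q) :
    ∃! c, IsC p q c := by
  obtain ⟨c, hc⟩ := exists_c (q := q) hp0 hp
  refine ⟨c, (isC_iff hp0 hp hq).2 hc, fun y hy => ?_⟩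
  exact IsLeast.unique ((isC_iff hp0 hp hq).1 hy) hc

/-- The region of all triples (edge, cherry, triangle density) for edge density in `(0, 1/2]`. -/
def Region (p q t : ℝ) : Prop :=
  0 < p ∧ p ≤ 1 / 2 ∧ p ^ 2 ≤ q ∧ 0 ≤ t ∧ t ≤ q ∧ Upp p q t ∧ ∀ c, IsC p q c → t ≤ Tc p q c

theorem region_iff {p q t : ℝ} (hp0 : 0 < p) (hp : p ≤ 1 / 2) :
    pt p q t ∈ Profile ↔ Region p q t := by
  rw [description_full hp0 hp]
  constructor
  · rintro ⟨h1, h2, h3, h4, c, h5, h6⟩
    refine ⟨hp0, hp, h1, h2, h3, h4, fun c' hc' => ?_⟩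
    rw [IsLeast.unique ((isC_iff hp0 hp h1).1 hc') h5]
    exact h6
  · rintro ⟨-, -, h1, h2, h3, h4, h5⟩
    obtain ⟨c, hc⟩ := exists_c (q := q) hp0 hp
    exact ⟨h1, h2, h3, h4, c, hc, h5 c ((isC_iff hp0 hp h1).2 hc)⟩

lemma empty_mem : (![1, 0, 0, 0] : Fin 4 → ℝ) ∈ Profile := by
  have h : StepPt 0 0 0 := by
    refine ⟨1, fun _ _ => 0, fun _ => 1, by intros; norm_num, by intros; rfl,
      by intros; norm_num, by simp, by simp, by simp, by simp⟩
  have := step_mem h
  simpa [pt] using this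

lemma complete_mem : (![0, 0, 0, 1] : Fin 4 → ℝ) ∈ Profile := by
  have := profile_rev empty_mem
  simpa using this

lemma pt_rev (p q t : ℝ) :
    pt (1 - p) (1 - 2 * p + q) (1 - 3 * p + 3 * q - t) =
      ![t, 3 * (q - t), 3 * (p - 2 * q + t), 1 - 3 * p + 3 * q - t] := by
  rw [pt]
  ext i
  fin_cases i <;> simp <;> ring

theorem profile_iff (d : Fin 4 → ℝ) :
    d ∈ Profile ↔ d = ![1, 0, 0, 0] ∨ d = ![0, 0, 0, 1] ∨
      ∃ p q t, Region p q t ∧ (d = ![1 - 3 * p + 3 * q - t, 3 * (p - 2 * q + t), 3 * (q - t), t] ∨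
        d = ![t, 3 * (q - t), 3 * (p - 2 * q + t), 1 - 3 * p + 3 * q - t]) := by
  constructor
  · intro h
    obtain ⟨p, q, t, e⟩ : ∃ p q t, d = pt p q t := ⟨_, _, _, Lim.prof_eq_pt h⟩
    have h0 : 0 ≤ 1 - 3 * p + 3 * q - t := by
      have := Lim.prof_nonneg h 0
      rw [e] at this
      simpa [pt] using this
    have h1 : 0 ≤ 3 * (p - 2 * q + t) := by
      have := Lim.prof_nonneg h 1
      rw [e] at this
      simpa [pt] using this
    have h2 : 0 ≤ 3 * (q - t) := by
      have := Lim.prof_nonneg h 2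
      rw [e] at this
      simpa [pt] using this
    have h3 : 0 ≤ t := by
      have := Lim.prof_nonneg h 3
      rw [e] at this
      simpa [pt] using this
    have hp0 : 0 ≤ p := by linarith
    have hp1 : p ≤ 1 := by linarith
    rcases eq_or_lt_of_le hp0 with g0 | g0
    · left
      have hq : q = 0 := by linarith
      have ht : t = 0 := by linarith
      rw [e, ← g0, hq, ht, pt]
      norm_num
    rcases eq_or_lt_of_le hp1 with g1 | g1
    · right; left
      have hq : q = 1 := by linarith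
      have ht : t = 1 := by linarith
      rw [e, g1, hq, ht, pt]
      norm_num
    right; right
    rcases le_total p (1 / 2) with g2 | g2
    · refine ⟨p, q, t, (region_iff g0 g2).1 (e ▸ h), Or.inl e⟩
    · refine ⟨1 - p, 1 - 2 * p + q, 1 - 3 * p + 3 * q - t, ?_, Or.inr ?_⟩
      · rw [← region_iff (by linarith) (by linarith), pt_rev]
        have := profile_rev h
        rw [e] at this
        simpa [pt] using this
      · rw [e, pt]
        ext i
        fin_cases i <;> simp <;> ring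
  · rintro (h | h | ⟨p, q, t, hR, h | h⟩)
    · rw [h]
      exact empty_mem
    · rw [h]
      exact complete_mem
    · rw [h]
      exact (region_iff hR.1 hR.2.1).2 hR
    · rw [h]
      have := profile_rev ((region_iff hR.1 hR.2.1).2 hR)
      simpa [pt] using this

/-- the near regular sheet is attained -/
theorem near_sheet {p q c : ℝ} (hp0 : 0 < p) (hp : p ≤ 1 / 2) (hq1 : p ^ 2 ≤ q) (hq2 : q ≤ hh p)
    (hc : IsC p q c) : IsGreatest {t | pt p q t ∈ Profile} (Tc p q c) := by
  rw [isC_iff hp0 hp hq1] at hc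
  exact ⟨step_mem (near_ext hp0 hp hq1 hq2 hc), fun _ ht => near_bound hp0 hp ht hq1 hc.1⟩

end LibTri47
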